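import Mathlib

set_option autoImplicit false

namespace Pool.Agent.H72

/-- In a finite abelian group the number of `p`-torsion elements is the index of the image
of multiplication by `p`. -/
theorem card_ker_nsmul_eq (C : Type*) [AddCommGroup C] [Finite C] (p : ℕ) :
    Nat.card (nsmulAddMonoidHom p : C →+ C).ker = (nsmulAddMonoidHom p : C →+ C).range.index := by
  have h1 : Nat.card (nsmulAddMonoidHom p : C →+ C).ker *
      (nsmulAddMonoidHom p : C →+ C).ker.index = Nat.card C :=
    (nsmulAddMonoidHom p : C →+ C).ker.card_mul_index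
  have h2 : Nat.card (nsmulAddMonoidHom p : C →+ C).range *
      (nsmulAddMonoidHom p : C →+ C).range.index = Nat.card C :=
    (nsmulAddMonoidHom p : C →+ C).range.card_mul_index
  have h3 : (nsmulAddMonoidHom p : C →+ C).ker.index
      = Nat.card (nsmulAddMonoidHom p : C →+ C).range := AddSubgroup.index_ker _
  rw [h3] at h1
  have h4 : 0 < Nat.card (nsmulAddMonoidHom p : C →+ C).range := Nat.card_pos
  have h5 : Nat.card (nsmulAddMonoidHom p : C →+ C).range *
      Nat.card (nsmulAddMonoidHom p : C →+ C).ker =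
      Nat.card (nsmulAddMonoidHom p : C →+ C).range *
      (nsmulAddMonoidHom p : C →+ C).range.index := by
    rw [h2, ← h1, mul_comm]
  exact Nat.eq_of_mul_eq_mul_left h4 h5

/-- The number of `p`-torsion elements of a finite abelian group does not increase under
surjections. -/
theorem card_ptors_le_of_surj {B B' : Type*} [AddCommGroup B] [AddCommGroup B'] [Finite B]
    (φ : B →+ B') (hφ : Function.Surjective φ) (p : ℕ) :
    Nat.card (nsmulAddMonoidHom p : B' →+ B').ker ≤
      Nat.card (nsmulAddMonoidHom p : B →+ B).ker := by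
  have : Finite B' := Finite.of_surjective φ hφ
  rw [card_ker_nsmul_eq, card_ker_nsmul_eq]
  have h1 : ((nsmulAddMonoidHom p : B' →+ B').range.comap φ).index
      = (nsmulAddMonoidHom p : B' →+ B').range.index :=
    AddSubgroup.index_comap_of_surjective _ hφ
  rw [← h1]
  have h2 : (nsmulAddMonoidHom p : B →+ B).range ≤ (nsmulAddMonoidHom p : B' →+ B').range.comap φ := by
    rintro x ⟨y, rfl⟩
    exact ⟨φ y, by simp⟩
  apply Nat.le_of_dvd
  · exact Nat.pos_of_ne_zero AddSubgroup.FiniteIndex.index_ne_zero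
  · exact AddSubgroup.index_dvd_of_le h2

/-- **Lemma Q.** If `M` is a torsion subgroup with finitely many `p`-torsion elements, then so is
every homomorphic image of `M`. -/
theorem finite_ptors_map {X Y : Type*} [AddCommGroup X] [AddCommGroup Y] (π : X →+ Y)
    (M : AddSubgroup X) (hM : ∀ x ∈ M, ∃ n : ℕ, 0 < n ∧ n • x = 0) (p : ℕ)
    (hfin : {x : X | x ∈ M ∧ p • x = 0}.Finite) :
    {y : Y | y ∈ M.map π ∧ p • y = 0}.Finite := by
  classical
  by_contra hinf
  obtain ⟨t, ht, htc⟩ := Set.Infinite.exists_subset_card_eq hinf (hfin.toFinset.card + 1)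
  -- choose lifts
  have hl : ∀ y : Y, ∃ x : X, y ∈ t → (x ∈ M ∧ π x = y) := by
    intro y
    by_cases hy : y ∈ t
    · obtain ⟨x, hx, hxy⟩ := (ht hy).1
      exact ⟨x, fun _ => ⟨hx, hxy⟩⟩
    · exact ⟨0, fun h => absurd h hy⟩
  choose l hl using hl
  set F : AddSubgroup X := AddSubgroup.closure (l '' (t : Set Y)) with hF
  have hFM : F ≤ M := by
    rw [hF, AddSubgroup.closure_le]
    rintro _ ⟨y, hy, rfl⟩
    exact (hl y hy).1
  have : AddGroup.FG F := by
    rw [AddGroup.fg_iff_addSubgroup_fg]
    exact ⟨t.image l, by simp [hF]⟩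
  have : Finite F := by
    apply AddCommGroup.finite_of_fg_isAddTorsion
    intro x
    obtain ⟨n, hn, hx⟩ := hM x.1 (hFM x.2)
    rw [isOfFinAddOrder_iff_nsmul_eq_zero]
    exact ⟨n, hn, by ext; simpa using hx⟩
  -- the image
  set φ : F →+ F.map π := π.addSubgroupMap F with hφ
  have hsurj : Function.Surjective φ := π.addSubgroupMap_surjective F
  have hle := card_ptors_le_of_surj φ hsurj p
  have : Finite (F.map π) := Finite.of_surjective φ hsurj
  -- upper bound
  have hub : Nat.card (nsmulAddMonoidHom p : F →+ F).ker ≤ hfin.toFinset.card := by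
    have : Nat.card (nsmulAddMonoidHom p : F →+ F).ker ≤ Nat.card (hfin.toFinset : Set X) := by
      apply Nat.card_le_card_of_injective
        (fun x : (nsmulAddMonoidHom p : F →+ F).ker =>
          (⟨(x.1 : X), by
            have h := x.2
            rw [AddMonoidHom.mem_ker] at h
            have h' : p • (x.1 : X) = 0 := congrArg (Subtype.val) h
            simp only [Set.Finite.coe_toFinset, Set.mem_ofPred_eq]
            exact ⟨hFM x.1.2, h'⟩⟩ : (hfin.toFinset : Set X)))
      intro a b hab
      have : (a.1 : X) = b.1 := by simpa using congrArg (fun z => (z.1 : X)) hab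
      exact Subtype.ext (Subtype.ext this)
    rwa [Nat.card_coe_set_eq (hfin.toFinset : Set X), Set.ncard_coe_finset] at this
  -- lower bound
  have hlb : t.card ≤ Nat.card (nsmulAddMonoidHom p : F.map π →+ F.map π).ker := by
    have : Nat.card (t : Set Y) ≤ Nat.card (nsmulAddMonoidHom p : F.map π →+ F.map π).ker := by
      apply Nat.card_le_card_of_injective
        (fun y : (t : Set Y) =>
          (⟨⟨y.1, ⟨l y.1, AddSubgroup.subset_closure ⟨y.1, y.2, rfl⟩, (hl y.1 y.2).2⟩⟩, by
            rw [AddMonoidHom.mem_ker]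
            apply Subtype.ext
            simpa using (ht y.2).2⟩ : (nsmulAddMonoidHom p : F.map π →+ F.map π).ker))
      intro a b hab
      have : (a.1 : Y) = b.1 := by simpa using congrArg (fun z => (z.1.1 : Y)) hab
      exact Subtype.ext this
    rwa [Nat.card_coe_set_eq (t : Set Y), Set.ncard_coe_finset] at this
  omega

/-- **DCC for `p`-primary groups with finite `p`-torsion.** -/
theorem dcc_of_finite_ptors {X : Type*} [AddCommGroup X] (M : AddSubgroup X) (p : ℕ)
    (hM : ∀ x ∈ M, ∃ e : ℕ, p ^ e • x = 0) (hp : 0 < p)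
    (hfin : {x : X | x ∈ M ∧ p • x = 0}.Finite)
    (N : ℕ → AddSubgroup X) (hanti : Antitone N) (hN : N 0 ≤ M) :
    ∃ i₀, ∀ i, i₀ ≤ i → N i = N i₀ := by
  classical
  set Ni : AddSubgroup X := ⨅ i, N i with hNi
  have hNile : ∀ i, Ni ≤ N i := fun i => iInf_le _ i
  set π : X →+ X ⧸ Ni := QuotientAddGroup.mk' Ni with hπ
  have hfin' : {y : X ⧸ Ni | y ∈ M.map π ∧ p • y = 0}.Finite := by
    apply finite_ptors_map π M _ p hfin
    intro x hx
    obtain ⟨e, he⟩ := hM x hx
    exact ⟨p ^ e, pow_pos hp e, he⟩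
  -- for every nonzero element of the finite set there is an index excluding it
  have hex : ∀ y : X ⧸ Ni, ∃ i : ℕ, y ≠ 0 → y ∉ (N i).map π := by
    intro y
    by_cases hy : y = 0
    · exact ⟨0, fun h => absurd hy h⟩
    · obtain ⟨x, rfl⟩ := QuotientAddGroup.mk'_surjective Ni y
      have hx : x ∉ Ni := by
        intro hx
        exact hy ((QuotientAddGroup.eq_zero_iff x).2 hx)
      rw [hNi, AddSubgroup.mem_iInf] at hx
      push Not at hx
      obtain ⟨i, hi⟩ := hx
      refine ⟨i, fun _ hmem => hi ?_⟩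
      obtain ⟨x', hx', hxx'⟩ := hmem
      have h1 : -x' + x ∈ Ni := QuotientAddGroup.eq.1 hxx'
      have h2 : x = x' + (-x' + x) := by abel
      rw [h2]
      exact (N i).add_mem hx' (hNile i h1)
  choose idx hidx using hex
  set i₀ : ℕ := hfin'.toFinset.sup idx with hi₀
  -- claim: N i₀ = Ni
  have hclaim : N i₀ ≤ Ni := by
    intro a ha
    by_contra hna
    have haM : a ∈ M := hN (hanti (Nat.zero_le _) ha)
    have hexe : ∃ e : ℕ, p ^ e • a ∈ Ni := by
      obtain ⟨e, he⟩ := hM a haM
      exact ⟨e, by rw [he]; exact Ni.zero_mem⟩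
    set e := Nat.find hexe with he
    have he1 : p ^ e • a ∈ Ni := Nat.find_spec hexe
    have he0 : e ≠ 0 := by
      intro h0
      rw [h0] at he1
      exact hna (by simpa using he1)
    obtain ⟨e', hee'⟩ := Nat.exists_eq_succ_of_ne_zero he0
    have he2 : p ^ e' • a ∉ Ni := Nat.find_min hexe (by omega)
    have hmem : π (p ^ e' • a) ∈ {y : X ⧸ Ni | y ∈ M.map π ∧ p • y = 0} := by
      refine ⟨⟨p ^ e' • a, M.nsmul_mem haM _, rfl⟩, ?_⟩
      rw [← map_nsmul, ← mul_nsmul']
      have : p * p ^ e' = p ^ e := by rw [hee', Nat.succ_eq_add_one, pow_succ]; ring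
      rw [this]
      exact (QuotientAddGroup.eq_zero_iff _).2 he1
    have hne : π (p ^ e' • a) ≠ 0 := by
      intro h0
      exact he2 ((QuotientAddGroup.eq_zero_iff _).1 h0)
    apply hidx _ hne
    refine ⟨p ^ e' • a, ?_, rfl⟩
    apply hanti _ ((N i₀).nsmul_mem ha _)
    rw [hi₀]
    exact Finset.le_sup (f := idx) (hfin'.mem_toFinset.2 hmem)
  refine ⟨i₀, fun i hi => le_antisymm (hanti hi) (hclaim.trans (hNile i))⟩

end Pool.Agent.H72
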