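import Mathlib
import Pool.Agent.H72.Alg

set_option autoImplicit false

namespace Pool.Agent.H72

/-- `X` meets only finitely many cosets of `W`. -/
def FinMod {G : Type*} [AddCommGroup G] (X : Set G) (W : AddSubgroup G) : Prop :=
  ((QuotientAddGroup.mk : G → G ⧸ W) '' X).Finite

/-- derived sets -/
def Der {G : Type*} [AddCommGroup G] (W : ℕ → AddSubgroup G) (A : ℕ → Set G) (k : ℕ) : Set G :=
  {g | ∀ l, k ≤ l → ∃ h ∈ A l, h - g ∈ W k}

variable {G : Type*} [AddCommGroup G]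

theorem der_anti (W : ℕ → AddSubgroup G) (hanti : Antitone W) (A : ℕ → Set G)
    (hA : Antitone A) : Antitone (Der W A) := by
  intro k k' h g hg l hl
  obtain ⟨x, hx, hxg⟩ := hg (max l k') (le_max_right _ _)
  exact ⟨x, hA (le_max_left _ _) hx, hanti h hxg⟩

/-- The derived sequence of a sequence of subgroups. -/
def DerS (W S : ℕ → AddSubgroup G) (k : ℕ) : AddSubgroup G where
  carrier := Der W (fun l => (S l : Set G)) k
  zero_mem' := fun l _ => ⟨0, (S l).zero_mem, by simp⟩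
  add_mem' := by
    intro a b ha hb l hl
    obtain ⟨x, hx, hxa⟩ := ha l hl
    obtain ⟨y, hy, hyb⟩ := hb l hl
    refine ⟨x + y, (S l).add_mem hx hy, ?_⟩
    have : x + y - (a + b) = (x - a) + (y - b) := by abel
    rw [this]
    exact (W k).add_mem hxa hyb
  neg_mem' := by
    intro a ha l hl
    obtain ⟨x, hx, hxa⟩ := ha l hl
    refine ⟨-x, (S l).neg_mem hx, ?_⟩
    have : -x - -a = -(x - a) := by abel
    rw [this]
    exact (W k).neg_mem hxa

theorem mem_DerS {W S : ℕ → AddSubgroup G} {k : ℕ} {g : G} :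
    g ∈ DerS W S k ↔ ∀ l, k ≤ l → ∃ h ∈ S l, h - g ∈ W k := Iff.rfl

theorem derS_anti (W S : ℕ → AddSubgroup G) (hanti : Antitone W) (hS : Antitone S) :
    Antitone (DerS W S) := by
  intro k k' h g hg
  exact der_anti W hanti (fun l => (S l : Set G)) (fun a b hab => hS hab) h hg

/-- Stabilisation: for a decreasing sequence of cosets of `p`-primary (modulo `W l`) subgroups of
`W l₀`, where `W l₀` has finite `p`-torsion modulo `W l`. -/
theorem stab (W : ℕ → AddSubgroup G) (p : ℕ) (hp : 0 < p) (l₀ : ℕ)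
    (hfin : ∀ k, FinMod {u : G | u ∈ W l₀ ∧ p • u ∈ W k} (W k))
    (F : ℕ → Set G) (N : ℕ → AddSubgroup G) (hN : Antitone N)
    (hFne : ∀ l, l₀ ≤ l → (F l).Nonempty) (hFanti : ∀ l l', l₀ ≤ l → l ≤ l' → F l' ⊆ F l)
    (hF1 : ∀ l, l₀ ≤ l → ∀ v ∈ F l, ∀ v' ∈ F l, v - v' ∈ N l)
    (hF2 : ∀ l, l₀ ≤ l → ∀ v ∈ F l, ∀ n ∈ N l, v + n ∈ F l)
    (hNW : ∀ l, N l ≤ W l₀) (hNp : ∀ l, ∀ u ∈ N l, ∃ e : ℕ, p ^ e • u ∈ W l)
    (l : ℕ) (hl : l₀ ≤ l) :
    ∃ l₁, l ≤ l₁ ∧ ∀ v ∈ F l₁, ∀ l', l ≤ l' → ∃ v' ∈ F l', v' - v ∈ W l := by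
  set π : G →+ G ⧸ W l := QuotientAddGroup.mk' (W l) with hπ
  have hπ0 : ∀ g : G, π g = 0 ↔ g ∈ W l := fun g => QuotientAddGroup.eq_zero_iff g
  -- the big p-primary group
  let M : AddSubgroup (G ⧸ W l) :=
    { carrier := {x | x ∈ (W l₀).map π ∧ ∃ e : ℕ, p ^ e • x = 0}
      zero_mem' := ⟨AddSubgroup.zero_mem _, 0, by simp⟩
      add_mem' := by
        rintro a b ⟨ha, e, he⟩ ⟨hb, f, hf⟩
        refine ⟨AddSubgroup.add_mem _ ha hb, e + f, ?_⟩
        rw [nsmul_add]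
        have h1 : p ^ (e + f) • a = 0 := by
          rw [pow_add, mul_comm (p ^ e), mul_nsmul', he, nsmul_zero]
        have h2 : p ^ (e + f) • b = 0 := by
          rw [pow_add, mul_nsmul', hf, nsmul_zero]
        rw [h1, h2, add_zero]
      neg_mem' := by
        rintro a ⟨ha, e, he⟩
        exact ⟨AddSubgroup.neg_mem _ ha, e, by rw [smul_neg, he, neg_zero]⟩ }
  have hfinM : {x : G ⧸ W l | x ∈ M ∧ p • x = 0}.Finite := by
    refine (hfin l).subset ?_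
    rintro x ⟨⟨⟨u, hu, rfl⟩, -⟩, hpx⟩
    refine ⟨u, ⟨hu, ?_⟩, rfl⟩
    rw [← hπ0, map_nsmul]
    exact hpx
  have hanti' : Antitone (fun i => (N (l + i)).map π) := by
    intro i j hij
    exact AddSubgroup.map_mono (hN (by omega))
  have hN0 : (N (l + 0)).map π ≤ M := by
    rintro x ⟨u, hu, rfl⟩
    refine ⟨⟨u, hNW _ hu, rfl⟩, ?_⟩
    obtain ⟨e, he⟩ := hNp _ u hu
    exact ⟨e, by rw [← map_nsmul]; exact (hπ0 _).2 he⟩
  obtain ⟨i₀, hi₀⟩ := dcc_of_finite_ptors M p (fun x hx => hx.2) hp hfinM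
    (fun i => (N (l + i)).map π) hanti' hN0
  refine ⟨l + i₀, by omega, fun v hv l' hl' => ?_⟩
  by_cases hcase : l' ≤ l + i₀
  · exact ⟨v, hFanti l' (l + i₀) (by omega) hcase hv, by simp⟩
  · push Not at hcase
    obtain ⟨v'', hv''⟩ := hFne l' (by omega)
    have hv2 : v'' ∈ F (l + i₀) := hFanti (l + i₀) l' (by omega) hcase.le hv''
    have hd : v - v'' ∈ N (l + i₀) := hF1 _ (by omega) v hv v'' hv2
    have heq := hi₀ (l' - l) (by omega)
    have hmem : π (v - v'') ∈ (N (l + (l' - l))).map π := by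
      have : π (v - v'') ∈ (N (l + i₀)).map π := ⟨_, hd, rfl⟩
      rw [← heq] at this
      exact this
    have hl'' : l + (l' - l) = l' := by omega
    rw [hl''] at hmem
    obtain ⟨n, hn, hnv⟩ := hmem
    refine ⟨v'' + n, hF2 l' (by omega) v'' hv'' n hn, ?_⟩
    rw [← hπ0]
    have : v'' + n - v = n - (v - v'') := by abel
    rw [this, map_sub, hnv, sub_self]

/-- If `n • s ∈ Q`, and all multiples of `s` which are prime-power torsion modulo `Wk ≤ Q` lie in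
`Q`, then `s ∈ Q`. -/
theorem mem_of_primary (Wk Q : AddSubgroup G) (s : G) (n : ℕ) (hn : 0 < n)
    (hns : n • s ∈ Wk)
    (H : ∀ p : ℕ, p.Prime → ∀ c a : ℕ, p ^ a • (c • s) ∈ Wk → c • s ∈ Q) : s ∈ Q := by
  set o := addOrderOf (QuotientAddGroup.mk' Q s) with ho
  have h0 : ∀ g : G, QuotientAddGroup.mk' Q g = 0 ↔ g ∈ Q := fun g => QuotientAddGroup.eq_zero_iff g
  have hdvd : ∀ m : ℕ, o ∣ m ↔ m • s ∈ Q := by
    intro m
    rw [ho, addOrderOf_dvd_iff_nsmul_eq_zero, ← map_nsmul, h0]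
  by_cases h1 : o = 1
  · have := (hdvd 1).1 (by rw [h1])
    simpa using this
  · exfalso
    obtain ⟨p, hp, hpo⟩ := Nat.exists_prime_and_dvd h1
    obtain ⟨a, n', hn', hnn⟩ := Nat.exists_eq_pow_mul_and_not_dvd hn.ne' p hp.one_lt.ne'
    have h2 : n' • s ∈ Q := by
      apply H p hp n' a
      rw [← mul_nsmul', ← hnn]
      exact hns
    have h3 : o ∣ n' := (hdvd n').2 h2
    exact hn' (hpo.trans h3)

/-- primary part modulo a subgroup -/
theorem prim_part (p : ℕ) (hp : p.Prime) (W₁ W₂ : AddSubgroup G) (u t : G) (n : ℕ) (hn : 0 < n)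
    (hnu : n • u ∈ W₁) (a : ℕ) (ht : p ^ a • t ∈ W₂) (hut : u - t ∈ W₂) :
    ∃ z : ℤ, z • u - t ∈ W₂ ∧ ∃ e : ℕ, p ^ e • (z • u) ∈ W₁ := by
  obtain ⟨b, n', hn', hnn⟩ := Nat.exists_eq_pow_mul_and_not_dvd hn.ne' p hp.one_lt.ne'
  have hcop : Nat.Coprime (p ^ a) n' := Nat.Coprime.pow_left a ((Nat.Prime.coprime_iff_not_dvd hp).2 hn')
  obtain ⟨x, y, hxy⟩ := Nat.isCoprime_iff_coprime.2 hcop
  refine ⟨y * n', ?_, b, ?_⟩
  · have h1 : (y * (n' : ℤ)) • u - t = (y * (n' : ℤ)) • (u - t) - x • (p ^ a • t) := by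
      have h2 : (t : G) = (x * ((p ^ a : ℕ) : ℤ) + y * (n' : ℤ)) • t := by rw [hxy, one_zsmul]
      have h3 : x • (p ^ a • t) = (x * ((p ^ a : ℕ) : ℤ)) • t := by
        rw [mul_smul, natCast_zsmul]
      rw [h3]
      conv_lhs => rw [h2]
      rw [add_zsmul, zsmul_sub]
      abel
    rw [h1]
    exact W₂.sub_mem (W₂.zsmul_mem hut _) (W₂.zsmul_mem ht _)
  · have h1 : p ^ b • ((y * (n' : ℤ)) • u) = y • (n • u) := by
      rw [← natCast_zsmul, ← natCast_zsmul, ← mul_smul, ← mul_smul, hnn]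
      congr 1
      push_cast
      ring
    rw [h1]
    exact W₁.zsmul_mem hnu _

/-- Two-step Mittag-Leffler. -/
theorem ml (W : ℕ → AddSubgroup G) (hanti : Antitone W)
    (hlim : ∀ g : ℕ → G, (∀ n, g (n + 1) - g n ∈ W n) → ∃ a, ∀ n, a - g n ∈ W n)
    (htors : ∀ g ∈ W 0, ∀ k, ∃ n : ℕ, 0 < n ∧ n • g ∈ W k)
    (hfin : ∀ p : ℕ, p.Prime → ∃ m, ∀ k, FinMod {u : G | u ∈ W m ∧ p • u ∈ W k} (W k))
    (S : ℕ → AddSubgroup G) (hS : Antitone S) (hWS : ∀ k, W k ≤ S k) (hS0 : ∀ k, S k ≤ W 0)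
    (k : ℕ) (s : G) (hs : s ∈ DerS W (fun l => DerS W S l) k) : ∃ t ∈ ⨅ l, S l, s - t ∈ W k := by
  have hW0 : ∀ k, W k ≤ W 0 := fun k => hanti (Nat.zero_le k)
  have hD0 : ∀ l, DerS W S l ≤ W 0 := by
    intro l g hg
    obtain ⟨u, hu, hug⟩ := hg l le_rfl
    have : g = u - (u - g) := by abel
    rw [this]
    exact (W 0).sub_mem (hS0 l hu) (hW0 l hug)
  have hs0 : s ∈ W 0 := by
    obtain ⟨u, hu, hug⟩ := hs k le_rfl
    have : s = u - (u - s) := by abel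
    rw [this]
    exact (W 0).sub_mem (hD0 k hu) (hW0 k hug)
  suffices h : s ∈ (⨅ l, S l) ⊔ W k by
    obtain ⟨y, hy, z, hz, hyz⟩ := AddSubgroup.mem_sup.1 h
    exact ⟨y, hy, by rw [← hyz]; simpa using hz⟩
  obtain ⟨n, hn, hns⟩ := htors s hs0 k
  apply mem_of_primary (W k) _ s n hn hns
  intro p hp c a hpa
  set s' := c • s with hs'
  have hs'mem : s' ∈ DerS W (fun l => DerS W S l) k := AddSubgroup.nsmul_mem _ hs c
  obtain ⟨m, hm⟩ := hfin p hp
  set l₀ := max k m with hl₀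
  have hfin₀ : ∀ k', FinMod {u : G | u ∈ W l₀ ∧ p • u ∈ W k'} (W k') := by
    intro k'
    refine Set.Finite.subset (hm k') (Set.image_mono ?_)
    rintro u ⟨hu, hpu⟩
    exact ⟨hanti (le_max_right k m) hu, hpu⟩
  obtain ⟨t₀, ht₀, hts₀⟩ := hs'mem l₀ (le_max_left _ _)
  obtain ⟨n₀, hn₀, hnt₀⟩ := htors t₀ (hD0 _ ht₀) l₀
  obtain ⟨z, hz1, b, hb⟩ := prim_part p hp (W l₀) (W k) t₀ s' n₀ hn₀ hnt₀ a hpa hts₀
  set t := z • t₀ with ht
  have htD : t ∈ DerS W S l₀ := AddSubgroup.zsmul_mem _ ht₀ z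
  -- the cosets
  let F : ℕ → Set G := fun l => {u | u ∈ S l ∧ u - t ∈ W l₀ ∧ ∃ e : ℕ, p ^ e • u ∈ W l}
  let N : ℕ → AddSubgroup G := fun l =>
    { carrier := {u | u ∈ S l ∧ u ∈ W l₀ ∧ ∃ e : ℕ, p ^ e • u ∈ W l}
      zero_mem' := ⟨(S l).zero_mem, (W l₀).zero_mem, 0, by simp⟩
      add_mem' := by
        rintro a b ⟨ha1, ha2, e, he⟩ ⟨hb1, hb2, f, hf⟩
        refine ⟨(S l).add_mem ha1 hb1, (W l₀).add_mem ha2 hb2, e + f, ?_⟩
        rw [nsmul_add]
        refine (W l).add_mem ?_ ?_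
        · rw [pow_add, mul_comm (p ^ e), mul_nsmul']
          exact (W l).nsmul_mem he _
        · rw [pow_add, mul_nsmul']
          exact (W l).nsmul_mem hf _
      neg_mem' := by
        rintro a ⟨ha1, ha2, e, he⟩
        refine ⟨(S l).neg_mem ha1, (W l₀).neg_mem ha2, e, ?_⟩
        rw [smul_neg]
        exact (W l).neg_mem he }
  have hF1 : ∀ l, l₀ ≤ l → ∀ v ∈ F l, ∀ v' ∈ F l, v - v' ∈ N l := by
    rintro l hl v ⟨h1, h2, e, he⟩ v' ⟨h1', h2', e', he'⟩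
    refine ⟨(S l).sub_mem h1 h1', ?_, e + e', ?_⟩
    · have : v - v' = (v - t) - (v' - t) := by abel
      rw [this]
      exact (W l₀).sub_mem h2 h2'
    · rw [smul_sub]
      refine (W l).sub_mem ?_ ?_
      · rw [pow_add, mul_comm (p ^ e), mul_nsmul']
        exact (W l).nsmul_mem he _
      · rw [pow_add, mul_nsmul']
        exact (W l).nsmul_mem he' _
  have hF2 : ∀ l, l₀ ≤ l → ∀ v ∈ F l, ∀ n ∈ N l, v + n ∈ F l := by
    rintro l hl v ⟨h1, h2, e, he⟩ v' ⟨h1', h2', e', he'⟩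
    refine ⟨(S l).add_mem h1 h1', ?_, e + e', ?_⟩
    · have : v + v' - t = (v - t) + v' := by abel
      rw [this]
      exact (W l₀).add_mem h2 h2'
    · rw [nsmul_add]
      refine (W l).add_mem ?_ ?_
      · rw [pow_add, mul_comm (p ^ e), mul_nsmul']
        exact (W l).nsmul_mem he _
      · rw [pow_add, mul_nsmul']
        exact (W l).nsmul_mem he' _
  have hNanti : Antitone N := by
    intro l l' hll u hu
    obtain ⟨h1, h2, e, he⟩ := hu
    exact ⟨hS hll h1, h2, e, hanti hll he⟩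
  have hFanti : ∀ l l', l₀ ≤ l → l ≤ l' → F l' ⊆ F l := by
    rintro l l' - hll u ⟨h1, h2, e, he⟩
    exact ⟨hS hll h1, h2, e, hanti hll he⟩
  have hFne : ∀ l, l₀ ≤ l → (F l).Nonempty := by
    intro l hl
    obtain ⟨u, hu, hut⟩ := htD l hl
    obtain ⟨n₁, hn₁, hnu⟩ := htors u (hS0 l hu) l
    obtain ⟨z', hz', e, he⟩ := prim_part p hp (W l) (W l₀) u t n₁ hn₁ hnu b hb hut
    exact ⟨z' • u, (S l).zsmul_mem hu _, hz', e, he⟩
  have hstab := stab W p hp.pos l₀ hfin₀ F N hNanti hFne hFanti hF1 hF2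
    (fun l u hu => hu.2.1) (fun l u hu => hu.2.2)
  -- stable parts
  let Fs : ℕ → Set G := fun l => {v | ∀ l', l ≤ l' → ∃ v' ∈ F l', v' - v ∈ W l}
  have hstart : ∃ v, v ∈ Fs l₀ := by
    obtain ⟨l₁, hl₁, h⟩ := hstab l₀ le_rfl
    obtain ⟨v, hv⟩ := hFne l₁ hl₁
    exact ⟨v, h v hv⟩
  have hstep : ∀ l, l₀ ≤ l → ∀ u, ∃ v, u ∈ Fs l → (v ∈ Fs (l + 1) ∧ v - u ∈ W l) := by
    intro l hl u
    by_cases hu : u ∈ Fs l
    · obtain ⟨l₁, hl₁, h⟩ := hstab (l + 1) (by omega)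
      obtain ⟨v, hv, hvu⟩ := hu l₁ (by omega)
      exact ⟨v, fun _ => ⟨h v hv, hvu⟩⟩
    · exact ⟨0, fun h => absurd h hu⟩
  obtain ⟨v₀, hv₀⟩ := hstart
  have hstep' : ∀ i : ℕ, ∀ u, ∃ v, u ∈ Fs (l₀ + i) → (v ∈ Fs (l₀ + i + 1) ∧ v - u ∈ W (l₀ + i)) :=
    fun i u => hstep (l₀ + i) (by omega) u
  choose nxt hnxt using hstep'
  let us : ℕ → G := fun i => Nat.rec v₀ (fun i u => nxt i u) i
  have hus : ∀ i, us i ∈ Fs (l₀ + i) := by
    intro i
    induction i with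
    | zero => exact hv₀
    | succ i ih => exact (hnxt i (us i) ih).1
  have hus2 : ∀ i, us (i + 1) - us i ∈ W (l₀ + i) := fun i => (hnxt i (us i) (hus i)).2
  obtain ⟨a', ha'⟩ := hlim (fun n => us (n - l₀)) (by
    intro n
    by_cases hn : n < l₀
    · have h1 : n + 1 - l₀ = 0 := by omega
      have h2 : n - l₀ = 0 := by omega
      simp only [h1, h2, sub_self]
      exact (W n).zero_mem
    · have h1 : n + 1 - l₀ = (n - l₀) + 1 := by omega
      have h2 : l₀ + (n - l₀) = n := by omega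
      have := hus2 (n - l₀)
      rw [h2] at this
      simp only [h1]
      exact this)
  have haF : ∀ l, l₀ ≤ l → a' ∈ S l ∧ a' - t ∈ W l₀ := by
    intro l hl
    have h1 := ha' l
    have h2 : us (l - l₀) ∈ Fs l := by
      have := hus (l - l₀)
      have h3 : l₀ + (l - l₀) = l := by omega
      rwa [h3] at this
    obtain ⟨v, ⟨hv1, hv2, -⟩, hvu⟩ := h2 l le_rfl
    have h4 : a' - v ∈ W l := by
      have : a' - v = (a' - us (l - l₀)) - (v - us (l - l₀)) := by abel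
      rw [this]
      exact (W l).sub_mem h1 hvu
    constructor
    · have : a' = v + (a' - v) := by abel
      rw [this]
      exact (S l).add_mem hv1 (hWS l h4)
    · have : a' - t = (a' - v) + (v - t) := by abel
      rw [this]
      exact (W l₀).add_mem (hanti hl h4) hv2
  apply AddSubgroup.mem_sup.2
  refine ⟨a', ?_, s' - a', ?_, by abel⟩
  · rw [AddSubgroup.mem_iInf]
    intro l
    exact hS (le_max_left l l₀) (haF (max l l₀) (le_max_right _ _)).1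
  · have h1 := (haF l₀ le_rfl).2
    have : s' - a' = -(t - s') - (a' - t) := by abel
    rw [this]
    exact (W k).sub_mem ((W k).neg_mem hz1) (hanti (le_max_left k m) h1)

/-- **Core theorem**: a decreasing sequence of cosets with nonempty second derived sets has a common
point. -/
theorem core (W : ℕ → AddSubgroup G) (hanti : Antitone W)
    (hlim : ∀ g : ℕ → G, (∀ n, g (n + 1) - g n ∈ W n) → ∃ a, ∀ n, a - g n ∈ W n)
    (htors : ∀ g ∈ W 0, ∀ k, ∃ n : ℕ, 0 < n ∧ n • g ∈ W k)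
    (hfin : ∀ p : ℕ, p.Prime → ∃ m, ∀ k, FinMod {u : G | u ∈ W m ∧ p • u ∈ W k} (W k))
    (S : ℕ → AddSubgroup G) (hS : Antitone S) (hWS : ∀ k, W k ≤ S k) (hS0 : ∀ k, S k ≤ W 0)
    (A : ℕ → Set G) (hA : Antitone A) (hA1 : ∀ k, ∀ g ∈ A k, ∀ h ∈ A k, g - h ∈ S k)
    (hA2 : ∀ k, ∀ g ∈ A k, ∀ s ∈ S k, g + s ∈ A k)
    (hne : ∀ k, (Der W (Der W A) k).Nonempty) : ∃ a, ∀ k, a ∈ A k := by
  have hdA : Antitone (Der W A) := der_anti W hanti A hA
  have hddA : Antitone (Der W (Der W A)) := der_anti W hanti _ hdA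
  -- differences
  have hdiff1 : ∀ k, ∀ g ∈ Der W A k, ∀ h ∈ Der W A k, g - h ∈ DerS W S k := by
    intro k g hg h hh l hl
    obtain ⟨x, hx, hxg⟩ := hg l hl
    obtain ⟨y, hy, hyh⟩ := hh l hl
    refine ⟨x - y, hA1 l x hx y hy, ?_⟩
    have : x - y - (g - h) = (x - g) - (y - h) := by abel
    rw [this]
    exact (W k).sub_mem hxg hyh
  have hdiff2 : ∀ k, ∀ g ∈ Der W (Der W A) k, ∀ h ∈ Der W (Der W A) k,
      g - h ∈ DerS W (fun l => DerS W S l) k := by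
    intro k g hg h hh l hl
    obtain ⟨x, hx, hxg⟩ := hg l hl
    obtain ⟨y, hy, hyh⟩ := hh l hl
    refine ⟨x - y, hdiff1 l x hx y hy, ?_⟩
    have : x - y - (g - h) = (x - g) - (y - h) := by abel
    rw [this]
    exact (W k).sub_mem hxg hyh
  have hadd1 : ∀ k, ∀ g ∈ Der W A k, ∀ s ∈ ⨅ l, S l, g + s ∈ Der W A k := by
    intro k g hg s hs l hl
    obtain ⟨x, hx, hxg⟩ := hg l hl
    refine ⟨x + s, hA2 l x hx s (AddSubgroup.mem_iInf.1 hs l), ?_⟩
    have : x + s - (g + s) = x - g := by abel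
    rw [this]
    exact hxg
  have hadd2 : ∀ k, ∀ g ∈ Der W (Der W A) k, ∀ s ∈ ⨅ l, S l, g + s ∈ Der W (Der W A) k := by
    intro k g hg s hs l hl
    obtain ⟨x, hx, hxg⟩ := hg l hl
    refine ⟨x + s, hadd1 l x hx s hs, ?_⟩
    have : x + s - (g + s) = x - g := by abel
    rw [this]
    exact hxg
  have hstep : ∀ k : ℕ, ∀ a : G, ∃ a', a ∈ Der W (Der W A) k →
      (a' ∈ Der W (Der W A) (k + 1) ∧ a' - a ∈ W k) := by
    intro k a
    by_cases ha : a ∈ Der W (Der W A) k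
    · obtain ⟨c, hc⟩ := hne (k + 1)
      have hc' : c ∈ Der W (Der W A) k := hddA (Nat.le_succ k) hc
      obtain ⟨s, hs, hsw⟩ := ml W hanti hlim htors hfin S hS hWS hS0 k (a - c)
        (hdiff2 k a ha c hc')
      refine ⟨c + s, fun _ => ⟨hadd2 _ c hc s hs, ?_⟩⟩
      have : c + s - a = -(a - c - s) := by abel
      rw [this]
      exact (W k).neg_mem hsw
    · exact ⟨0, fun h => absurd h ha⟩
  choose nxt hnxt using hstep
  obtain ⟨a₀, ha₀⟩ := hne 0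
  let as : ℕ → G := fun i => Nat.rec a₀ (fun i u => nxt i u) i
  have has : ∀ i, as i ∈ Der W (Der W A) i := by
    intro i
    induction i with
    | zero => exact ha₀
    | succ i ih => exact (hnxt i (as i) ih).1
  obtain ⟨a, ha⟩ := hlim as (fun i => (hnxt i (as i) (has i)).2)
  refine ⟨a, fun k => ?_⟩
  obtain ⟨x, hx, hxa⟩ := has k k le_rfl
  obtain ⟨y, hy, hyx⟩ := hx k le_rfl
  have h1 : a - y ∈ W k := by
    have : a - y = (a - as k) - (x - as k) - (y - x) := by abel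
    rw [this]
    exact (W k).sub_mem ((W k).sub_mem (ha k) hxa) hyx
  have : a = y + (a - y) := by abel
  rw [this]
  exact hA2 k y hy _ (hWS k h1)

end Pool.Agent.H72
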