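import Mathlib
import Pool.Agent.H72.Core

set_option autoImplicit false

namespace Pool.Agent.H72

/-- Existence of a sequence by course-of-values recursion. -/
theorem exists_seq_strong {α : Type*} [Inhabited α] (P : ℕ → (ℕ → α) → α → Prop)
    (hcongr : ∀ t h h' a, (∀ s < t, h s = h' s) → P t h a → P t h' a)
    (H : ∀ t h, (∀ s < t, P s h (h s)) → ∃ a, P t h a) : ∃ f : ℕ → α, ∀ t, P t f (f t) := by
  classical
  let nw : ℕ → (ℕ → α) → α := fun t h => if hh : ∃ a, P t h a then hh.choose else default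
  let g : ℕ → (ℕ → α) := fun n => Nat.rec (fun _ => default) (fun t h => Function.update h t (nw t h)) n
  have hg : ∀ n, g (n + 1) = Function.update (g n) n (nw n (g n)) := fun n => rfl
  let f : ℕ → α := fun t => g (t + 1) t
  have hgf : ∀ n, ∀ s < n, g n s = f s := by
    intro n
    induction n with
    | zero => intro s hs; omega
    | succ n ih =>
      intro s hs
      by_cases hsn : s = n
      · rw [hsn]
      · rw [hg, Function.update_of_ne hsn]
        exact ih s (by omega)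
  refine ⟨f, fun t => ?_⟩
  induction t using Nat.strong_induction_on with
  | _ t ih =>
    have h1 : ∀ s < t, P s (g t) (g t s) := by
      intro s hs
      rw [hgf t s hs]
      apply hcongr s f (g t) (f s) _ (ih s hs)
      intro r hr
      rw [hgf t r (by omega)]
    have h2 : ∃ a, P t (g t) a := H t (g t) h1
    have h3 : P t (g t) (f t) := by
      have : f t = nw t (g t) := by
        show g (t + 1) t = _
        rw [hg, Function.update_self]
      rw [this]
      simp only [nw]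
      rw [dif_pos h2]
      exact h2.choose_spec
    apply hcongr t (g t) f (f t) _ h3
    intro s hs
    exact hgf t s hs

abbrev QZ : Type := AddCircle (1 : ℚ)

theorem QZ_torsion (x : QZ) : ∃ n : ℕ, 0 < n ∧ n • x = 0 := by
  induction x using QuotientAddGroup.induction_on with
  | H q =>
    refine ⟨q.den, q.den_pos, ?_⟩
    rw [← QuotientAddGroup.mk_nsmul, QuotientAddGroup.eq_zero_iff]
    rw [AddSubgroup.mem_zmultiples_iff]
    refine ⟨q.num, ?_⟩
    have := Rat.den_mul_eq_num q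
    rw [zsmul_eq_mul, mul_one, nsmul_eq_mul, this]

variable {G : Type} [AddCommGroup G]

/-- Key existence step for the biorthogonal system. -/
theorem exists_new (p : ℕ) (hp : p.Prime) (V W : AddSubgroup G) (hWV : W ≤ V)
    (hpV : ∀ v ∈ V, p • v ∈ W) (hinf : ¬ FinMod (V : Set G) W)
    (F : AddSubgroup G) (hF : F.FG) (hFt : ∀ x ∈ F, ∃ n : ℕ, 0 < n ∧ n • x ∈ W)
    {t : ℕ} (f : Fin t → (G →+ QZ)) : ∃ e ∈ V, (∀ i, f i e = 0) ∧ e ∉ F ⊔ W := by
  classical
  by_contra hcon
  push Not at hcon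
  apply hinf
  let Φ : G →+ (Fin t → QZ) := AddMonoidHom.mk' (fun g i => f i g) (by
    intro a b; funext i; simp)
  have hΦ : ∀ g i, Φ g i = f i g := fun _ _ => rfl
  set S : AddSubgroup (Fin t → QZ) := W.map Φ with hS
  let π : (Fin t → QZ) →+ (Fin t → QZ) ⧸ S := QuotientAddGroup.mk' S
  have hπ0 : ∀ x, π x = 0 ↔ x ∈ S := fun x => QuotientAddGroup.eq_zero_iff x
  have hfinpt : {x : Fin t → QZ | x ∈ V.map Φ ∧ p • x = 0}.Finite := by
    have h1 : {x : Fin t → QZ | ∀ i, x i ∈ {u : QZ | p • u = 0}}.Finite :=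
      Set.Finite.pi' (fun _ => AddCircle.finite_torsion (1 : ℚ) hp.pos)
    refine h1.subset ?_
    rintro x ⟨-, hx⟩ i
    exact congrFun hx i
  have hfinM : {y : (Fin t → QZ) ⧸ S | y ∈ (V.map Φ).map π ∧ p • y = 0}.Finite := by
    apply finite_ptors_map π (V.map Φ) _ p hfinpt
    intro x _
    choose n hn hnx using fun i => QZ_torsion (x i)
    refine ⟨∏ i, n i, Finset.prod_pos fun i _ => hn i, ?_⟩
    funext i
    rw [Pi.smul_apply, Pi.zero_apply, ← Finset.prod_erase_mul _ _ (Finset.mem_univ i), mul_nsmul',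
      hnx, nsmul_zero]
  -- the map on the quotient
  have hker : W ≤ (π.comp Φ).ker := by
    intro w hw
    show π (Φ w) = 0
    rw [hπ0]
    exact ⟨w, hw, rfl⟩
  let θ : G ⧸ W →+ (Fin t → QZ) ⧸ S := QuotientAddGroup.lift W (π.comp Φ) hker
  have hθ : ∀ g : G, θ (QuotientAddGroup.mk g) = π (Φ g) := fun g => rfl
  -- the finite group `F'`
  let F' : AddSubgroup (G ⧸ W) := F.map (QuotientAddGroup.mk' W)
  have hF'fin : (F' : Set (G ⧸ W)).Finite := by
    have h1 : F'.FG := by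
      obtain ⟨S', hS'⟩ := hF
      refine ⟨S'.image (QuotientAddGroup.mk' W), ?_⟩
      rw [Finset.coe_image, ← AddMonoidHom.map_closure, hS']
    have h2 : AddGroup.FG F' := (AddGroup.fg_iff_addSubgroup_fg F').2 h1
    have h3 : Finite F' := by
      apply AddCommGroup.finite_of_fg_isAddTorsion
      rintro ⟨_, x, hx, rfl⟩
      obtain ⟨n, hn, hnx⟩ := hFt x hx
      rw [isOfFinAddOrder_iff_nsmul_eq_zero]
      refine ⟨n, hn, ?_⟩
      apply Subtype.ext
      show n • (QuotientAddGroup.mk x : G ⧸ W) = 0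
      rw [← QuotientAddGroup.mk_nsmul]
      exact (QuotientAddGroup.eq_zero_iff _).2 hnx
    exact Set.toFinite _
  show ((QuotientAddGroup.mk : G → G ⧸ W) '' (V : Set G)).Finite
  apply Set.Finite.of_finite_fibers θ
  · refine hfinM.subset ?_
    rintro _ ⟨_, ⟨v, hv, rfl⟩, rfl⟩
    refine ⟨⟨Φ v, ⟨v, hv, rfl⟩, rfl⟩, ?_⟩
    rw [← map_nsmul, ← QuotientAddGroup.mk_nsmul, hθ, hπ0]
    exact ⟨p • v, hpV v hv, rfl⟩
  · rintro _ ⟨_, ⟨v₀, hv₀, rfl⟩, rfl⟩
    refine (hF'fin.image (fun z => (QuotientAddGroup.mk v₀ : G ⧸ W) + z)).subset ?_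
    rintro _ ⟨⟨v, hv, rfl⟩, hvv⟩
    refine ⟨QuotientAddGroup.mk (v - v₀), ?_, ?_⟩
    · have h1 : π (Φ (v - v₀)) = 0 := by
        rw [← hθ, QuotientAddGroup.mk_sub, map_sub]
        have : θ (QuotientAddGroup.mk v) = θ (QuotientAddGroup.mk v₀) := hvv
        rw [this, sub_self]
      rw [hπ0] at h1
      obtain ⟨w, hw, hwΦ⟩ := h1
      have h2 : v - v₀ - w ∈ F ⊔ W := by
        apply hcon
        · exact V.sub_mem (V.sub_mem hv hv₀) (hWV hw)
        · intro i
          have : Φ (v - v₀ - w) = 0 := by rw [map_sub, hwΦ, sub_self]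
          have := congrFun this i
          exact this
      have h3 : v - v₀ ∈ F ⊔ W := by
        have : v - v₀ = (v - v₀ - w) + w := by abel
        rw [this]
        exact (F ⊔ W).add_mem h2 (AddSubgroup.mem_sup_right hw)
      obtain ⟨x, hx, y, hy, hxy⟩ := AddSubgroup.mem_sup.1 h3
      refine ⟨x, hx, ?_⟩
      show (QuotientAddGroup.mk x : G ⧸ W) = QuotientAddGroup.mk (v - v₀)
      rw [QuotientAddGroup.eq, ← hxy]
      simpa using hy
    · show (QuotientAddGroup.mk v₀ : G ⧸ W) + QuotientAddGroup.mk (v - v₀) = QuotientAddGroup.mk v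
      rw [← QuotientAddGroup.mk_add]
      congr 1
      abel

/-- **Biorthogonal systems.** -/
theorem exists_biorth (W : ℕ → AddSubgroup G) (hanti : Antitone W)
    (htors : ∀ g ∈ W 0, ∀ k, ∃ n : ℕ, 0 < n ∧ n • g ∈ W k) (p : ℕ) (hp : p.Prime)
    (hinf : ∀ k, ¬ FinMod {u : G | u ∈ W k ∧ p • u ∈ W (k + 1)} (W (k + 1)))
    (lev : ℕ → ℕ) :
    ∃ (e : ℕ → G) (f : ℕ → (G →+ QZ)), (∀ t, e t ∈ W (lev t)) ∧ (∀ t, p • e t ∈ W (lev t + 1)) ∧
      (∀ t, ∀ w ∈ W (lev t + 1), f t w = 0) ∧ (∀ t, f t (e t) ≠ 0) ∧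
      (∀ s t, s ≠ t → f t (e s) = 0) := by
  classical
  let P : ℕ → (ℕ → G × (G →+ QZ)) → G × (G →+ QZ) → Prop := fun t h a =>
    a.1 ∈ W (lev t) ∧ p • a.1 ∈ W (lev t + 1) ∧ (∀ w ∈ W (lev t + 1), a.2 w = 0) ∧ a.2 a.1 ≠ 0 ∧
      (∀ s < t, (h s).2 a.1 = 0 ∧ a.2 (h s).1 = 0)
  have hcongr : ∀ t h h' a, (∀ s < t, h s = h' s) → P t h a → P t h' a := by
    rintro t h h' a hh ⟨h1, h2, h3, h4, h5⟩
    refine ⟨h1, h2, h3, h4, fun s hs => ?_⟩
    rw [← hh s hs]
    exact h5 s hs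
  have H : ∀ t h, (∀ s < t, P s h (h s)) → ∃ a, P t h a := by
    intro t h hh
    let V : AddSubgroup G :=
      { carrier := {u | u ∈ W (lev t) ∧ p • u ∈ W (lev t + 1)}
        zero_mem' := ⟨AddSubgroup.zero_mem _, by rw [nsmul_zero]; exact AddSubgroup.zero_mem _⟩
        add_mem' := by
          rintro a b ⟨ha, ha'⟩ ⟨hb, hb'⟩
          exact ⟨AddSubgroup.add_mem _ ha hb, by rw [nsmul_add]; exact AddSubgroup.add_mem _ ha' hb'⟩
        neg_mem' := by
          rintro a ⟨ha, ha'⟩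
          exact ⟨AddSubgroup.neg_mem _ ha, by rw [smul_neg]; exact AddSubgroup.neg_mem _ ha'⟩ }
    let F : AddSubgroup G := AddSubgroup.closure (Set.range (fun s : Fin t => (h s).1))
    have hFfg : F.FG := by
      refine ⟨(Set.finite_range (fun s : Fin t => (h s).1)).toFinset, ?_⟩
      simp [F]
    have hF0 : F ≤ W 0 := by
      rw [AddSubgroup.closure_le]
      rintro _ ⟨s, rfl⟩
      exact hanti (Nat.zero_le _) (hh s s.2).1
    obtain ⟨e, heV, hef, heF⟩ := exists_new p hp V (W (lev t + 1))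
      (by
        intro w hw
        exact ⟨hanti (Nat.le_succ _) hw, AddSubgroup.nsmul_mem _ hw _⟩)
      (fun v hv => hv.2) (hinf (lev t)) F hFfg
      (fun x hx => htors x (hF0 hx) _) (fun s : Fin t => (h s).2)
    -- the character
    have hne : (QuotientAddGroup.mk e : G ⧸ (F ⊔ W (lev t + 1))) ≠ 0 := by
      intro h0
      exact heF ((QuotientAddGroup.eq_zero_iff _).1 h0)
    obtain ⟨c, hc⟩ := CharacterModule.exists_character_apply_ne_zero_of_ne_zero hne
    let c' : (G ⧸ (F ⊔ W (lev t + 1))) →+ QZ := c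
    have hc' : c' (QuotientAddGroup.mk e) ≠ 0 := hc
    refine ⟨(e, c'.comp (QuotientAddGroup.mk' _)), heV.1, heV.2, ?_, hc', ?_⟩
    · intro w hw
      show c' (QuotientAddGroup.mk w) = 0
      have : (QuotientAddGroup.mk w : G ⧸ (F ⊔ W (lev t + 1))) = 0 :=
        (QuotientAddGroup.eq_zero_iff _).2 (AddSubgroup.mem_sup_right hw)
      rw [this, map_zero]
    · intro s hs
      refine ⟨hef ⟨s, hs⟩, ?_⟩
      show c' (QuotientAddGroup.mk (h s).1) = 0
      have : (QuotientAddGroup.mk (h s).1 : G ⧸ (F ⊔ W (lev t + 1))) = 0 :=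
        (QuotientAddGroup.eq_zero_iff _).2 (AddSubgroup.mem_sup_left
          (AddSubgroup.subset_closure ⟨⟨s, hs⟩, rfl⟩))
      rw [this, map_zero]
  have hinh : Inhabited (G × (G →+ QZ)) := ⟨(0, 0)⟩
  obtain ⟨a, ha⟩ := exists_seq_strong P hcongr H
  refine ⟨fun t => (a t).1, fun t => (a t).2, fun t => (ha t).1, fun t => (ha t).2.1,
    fun t => (ha t).2.2.1, fun t => (ha t).2.2.2.1, fun s t hst => ?_⟩
  rcases lt_or_gt_of_ne hst with h | h
  · exact ((ha t).2.2.2.2 s h).2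
  · exact ((ha s).2.2.2.2 t h).1

end Pool.Agent.H72
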