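import Mathlib

set_option autoImplicit false

namespace Pool.Agent.H72

open Topology Filter

/-- telescoping -/
theorem sub_mem_of_le {G : Type*} [AddCommGroup G] (W : ℕ → AddSubgroup G) (hanti : Antitone W)
    (g : ℕ → G) (hg : ∀ n, g (n + 1) - g n ∈ W n) {n m : ℕ} (h : n ≤ m) : g m - g n ∈ W n := by
  induction m, h using Nat.le_induction with
  | base => simp
  | succ m hnm ih =>
    have : g (m + 1) - g n = (g (m + 1) - g m) + (g m - g n) := by abel
    rw [this]
    exact (W n).add_mem (hanti hnm (hg m)) ih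

/-- **Completeness.** In a Polish abelian group every coherent sequence of cosets of a base of open
subgroups has a common point. -/
theorem exists_limit {G : Type*} [AddCommGroup G] [TopologicalSpace G] [IsTopologicalAddGroup G]
    [PolishSpace G] (W : ℕ → AddSubgroup G) (hopen : ∀ n, IsOpen (W n : Set G))
    (hanti : Antitone W) (hbase : ∀ U ∈ 𝓝 (0 : G), ∃ n, (W n : Set G) ⊆ U)
    (g : ℕ → G) (hg : ∀ n, g (n + 1) - g n ∈ W n) : ∃ a, ∀ n, a - g n ∈ W n := by
  let _ := TopologicalSpace.upgradeIsCompletelyMetrizable G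
  have hg' : ∀ {n m : ℕ}, n ≤ m → g m - g n ∈ W n := fun h => sub_mem_of_le W hanti g hg h
  -- small cosets
  have hsmall : ∀ (z : G) (ε : ℝ), 0 < ε → ∀ k : ℕ, ∃ k', k ≤ k' ∧ ∀ u ∈ W k', dist (z + u) z < ε := by
    intro z ε hε k
    have h1 : (fun u : G => z + u) ⁻¹' (Metric.ball z ε) ∈ 𝓝 (0 : G) := by
      apply (continuous_const.add continuous_id).continuousAt.preimage_mem_nhds
      simpa using Metric.ball_mem_nhds z hε
    obtain ⟨k₁, hk₁⟩ := hbase _ h1
    refine ⟨max k k₁, le_max_left _ _, fun u hu => ?_⟩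
    exact hk₁ (hanti (le_max_right k k₁) hu)
  have step : ∀ (n : ℕ) (s : G × ℕ), ∃ s' : G × ℕ, s.2 < s'.2 ∧ s'.1 - s.1 ∈ W s.2 ∧
      (∀ u ∈ W s'.2, dist (s'.1 + u) s'.1 < (1 / 2 : ℝ) ^ n) ∧
      (∀ u ∈ W s'.2, dist (s'.1 + g s'.2 + u) (s'.1 + g s'.2) < (1 / 2 : ℝ) ^ n) := by
    rintro n ⟨c, k⟩
    have hε : (0 : ℝ) < (1 / 2) ^ n := by positivity
    obtain ⟨k₁, hk₁, h₁⟩ := hsmall (c + g k) ((1 / 2) ^ n / 2) (by positivity) (k + 1)
    obtain ⟨k₂, hk₂, h₂⟩ := hsmall (c + g k - g k₁) ((1 / 2) ^ n) hε k₁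
    refine ⟨(c + g k - g k₁, k₂), ?_, ?_, h₂, ?_⟩
    · show k < k₂
      omega
    · show c + g k - g k₁ - c ∈ W k
      have : c + g k - g k₁ - c = -(g k₁ - g k) := by abel
      rw [this]
      exact (W k).neg_mem (hg' (by omega))
    · intro u hu
      show dist (c + g k - g k₁ + g k₂ + u) (c + g k - g k₁ + g k₂) < _
      have hd : g k₂ - g k₁ ∈ W k₁ := hg' hk₂
      have e1 : c + g k - g k₁ + g k₂ + u = (c + g k) + ((g k₂ - g k₁) + u) := by abel
      have e2 : c + g k - g k₁ + g k₂ = (c + g k) + (g k₂ - g k₁) := by abel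
      rw [e1, e2]
      have i1 := h₁ _ ((W k₁).add_mem hd (hanti hk₂ hu))
      have i2 := h₁ _ hd
      have := dist_triangle_right ((c + g k) + ((g k₂ - g k₁) + u)) ((c + g k) + (g k₂ - g k₁)) (c + g k)
      linarith
  choose nxt hn1 hn2 hn3 hn4 using step
  let s : ℕ → G × ℕ := fun n => Nat.rec ((0 : G), 0) (fun n s => nxt n s) n
  have hs : ∀ n, s (n + 1) = nxt n (s n) := fun n => rfl
  have hk : StrictMono (fun n => (s n).2) := by
    apply strictMono_nat_of_lt_succ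
    intro n
    show (s n).2 < (s (n + 1)).2
    rw [hs]
    exact hn1 _ _
  have hc : ∀ n m, n ≤ m → (s m).1 - (s n).1 ∈ W (s n).2 := by
    intro n m h
    induction m, h using Nat.le_induction with
    | base => simp
    | succ m hnm ih =>
      have e : (s (m + 1)).1 - (s n).1 = ((s (m + 1)).1 - (s m).1) + ((s m).1 - (s n).1) := by abel
      rw [e]
      refine (W _).add_mem ?_ ih
      have h1 : (s (m + 1)).1 - (s m).1 ∈ W (s m).2 := by
        rw [hs]; exact hn2 _ _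
      exact hanti (hk.monotone hnm) h1
  have hb0 : Tendsto (fun n : ℕ => 2 * (1 / 2 : ℝ) ^ n) atTop (𝓝 0) := by
    have := (tendsto_pow_atTop_nhds_zero_of_lt_one (r := (1 / 2 : ℝ)) (by norm_num) (by norm_num)).const_mul 2
    simpa using this
  have hdc : ∀ n m, n ≤ m → dist (s (m + 1)).1 (s (n + 1)).1 < (1 / 2 : ℝ) ^ n := by
    intro n m h
    have h1 := hc (n + 1) (m + 1) (by omega)
    have h2 : (s (m + 1)).1 = (s (n + 1)).1 + ((s (m + 1)).1 - (s (n + 1)).1) := by abel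
    rw [h2]
    rw [hs n] at h1 ⊢
    exact hn3 n (s n) _ h1
  have hdd : ∀ n m, n ≤ m → dist ((s (m + 1)).1 + g (s (m + 1)).2) ((s (n + 1)).1 + g (s (n + 1)).2)
      < (1 / 2 : ℝ) ^ n := by
    intro n m h
    have h1 := hc (n + 1) (m + 1) (by omega)
    have h1' : g (s (m + 1)).2 - g (s (n + 1)).2 ∈ W (s (n + 1)).2 :=
      hg' (hk.monotone (show n + 1 ≤ m + 1 by omega))
    have h2 : (s (m + 1)).1 + g (s (m + 1)).2 = ((s (n + 1)).1 + g (s (n + 1)).2) +
      (((s (m + 1)).1 - (s (n + 1)).1) + (g (s (m + 1)).2 - g (s (n + 1)).2)) := by abel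
    rw [h2]
    have h3 := (W _).add_mem h1 h1'
    rw [hs n] at h3 ⊢
    exact hn4 n (s n) _ h3
  have cauchy_aux : ∀ f : ℕ → G, (∀ n m, n ≤ m → dist (f m) (f n) < (1 / 2 : ℝ) ^ n) → CauchySeq f := by
    intro f hf
    apply cauchySeq_of_le_tendsto_0 _ _ hb0
    intro n m N hn hm
    have i1 := hf N n hn
    have i2 := hf N m hm
    have := dist_triangle_right (f n) (f m) (f N)
    linarith
  obtain ⟨x, hx⟩ := cauchySeq_tendsto_of_complete (cauchy_aux (fun n => (s (n + 1)).1) hdc)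
  obtain ⟨x', hx'⟩ := cauchySeq_tendsto_of_complete
    (cauchy_aux (fun n => (s (n + 1)).1 + g (s (n + 1)).2) hdd)
  refine ⟨x' - x, fun n => ?_⟩
  have hlim : Tendsto (fun m => g (s (m + 1)).2 - g n) atTop (𝓝 (x' - x - g n)) := by
    have := (hx'.sub hx).sub_const (g n)
    refine this.congr (fun m => ?_)
    simp
  have hcl : IsClosed (W n : Set G) := AddSubgroup.isClosed_of_isOpen _ (hopen n)
  refine hcl.mem_of_tendsto hlim ?_
  filter_upwards [eventually_ge_atTop n] with m hm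
  apply hg'
  have : m + 1 ≤ (s (m + 1)).2 := hk.id_le (m + 1)
  omega

end Pool.Agent.H72
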