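import Mathlib

set_option autoImplicit false

namespace Pool.Agent.H72

open Topology Filter

/-- initial segment of length `n` of a sequence -/
def seg {α : Type} (β : ℕ → α) (n : ℕ) : List α := (List.range n).map β

theorem seg_length {α : Type} (β : ℕ → α) (n : ℕ) : (seg β n).length = n := by
  simp [seg]

theorem seg_succ {α : Type} (β : ℕ → α) (n : ℕ) : seg β (n + 1) = seg β n ++ [β n] := by
  simp [seg, List.range_succ]

theorem seg_zero {α : Type} (β : ℕ → α) : seg β 0 = [] := rfl

theorem seg_eq_iff {α : Type} (β γ : ℕ → α) (n : ℕ) : seg β n = seg γ n ↔ ∀ i < n, β i = γ i := by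
  simp [seg, List.map_inj_left]

/-- The set of (indicator functions of) subsets of `List ℕ` having an infinite branch. -/
def IllF : Set (List ℕ → Bool) := {T | ∃ β : ℕ → ℕ, ∀ n, T (seg β n) = true}

theorem polish_bool (Y : Type) [Countable Y] : PolishSpace (Y → Bool) := by
  have h1 : SecondCountableTopology (Y → Bool) := inferInstance
  have h2 : TopologicalSpace.IsCompletelyMetrizableSpace (Y → Bool) := inferInstance
  exact { h1, h2 with }

theorem measurableSet_coord (i : ℕ) (b : Bool) : MeasurableSet {z : ℕ → Bool | z i = b} :=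
  (measurable_pi_apply (X := fun _ : ℕ => Bool) i) (measurableSet_singleton b)

theorem measurableSet_seg_eq (n : ℕ) (t : List Bool) :
    MeasurableSet {z : ℕ → Bool | seg z n = t} := by
  by_cases h : ∃ z₀ : ℕ → Bool, seg z₀ n = t
  · obtain ⟨z₀, hz₀⟩ := h
    have : {z : ℕ → Bool | seg z n = t} = ⋂ i : ℕ, ⋂ _ : i < n, {z | z i = z₀ i} := by
      ext z
      simp only [Set.mem_ofPred_eq, Set.mem_iInter]
      rw [← hz₀, seg_eq_iff]
    rw [this]
    refine MeasurableSet.iInter fun i => MeasurableSet.iInter fun _ => ?_
    exact measurableSet_coord i _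
  · have : {z : ℕ → Bool | seg z n = t} = ∅ := by
      ext z
      simp only [Set.mem_ofPred_eq, Set.mem_empty_iff_false, iff_false]
      intro hz
      exact h ⟨z, hz⟩
    rw [this]
    exact MeasurableSet.empty

theorem not_measurable_IllF : ¬ MeasurableSet IllF := by
  intro hIF
  -- diagonal map
  let Φ : (ℕ → Bool) → (ℕ → Bool) → (List ℕ → Bool) :=
    fun x z s => x (Encodable.encode (s, seg z s.length))
  have hmeas : Measurable (fun z => Φ z z) := by
    rw [measurable_pi_iff]
    intro s
    show Measurable (fun z : ℕ → Bool => z (Encodable.encode (s, seg z s.length)))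
    apply measurable_to_bool
    have : (fun z : ℕ → Bool => z (Encodable.encode (s, seg z s.length))) ⁻¹' {true} =
        ⋃ t : List Bool, ({z : ℕ → Bool | seg z s.length = t} ∩
          {z : ℕ → Bool | z (Encodable.encode (s, t)) = true}) := by
      ext z
      simp
    rw [this]
    refine MeasurableSet.iUnion fun t => (measurableSet_seg_eq _ t).inter ?_
    exact measurableSet_coord _ _
  -- the diagonal set
  let Dg : Set (ℕ → Bool) := {z | Φ z z ∉ IllF}
  have hDg : MeasurableSet Dg := (hmeas hIF).compl
  have := polish_bool ℕ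
  have hana := hDg.analyticSet
  -- code of the diagonal set
  have hcode : ∃ x₀ : ℕ → Bool, ∀ z, z ∈ Dg ↔ Φ x₀ z ∈ IllF := by
    rw [MeasureTheory.AnalyticSet] at hana
    rcases hana with h | ⟨f, hf, hfr⟩
    · refine ⟨fun _ => false, fun z => ?_⟩
      rw [h]
      simp [Φ, IllF]
    · classical
      refine ⟨fun n => decide (∃ s : List ℕ, ∃ t : List Bool, n = Encodable.encode (s, t) ∧
        ∃ y : ℕ → ℕ, seg y s.length = s ∧ seg (f y) s.length = t), fun z => ?_⟩
      have hΦ : ∀ s : List ℕ, Φ (fun n => decide (∃ s : List ℕ, ∃ t : List Bool,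
          n = Encodable.encode (s, t) ∧
          ∃ y : ℕ → ℕ, seg y s.length = s ∧ seg (f y) s.length = t)) z s = true ↔
          ∃ y : ℕ → ℕ, seg y s.length = s ∧ seg (f y) s.length = seg z s.length := by
        intro s
        simp only [Φ, decide_eq_true_eq]
        constructor
        · rintro ⟨s', t', he, y, hy1, hy2⟩
          have := Encodable.encode_injective he
          rw [Prod.mk.injEq] at this
          obtain ⟨h1, h2⟩ := this
          subst h1
          exact ⟨y, hy1, by rw [hy2, h2]⟩
        · rintro ⟨y, hy1, hy2⟩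
          exact ⟨s, _, rfl, y, hy1, hy2⟩
      constructor
      · intro hz
        rw [← hfr] at hz
        obtain ⟨y, rfl⟩ := hz
        refine ⟨y, fun n => ?_⟩
        rw [hΦ]
        refine ⟨y, ?_, rfl⟩
        rw [seg_length]
      · rintro ⟨β, hβ⟩
        rw [← hfr]
        refine ⟨β, ?_⟩
        have hβ' : ∀ n, ∃ y : ℕ → ℕ, seg y n = seg β n ∧ seg (f y) n = seg z n := by
          intro n
          have := (hΦ _).1 (hβ n)
          rwa [seg_length] at this
        choose y hy1 hy2 using hβ'
        have hyβ : Tendsto y atTop (𝓝 β) := by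
          rw [tendsto_pi_nhds]
          intro i
          apply tendsto_const_nhds.congr'
          filter_upwards [eventually_gt_atTop i] with n hn
          exact ((seg_eq_iff _ _ _).1 (hy1 n) i hn).symm
        have h1 : Tendsto (fun n => f (y n)) atTop (𝓝 (f β)) := (hf.tendsto β).comp hyβ
        have h2 : Tendsto (fun n => f (y n)) atTop (𝓝 z) := by
          rw [tendsto_pi_nhds]
          intro i
          apply tendsto_const_nhds.congr'
          filter_upwards [eventually_gt_atTop i] with n hn
          exact ((seg_eq_iff _ _ _).1 (hy2 n) i hn).symm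
        exact tendsto_nhds_unique h1 h2
  obtain ⟨x₀, hx₀⟩ := hcode
  have h1 := hx₀ x₀
  have h2 : x₀ ∈ Dg ↔ Φ x₀ x₀ ∉ IllF := Iff.rfl
  rw [h2] at h1
  tauto

end Pool.Agent.H72
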