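import Mathlib
import Pool.Agent.H72.Core
import Pool.Agent.H72.Limit

set_option autoImplicit false

namespace Pool.Agent.H72

open Topology Filter

/-- A topological abelian group is tame if all its continuous actions on Polish spaces have Borel
orbit equivalence relations. -/
def Tame (G : Type) [AddCommGroup G] [TopologicalSpace G] : Prop :=
  ∀ (X : Type) [TopologicalSpace X] [PolishSpace X] [AddAction G X] [ContinuousVAdd G X],
    @MeasurableSet (X × X) (borel (X × X)) {p : X × X | ∃ g : G, g +ᵥ p.1 = p.2}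

section action

variable {G : Type} [AddCommGroup G] [TopologicalSpace G] [IsTopologicalAddGroup G]
variable {X : Type} [TopologicalSpace X] [AddAction G X] [ContinuousVAdd G X]

/-- `y` is in the closure of `(g + K) x`. -/
def RR (K : AddSubgroup G) (g : G) (x y : X) : Prop :=
  ∀ V : Set X, IsOpen V → y ∈ V → ∃ u ∈ K, (g + u) +ᵥ x ∈ V

omit [IsTopologicalAddGroup G] in
theorem RR_trans (K : AddSubgroup G) {g h : G} {x y z : X} (h1 : RR K g x y) (h2 : RR K h y z) :
    RR K (h + g) x z := by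
  intro V hV hz
  obtain ⟨u, hu, huV⟩ := h2 V hV hz
  obtain ⟨u', hu', hu'V⟩ := h1 ((fun y' => (h + u) +ᵥ y') ⁻¹' V)
    (hV.preimage (continuous_const_vadd _)) huV
  refine ⟨u + u', K.add_mem hu hu', ?_⟩
  have e : h + g + (u + u') = (h + u) + (g + u') := by abel
  rw [e, add_vadd]
  exact hu'V

omit [TopologicalSpace G] [IsTopologicalAddGroup G] [ContinuousVAdd G X] in
theorem RR_add (K : AddSubgroup G) {g w : G} {x y : X} (h1 : RR K g x y) (hw : w ∈ K) :
    RR K (g + w) x y := by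
  intro V hV hz
  obtain ⟨u, hu, huV⟩ := h1 V hV hz
  refine ⟨u - w, K.sub_mem hu hw, ?_⟩
  have e : g + w + (u - w) = g + u := by abel
  rwa [e]

omit [TopologicalSpace G] [IsTopologicalAddGroup G] [ContinuousVAdd G X] in
theorem RR_mono {K K' : AddSubgroup G} (hK : K ≤ K') {g : G} {x y : X} (h1 : RR K g x y) :
    RR K' g x y := by
  intro V hV hz
  obtain ⟨u, hu, huV⟩ := h1 V hV hz
  exact ⟨u, hK hu, huV⟩

omit [TopologicalSpace G] [IsTopologicalAddGroup G] [ContinuousVAdd G X] in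
theorem RR_of_eq (K : AddSubgroup G) {g : G} {x y : X} (h : g +ᵥ x = y) : RR K g x y := by
  intro V hV hz
  exact ⟨0, K.zero_mem, by rwa [add_zero, h]⟩

theorem eq_of_RR [T2Space X] (W : ℕ → AddSubgroup G)
    (hbase : ∀ U ∈ 𝓝 (0 : G), ∃ n, (W n : Set G) ⊆ U) {g : G} {x y : X}
    (h : ∀ k, RR (W k) g x y) : g +ᵥ x = y := by
  by_contra hne
  obtain ⟨O, V, hO, hV, hgO, hyV, hd⟩ := t2_separation hne
  have h1 : (fun u : G => (g + u) +ᵥ x) ⁻¹' O ∈ 𝓝 (0 : G) := by
    have hc : Continuous (fun u : G => (g + u) +ᵥ x) :=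
      (continuous_const.add continuous_id).vadd continuous_const
    apply hc.continuousAt.preimage_mem_nhds
    simpa using hO.mem_nhds hgO
  obtain ⟨k, hk⟩ := hbase _ h1
  obtain ⟨u, hu, huV⟩ := h k V hV hyV
  exact Set.disjoint_left.1 hd (hk hu) huV

omit [IsTopologicalAddGroup G] in
theorem RR_nsmul (K : AddSubgroup G) {g : G} {x : X} (h : RR K g x x) (n : ℕ) :
    RR K (n • g) x x := by
  induction n with
  | zero => simpa using RR_of_eq K (zero_vadd G x)
  | succ n ih => rw [succ_nsmul']; exact RR_trans K ih h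

omit [IsTopologicalAddGroup G] in
theorem RR_neg (K : AddSubgroup G) {g : G} {x : X} (h : RR K g x x) {n : ℕ} (hn : 0 < n)
    (hng : n • g ∈ K) : RR K (-g) x x := by
  obtain ⟨m, rfl⟩ := Nat.exists_eq_succ_of_ne_zero hn.ne'
  have e : -g = m • g + -((m + 1) • g) := by
    rw [succ_nsmul]; abel
  rw [e]
  exact RR_add K (RR_nsmul K h m) (K.neg_mem hng)

/-- set of approximate transporters -/
def AA (W : ℕ → AddSubgroup G) (x y : X) (k : ℕ) : Set G :=
  {g | g ∈ W 0 ∧ RR (W k) g x y ∧ RR (W k) (-g) y x}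

omit [IsTopologicalAddGroup G] in
/-- The subgroup of approximate stabilisers. -/
def SS (W : ℕ → AddSubgroup G) (htors : ∀ g ∈ W 0, ∀ k, ∃ n : ℕ, 0 < n ∧ n • g ∈ W k)
    (x : X) (k : ℕ) : AddSubgroup G where
  carrier := {g | g ∈ W 0 ∧ RR (W k) g x x}
  zero_mem' := ⟨(W 0).zero_mem, RR_of_eq _ (zero_vadd G x)⟩
  add_mem' := by
    rintro a b ⟨ha, ha'⟩ ⟨hb, hb'⟩
    exact ⟨(W 0).add_mem ha hb, RR_trans _ hb' ha'⟩
  neg_mem' := by
    rintro a ⟨ha, ha'⟩
    obtain ⟨n, hn, hna⟩ := htors a ha k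
    exact ⟨(W 0).neg_mem ha, RR_neg _ ha' hn hna⟩

/-- `y ∈ W₀ x` iff all second derived sets are nonempty. -/
theorem orbit_iff [T2Space X] (W : ℕ → AddSubgroup G) (hanti : Antitone W)
    (hbase : ∀ U ∈ 𝓝 (0 : G), ∃ n, (W n : Set G) ⊆ U)
    (hlim : ∀ g : ℕ → G, (∀ n, g (n + 1) - g n ∈ W n) → ∃ a, ∀ n, a - g n ∈ W n)
    (htors : ∀ g ∈ W 0, ∀ k, ∃ n : ℕ, 0 < n ∧ n • g ∈ W k)
    (hfin : ∀ p : ℕ, p.Prime → ∃ m, ∀ k, FinMod {u : G | u ∈ W m ∧ p • u ∈ W k} (W k))
    (x y : X) :
    (∃ g ∈ W 0, g +ᵥ x = y) ↔ ∀ k, (Der W (Der W (AA W x y)) k).Nonempty := by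
  constructor
  · rintro ⟨g, hg, hgx⟩ k
    have h0 : ∀ l, g ∈ AA W x y l := by
      intro l
      refine ⟨hg, RR_of_eq _ hgx, RR_of_eq _ ?_⟩
      rw [← hgx, neg_vadd_vadd]
    have h1 : ∀ l, g ∈ Der W (AA W x y) l := fun l l' _ => ⟨g, h0 l', by simp⟩
    exact ⟨g, fun l' _ => ⟨g, h1 l', by simp⟩⟩
  · intro hne
    obtain ⟨a, ha⟩ := core W hanti hlim htors hfin (SS W htors x)
      (by
        rintro k k' h g ⟨hg, hg'⟩
        exact ⟨hg, RR_mono (hanti h) hg'⟩)
      (by
        intro k g hg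
        refine ⟨hanti (Nat.zero_le k) hg, ?_⟩
        have := RR_add (W k) (RR_of_eq (W k) (zero_vadd G x)) hg
        rwa [zero_add] at this)
      (fun k g hg => hg.1)
      (AA W x y)
      (by
        rintro k k' h g ⟨hg, hg', hg''⟩
        exact ⟨hg, RR_mono (hanti h) hg', RR_mono (hanti h) hg''⟩)
      (by
        rintro k g ⟨hg, hg', hg''⟩ h ⟨hh, hh', hh''⟩
        refine ⟨(W 0).sub_mem hg hh, ?_⟩
        have := RR_trans (W k) hg' hh''
        have e : g - h = -h + g := by abel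
        rwa [e])
      (by
        rintro k g ⟨hg, hg', hg''⟩ s hs
        have hs2 := (SS W htors x k).neg_mem hs
        refine ⟨(W 0).add_mem hg hs.1, RR_trans (W k) hs.2 hg', ?_⟩
        have := RR_trans (W k) hg'' hs2.2
        have e : -(g + s) = -s + -g := by abel
        rwa [e])
      hne
    exact ⟨a, (ha 0).1, eq_of_RR W hbase (fun k => (ha k).2.1)⟩

end action

section borel

variable {G : Type} [AddCommGroup G] [TopologicalSpace G] [IsTopologicalAddGroup G]
variable {X : Type} [TopologicalSpace X] [AddAction G X] [ContinuousVAdd G X]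

/-- measurability of the derived sets -/
theorem measurable_der {Z : Type} [MeasurableSpace Z] (W : ℕ → AddSubgroup G) (hanti : Antitone W)
    (D : Set G) (hD : D.Countable) (hDd : ∀ (g : G) (k : ℕ), ∃ d ∈ D, d - g ∈ W k)
    (B : Z → ℕ → Set G) (hB : ∀ z l, ∀ g ∈ B z l, ∀ w ∈ W l, g + w ∈ B z l)
    (hmeas : ∀ l g, MeasurableSet {z | g ∈ B z l}) (k : ℕ) (g : G) :
    MeasurableSet {z | g ∈ Der W (B z) k} := by
  have : {z | g ∈ Der W (B z) k} = ⋂ l : ℕ, ⋂ _ : k ≤ l, ⋃ d ∈ D, {z | d ∈ B z l ∧ d - g ∈ W k} := by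
    ext z
    simp only [Set.mem_iInter, Set.mem_iUnion, Set.mem_ofPred_eq, exists_prop]
    constructor
    · intro hz l hl
      obtain ⟨h, hh, hhg⟩ := hz l hl
      obtain ⟨d, hd, hdh⟩ := hDd h l
      refine ⟨d, hd, ?_, ?_⟩
      · have := hB z l h hh _ hdh
        have e : h + (d - h) = d := by abel
        rwa [e] at this
      · have e : d - g = (d - h) + (h - g) := by abel
        rw [e]
        exact (W k).add_mem (hanti hl hdh) hhg
    · intro hz l hl
      obtain ⟨d, -, hd1, hd2⟩ := hz l hl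
      exact ⟨d, hd1, hd2⟩
  rw [this]
  refine MeasurableSet.iInter fun l => MeasurableSet.iInter fun _ =>
    MeasurableSet.biUnion hD fun d _ => ?_
  by_cases hdg : d - g ∈ W k
  · simpa [hdg] using hmeas l d
  · simp [hdg]

omit [TopologicalSpace G] [IsTopologicalAddGroup G] in
theorem der_invariant (W : ℕ → AddSubgroup G) (A : ℕ → Set G) (k : ℕ) (g : G) (hg : g ∈ Der W A k)
    (w : G) (hw : w ∈ W k) : g + w ∈ Der W A k := by
  intro l hl
  obtain ⟨h, hh, hhg⟩ := hg l hl
  refine ⟨h, hh, ?_⟩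
  have e : h - (g + w) = (h - g) - w := by abel
  rw [e]
  exact (W k).sub_mem hhg hw

omit [IsTopologicalAddGroup G] in
theorem measurable_RR [SecondCountableTopology X] (K : AddSubgroup G) (g : G) :
    @MeasurableSet (X × X) (borel (X × X)) {p : X × X | RR K g p.1 p.2} := by
  let _ : MeasurableSpace (X × X) := borel (X × X)
  have : BorelSpace (X × X) := ⟨rfl⟩
  have hset : {p : X × X | RR K g p.1 p.2} = ⋂ V ∈ TopologicalSpace.countableBasis X,
      ((Prod.snd ⁻¹' V)ᶜ ∪ Prod.fst ⁻¹' (⋃ u ∈ K, {x | (g + u) +ᵥ x ∈ V})) := by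
    ext p
    simp only [Set.mem_ofPred_eq, Set.mem_iInter, Set.mem_union, Set.mem_compl_iff,
      Set.mem_preimage, Set.mem_iUnion, exists_prop]
    constructor
    · intro h V hV
      by_cases hp : p.2 ∈ V
      · right
        exact h V (TopologicalSpace.isOpen_of_mem_countableBasis hV) hp
      · left; exact hp
    · intro h V hV hp
      obtain ⟨V', hV', hpV', hsub⟩ :=
        (TopologicalSpace.isBasis_countableBasis X).exists_subset_of_mem_open hp hV
      rcases h V' hV' with h1 | ⟨u, hu, huV⟩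
      · exact absurd hpV' h1
      · exact ⟨u, hu, hsub huV⟩
  rw [hset]
  refine MeasurableSet.biInter (TopologicalSpace.countable_countableBasis X) fun V hV => ?_
  have hVo := TopologicalSpace.isOpen_of_mem_countableBasis hV
  refine MeasurableSet.union ?_ ?_
  · exact ((hVo.preimage continuous_snd).measurableSet).compl
  · refine (IsOpen.preimage continuous_fst ?_).measurableSet
    exact isOpen_biUnion fun u _ => hVo.preimage (continuous_const_vadd _)

/-- **Tameness theorem.** -/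
theorem tame_of {G : Type} [AddCommGroup G] [TopologicalSpace G] [IsTopologicalAddGroup G]
    [PolishSpace G] (W : ℕ → AddSubgroup G)
    (hopen : ∀ n, IsOpen (W n : Set G)) (hanti : Antitone W)
    (hbase : ∀ U ∈ 𝓝 (0 : G), ∃ n, (W n : Set G) ⊆ U)
    (htors : ∀ g ∈ W 0, ∀ k, ∃ n : ℕ, 0 < n ∧ n • g ∈ W k)
    (hfin : ∀ p : ℕ, p.Prime → ∃ m, ∀ k, FinMod {u : G | u ∈ W m ∧ p • u ∈ W k} (W k)) :
    Tame G := by
  intro X _ _ _ _
  let _ : MeasurableSpace (X × X) := borel (X × X)
  have : BorelSpace (X × X) := ⟨rfl⟩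
  obtain ⟨D, hDc, hDd⟩ := TopologicalSpace.exists_countable_dense G
  have hD : ∀ (g : G) (k : ℕ), ∃ d ∈ D, d - g ∈ W k := by
    intro g k
    have ho : IsOpen ((fun d => d - g) ⁻¹' (W k : Set G)) :=
      (hopen k).preimage (continuous_id.sub continuous_const)
    obtain ⟨d, hd, hdD⟩ := hDd.inter_open_nonempty _ ho ⟨g, by simp⟩
    exact ⟨d, hdD, hd⟩
  have hlim := fun g hg => exists_limit W hopen hanti hbase g hg
  have hAinv : ∀ (z : X × X) l, ∀ g ∈ AA W z.1 z.2 l, ∀ w ∈ W l, g + w ∈ AA W z.1 z.2 l := by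
    rintro z l g ⟨h1, h2, h3⟩ w hw
    refine ⟨(W 0).add_mem h1 (hanti (Nat.zero_le l) hw), RR_add _ h2 hw, ?_⟩
    have e : -(g + w) = -g + -w := by abel
    rw [e]
    exact RR_add _ h3 ((W l).neg_mem hw)
  have hAmeas : ∀ l g, MeasurableSet {z : X × X | g ∈ AA W z.1 z.2 l} := by
    intro l g
    by_cases hg : g ∈ W 0
    · have h1 : MeasurableSet {z : X × X | RR (W l) g z.1 z.2} := measurable_RR (W l) g
      have h2 : MeasurableSet {z : X × X | RR (W l) (-g) z.1 z.2} := measurable_RR (W l) (-g)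
      have h3 : MeasurableSet {z : X × X | RR (W l) (-g) z.2 z.1} :=
        (continuous_swap (X := X) (Y := X)).measurable h2
      have : {z : X × X | g ∈ AA W z.1 z.2 l} =
          {z : X × X | RR (W l) g z.1 z.2} ∩ {z : X × X | RR (W l) (-g) z.2 z.1} := by
        ext z
        simp [AA, hg]
      rw [this]
      exact h1.inter h3
    · simp [AA, hg]
  have hd1 := measurable_der W hanti D hDc hD (fun z : X × X => AA W z.1 z.2) hAinv hAmeas
  have hd2 := measurable_der W hanti D hDc hD (fun z : X × X => Der W (AA W z.1 z.2))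
    (fun z l g hg w hw => der_invariant W _ l g hg w hw) hd1
  -- orbit relation of `W 0`
  have hE0 : MeasurableSet {p : X × X | ∃ g ∈ W 0, g +ᵥ p.1 = p.2} := by
    have : {p : X × X | ∃ g ∈ W 0, g +ᵥ p.1 = p.2} =
        ⋂ k : ℕ, ⋃ d ∈ D, {p : X × X | d ∈ Der W (Der W (AA W p.1 p.2)) k} := by
      ext p
      rw [Set.mem_ofPred_eq, orbit_iff W hanti hbase hlim htors hfin p.1 p.2]
      simp only [Set.mem_iInter, Set.mem_iUnion, Set.mem_ofPred_eq, exists_prop]
      refine forall_congr' fun k => ?_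
      constructor
      · rintro ⟨g, hg⟩
        obtain ⟨d, hd, hdg⟩ := hD g k
        refine ⟨d, hd, ?_⟩
        have := der_invariant W _ k g hg _ hdg
        have e : g + (d - g) = d := by abel
        rwa [e] at this
      · rintro ⟨d, -, hd⟩
        exact ⟨d, hd⟩
    rw [this]
    exact MeasurableSet.iInter fun k => MeasurableSet.biUnion hDc fun d _ => hd2 k d
  have hE : {p : X × X | ∃ g : G, g +ᵥ p.1 = p.2} =
      ⋃ d ∈ D, (fun p : X × X => (p.1, -d +ᵥ p.2)) ⁻¹' {p : X × X | ∃ g ∈ W 0, g +ᵥ p.1 = p.2} := by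
    ext p
    simp only [Set.mem_iUnion, Set.mem_ofPred_eq, exists_prop, Set.mem_preimage]
    constructor
    · rintro ⟨g, hg⟩
      obtain ⟨d, hd, hdg⟩ := hD g 0
      refine ⟨d, hd, -d + g, ?_, ?_⟩
      · have e : -d + g = -(d - g) := by abel
        rw [e]
        exact (W 0).neg_mem hdg
      · rw [← hg, add_vadd]
    · rintro ⟨d, -, g, -, hg⟩
      refine ⟨d + g, ?_⟩
      rw [add_vadd, hg, vadd_neg_vadd]
  rw [hE]
  refine MeasurableSet.biUnion hDc fun d _ => ?_
  have hc : Continuous (fun p : X × X => (p.1, -d +ᵥ p.2)) :=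
    continuous_fst.prodMk ((continuous_const_vadd (-d)).comp continuous_snd)
  exact hc.measurable hE0

end borel

end Pool.Agent.H72
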