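import Mathlib
import Pool.Agent.H72.TameT
import Pool.Agent.H72.IllFounded

set_option autoImplicit false

namespace Pool.Agent.H72

open Topology Filter

variable {G : Type} [AddCommGroup G] [TopologicalSpace G] [IsTopologicalAddGroup G]

theorem countable_quotient [PolishSpace G] (A : AddSubgroup G) (hA : IsOpen (A : Set G)) :
    Countable (G ⧸ A) := by
  obtain ⟨D, hDc, hDd⟩ := TopologicalSpace.exists_countable_dense G
  have : Countable D := hDc
  apply Function.Surjective.countable (f := fun d : D => (QuotientAddGroup.mk d.1 : G ⧸ A))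
  intro q
  obtain ⟨g, rfl⟩ := QuotientAddGroup.mk_surjective q
  have ho : IsOpen ((fun d => -d + g) ⁻¹' (A : Set G)) :=
    hA.preimage (continuous_neg.add continuous_const)
  obtain ⟨d, hd, hdD⟩ := hDd.inter_open_nonempty _ ho ⟨g, by simp⟩
  exact ⟨⟨d, hdD⟩, QuotientAddGroup.eq.2 hd⟩

/-- the shift action on subsets of a disjoint union of coset spaces -/
@[reducible] def shiftAct {I : Type} (A : I → AddSubgroup G) :
    AddAction G ((Σ i, G ⧸ A i) → Bool) where
  vadd g x := fun y => x ⟨y.1, y.2 - (QuotientAddGroup.mk g : G ⧸ A y.1)⟩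
  zero_vadd x := by
    funext y
    show x ⟨y.1, y.2 - (QuotientAddGroup.mk 0 : G ⧸ A y.1)⟩ = x y
    rw [QuotientAddGroup.mk_zero, sub_zero]
  add_vadd g h x := by
    funext y
    show x ⟨y.1, y.2 - (QuotientAddGroup.mk (g + h) : G ⧸ A y.1)⟩ =
      x ⟨y.1, y.2 - (QuotientAddGroup.mk g : G ⧸ A y.1) - (QuotientAddGroup.mk h : G ⧸ A y.1)⟩
    rw [QuotientAddGroup.mk_add, sub_sub]

theorem shiftAct_continuous {I : Type} (A : I → AddSubgroup G)
    (hA : ∀ i, IsOpen (A i : Set G)) :
    @ContinuousVAdd G ((Σ i, G ⧸ A i) → Bool) (shiftAct A).toVAdd _ _ := by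
  let _ := shiftAct A
  refine ⟨?_⟩
  apply continuous_pi
  rintro ⟨i, c⟩
  rw [continuous_iff_continuousAt]
  rintro ⟨g₀, x₀⟩
  have h1 : ContinuousAt (fun p : G × ((Σ i, G ⧸ A i) → Bool) =>
      p.2 ⟨i, c - (QuotientAddGroup.mk g₀ : G ⧸ A i)⟩) (g₀, x₀) :=
    ((continuous_apply _).comp continuous_snd).continuousAt
  refine h1.congr ?_
  have ho : IsOpen {p : G × ((Σ i, G ⧸ A i) → Bool) | -g₀ + p.1 ∈ A i} :=
    (hA i).preimage (continuous_const.add continuous_fst)
  filter_upwards [ho.mem_nhds (by simp : (g₀, x₀) ∈ {p : G × ((Σ i, G ⧸ A i) → Bool) | -g₀ + p.1 ∈ A i})]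
    with p hp
  have : (QuotientAddGroup.mk g₀ : G ⧸ A i) = QuotientAddGroup.mk p.1 := QuotientAddGroup.eq.2 hp
  show p.2 ⟨i, c - (QuotientAddGroup.mk g₀ : G ⧸ A i)⟩ = p.2 ⟨i, c - (QuotientAddGroup.mk p.1 : G ⧸ A i)⟩
  rw [this]

/-- **Non-Borel criterion.** For a tame group, solvability of a countable system of coset conditions
depends in a Borel way on the choice of the conditions. -/
theorem borel_of_tame [PolishSpace G] (hG : Tame G) {J : Type} [Countable J]
    (A : J → Bool → AddSubgroup G) (hA : ∀ j b, IsOpen (A j b : Set G)) (a : J → Bool → G) :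
    MeasurableSet {T : J → Bool | ∃ g : G, ∀ j, g - a j (T j) ∈ A j (T j)} := by
  classical
  let A' : J × Bool → AddSubgroup G := fun i => A i.1 i.2
  have hA' : ∀ i, IsOpen (A' i : Set G) := fun i => hA i.1 i.2
  have hq : ∀ i, Countable (G ⧸ A' i) := fun i => countable_quotient _ (hA' i)
  let Y : Type := Σ i, G ⧸ A' i
  have hY : Countable Y := inferInstanceAs (Countable (Σ i, G ⧸ A' i))
  have hX : PolishSpace (Y → Bool) := polish_bool Y
  have hE := @hG (Y → Bool) _ hX (shiftAct A') (shiftAct_continuous A' hA')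
  let _ : MeasurableSpace ((Y → Bool) × (Y → Bool)) := borel _
  have : BorelSpace ((Y → Bool) × (Y → Bool)) := ⟨rfl⟩
  let x : (J → Bool) → (Y → Bool) := fun T y => decide (T y.1.1 = y.1.2) && decide (y.2 = 0)
  let z : (J → Bool) → (Y → Bool) := fun T y =>
    decide (T y.1.1 = y.1.2) && decide (y.2 = QuotientAddGroup.mk (a y.1.1 y.1.2))
  have haux : ∀ (j : J) (b : Bool) (P : Prop) [Decidable P],
      Continuous (fun T : J → Bool => decide (T j = b) && decide P) := by
    intro j b P _
    have h1 : Continuous (fun c : Bool => decide (c = b) && decide P) := continuous_of_discreteTopology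
    exact h1.comp (continuous_apply j)
  have hx : Continuous x := continuous_pi fun y => haux _ _ _
  have hz : Continuous z := continuous_pi fun y => haux _ _ _
  have hmeas : MeasurableSet ((fun T => (x T, z T)) ⁻¹'
      {p : (Y → Bool) × (Y → Bool) | ∃ g : G,
        (@HVAdd.hVAdd G (Y → Bool) (Y → Bool) (@instHVAdd _ _ (shiftAct A').toVAdd) g p.1) = p.2}) :=
    (hx.prodMk hz).measurable hE
  convert hmeas using 1
  ext T
  simp only [Set.mem_ofPred_eq, Set.mem_preimage]
  refine exists_congr fun g => ?_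
  constructor
  · intro h
    funext y
    obtain ⟨⟨j, b⟩, c⟩ := y
    show (decide (T j = b) && decide (c - (QuotientAddGroup.mk g : G ⧸ A' (j, b)) = 0)) =
      (decide (T j = b) && decide (c = QuotientAddGroup.mk (a j b)))
    by_cases hb : T j = b
    · subst hb
      have h1 : (QuotientAddGroup.mk g : G ⧸ A' (j, T j)) = QuotientAddGroup.mk (a j (T j)) := by
        rw [QuotientAddGroup.eq]
        have := (A j (T j)).neg_mem (h j)
        have e : -(g - a j (T j)) = -g + a j (T j) := by abel
        rwa [e] at this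
      simp only [h1, sub_eq_zero]
    · simp [hb]
  · intro h j
    have h1 := congrFun h ⟨(j, T j), QuotientAddGroup.mk g⟩
    have h2 : (decide (T j = T j) && decide ((QuotientAddGroup.mk g : G ⧸ A' (j, T j)) -
        (QuotientAddGroup.mk g : G ⧸ A' (j, T j)) = 0)) =
      (decide (T j = T j) && decide ((QuotientAddGroup.mk g : G ⧸ A' (j, T j)) =
        QuotientAddGroup.mk (a j (T j)))) := h1
    simp only [sub_self, decide_true, Bool.and_self, Bool.true_and] at h2
    have h3 := of_decide_eq_true h2.symm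
    rw [QuotientAddGroup.eq] at h3
    have := (A' (j, T j)).neg_mem h3
    have e : -(-g + a j (T j)) = g - a j (T j) := by abel
    rwa [e] at this

end Pool.Agent.H72
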