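import Mathlib
import Pool.Agent.H72.NB
import Pool.Agent.H72.Biorth
import Pool.Agent.H72.Limit

set_option autoImplicit false

namespace Pool.Agent.H72

open Topology Filter

open Classical in
/-- coefficients of the flow functional at `s` -/
noncomputable def coef (s t : List ℕ) : ℤ :=
  if t = s then 1 else if ∃ j, t = s ++ [j] then -1 else 0

/-- the flow functional at `s` -/
noncomputable def ell (s : List ℕ) : (List ℕ →₀ ℤ) →+ ℤ :=
  (Finsupp.linearCombination ℤ (coef s)).toAddMonoidHom

theorem ell_single (s t : List ℕ) (c : ℤ) : ell s (Finsupp.single t c) = c * coef s t := by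
  show Finsupp.linearCombination ℤ (coef s) (Finsupp.single t c) = _
  rw [Finsupp.linearCombination_single, smul_eq_mul]

theorem ell_child (p : ℤ) (s : List ℕ) (v : List ℕ →₀ ℤ) (hv : ell s v = 0) (hs : ¬ p ∣ v s) :
    ∃ j, ¬ p ∣ v (s ++ [j]) := by
  classical
  by_contra hcon
  push Not at hcon
  apply hs
  have h1 : ell s (Finsupp.single s (v s)) + ell s (Finsupp.erase s v) = 0 := by
    rw [← map_add, Finsupp.single_add_erase, hv]
  rw [ell_single] at h1
  have h2 : coef s s = 1 := by simp [coef]
  rw [h2, mul_one] at h1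
  have h3 : p ∣ ell s (Finsupp.erase s v) := by
    show p ∣ Finsupp.linearCombination ℤ (coef s) (Finsupp.erase s v)
    rw [Finsupp.linearCombination_apply]
    apply Finset.dvd_sum
    intro t ht
    show p ∣ (Finsupp.erase s v) t • coef s t
    rw [smul_eq_mul]
    have hts : t ≠ s := by
      rintro rfl
      simp at ht
    rw [Finsupp.erase_ne hts]
    by_cases hj : ∃ j, t = s ++ [j]
    · obtain ⟨j, rfl⟩ := hj
      exact Dvd.dvd.mul_right (hcon j) _
    · simp [coef, hts, hj]
  have h4 : v s = - ell s (Finsupp.erase s v) := by linarith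
  rw [h4]
  exact (dvd_neg).2 h3

/-- the partial flow along a branch -/
noncomputable def vbr (β : ℕ → ℕ) (n : ℕ) : List ℕ →₀ ℤ :=
  ∑ d ∈ Finset.range n, Finsupp.single (seg β d) 1

theorem seg_ne_of_length {β : ℕ → ℕ} {s : List ℕ} {d : ℕ} (h : d ≠ s.length) : seg β d ≠ s := by
  intro he
  apply h
  rw [← he, seg_length]

theorem vbr_apply_zero (β : ℕ → ℕ) (n : ℕ) (s : List ℕ) (hs : s ≠ seg β s.length) :
    vbr β n s = 0 := by
  classical
  rw [vbr, Finsupp.finsetSum_apply]
  apply Finset.sum_eq_zero
  intro d _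
  rw [Finsupp.single_apply, if_neg]
  intro he
  apply hs
  have : d = s.length := by rw [← he, seg_length]
  rw [← this, he]

theorem ell_vbr (β : ℕ → ℕ) (s : List ℕ) : ell s (vbr β (s.length + 2)) = 0 := by
  classical
  rw [vbr, map_sum]
  simp only [ell_single, one_mul]
  rw [Finset.sum_range_succ, Finset.sum_range_succ, Finset.sum_eq_zero, zero_add]
  · have h1 : seg β (s.length + 1) ≠ s := seg_ne_of_length (by omega)
    by_cases hs : seg β s.length = s
    · have h2 : ∃ j, seg β (s.length + 1) = s ++ [j] := ⟨β s.length, by rw [seg_succ, hs]⟩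
      simp only [coef]
      rw [if_pos hs, if_neg h1, if_pos h2]
      norm_num
    · have h2 : ¬ ∃ j, seg β (s.length + 1) = s ++ [j] := by
        rintro ⟨j, hj⟩
        rw [seg_succ] at hj
        exact hs (List.append_inj hj (seg_length _ _)).1
      have h3 : ¬ ∃ j, seg β s.length = s ++ [j] := by
        rintro ⟨j, hj⟩
        have := congrArg List.length hj
        rw [seg_length] at this
        simp at this
      simp only [coef]
      rw [if_neg hs, if_neg h1, if_neg h2, if_neg h3]
      norm_num
  · intro d hd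
    have hd' := Finset.mem_range.1 hd
    have h1 : seg β d ≠ s := seg_ne_of_length (by omega)
    have h2 : ¬ ∃ j, seg β d = s ++ [j] := by
      rintro ⟨j, hj⟩
      have := congrArg List.length hj
      rw [seg_length] at this
      simp at this
      omega
    simp only [coef]
    rw [if_neg h1, if_neg h2]

/-- coordinate functional -/
noncomputable def crd (s : List ℕ) : (List ℕ →₀ ℤ) →+ ℤ := Finsupp.applyAddHom s

/-- integer combinations -/
noncomputable def SigL {G : Type} [AddCommGroup G] (E : List ℕ → G) : (List ℕ →₀ ℤ) →+ G :=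
  (Finsupp.linearCombination ℤ E).toAddMonoidHom

theorem SigL_single {G : Type} [AddCommGroup G] (E : List ℕ → G) (s : List ℕ) (c : ℤ) :
    SigL E (Finsupp.single s c) = c • E s := by
  show Finsupp.linearCombination ℤ E (Finsupp.single s c) = _
  rw [Finsupp.linearCombination_single]

/-- **Finiteness of `p`-torsion**: a tame group cannot have infinite `p`-torsion in arbitrarily small
successive quotients. -/
theorem Pcase {G : Type} [AddCommGroup G] [TopologicalSpace G] [IsTopologicalAddGroup G]
    [PolishSpace G] (hG : Tame G) (W : ℕ → AddSubgroup G) (hopen : ∀ n, IsOpen (W n : Set G))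
    (hanti : Antitone W) (hbase : ∀ U ∈ 𝓝 (0 : G), ∃ n, (W n : Set G) ⊆ U)
    (htors : ∀ g ∈ W 0, ∀ k, ∃ n : ℕ, 0 < n ∧ n • g ∈ W k) (p : ℕ) (hp : p.Prime)
    (hinf : ∀ k, ¬ FinMod {u : G | u ∈ W k ∧ p • u ∈ W (k + 1)} (W (k + 1))) : False := by
  classical
  obtain ⟨eN, fN, h1, h2, h3, h4, h5⟩ := exists_biorth W hanti htors p hp hinf
    (fun t => (Nat.unpair t).1)
  let τ : List ℕ → ℕ := fun s => Nat.pair s.length (Encodable.encode s)
  have hτ : ∀ s, (Nat.unpair (τ s)).1 = s.length := by intro s; simp [τ]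
  have hτinj : Function.Injective τ := by
    intro s t hst
    exact Encodable.encode_injective ((Nat.pair_eq_pair.1 hst).2)
  let E : List ℕ → G := fun s => eN (τ s)
  let F : List ℕ → (G →+ QZ) := fun s => fN (τ s)
  have hE1 : ∀ s, E s ∈ W s.length := fun s => by
    have := h1 (τ s); simp only [hτ] at this; exact this
  have hE2 : ∀ s, p • E s ∈ W (s.length + 1) := fun s => by
    have := h2 (τ s); simp only [hτ] at this; exact this
  have hF1 : ∀ s, ∀ w ∈ W (s.length + 1), F s w = 0 := fun s => by
    have := h3 (τ s); simp only [hτ] at this; exact this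
  have hF2 : ∀ s, F s (E s) ≠ 0 := fun s => h4 (τ s)
  have hF3 : ∀ s t, s ≠ t → F t (E s) = 0 := fun s t hst => h5 _ _ (fun h => hst (hτinj h))
  have hFp : ∀ s, p • F s (E s) = 0 := fun s => by
    rw [← map_nsmul]; exact hF1 s _ (hE2 s)
  have hFord : ∀ s (c : ℤ), c • F s (E s) = 0 ↔ (p : ℤ) ∣ c := by
    intro s c
    have : addOrderOf (F s (E s)) = p := by
      have := Fact.mk hp
      exact addOrderOf_eq_prime (hFp s) (hF2 s)
    rw [← this]
    exact addOrderOf_dvd_iff_zsmul_eq_zero.symm
  have hFS : ∀ s (v : List ℕ →₀ ℤ), F s (SigL E v) = v s • F s (E s) := by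
    intro s v
    have hh : (F s).comp (SigL E) = (zmultiplesHom QZ (F s (E s))).comp (crd s) := by
      apply Finsupp.addHom_ext
      intro t c
      show F s (SigL E (Finsupp.single t c)) = (Finsupp.single t c) s • F s (E s)
      rw [SigL_single, map_zsmul, Finsupp.single_apply]
      by_cases hts : t = s
      · rw [if_pos hts, hts]
      · rw [if_neg hts, hF3 t s hts]
        simp
    exact DFunLike.congr_fun hh v
  let J : Type := List ℕ ⊕ (List ℕ ⊕ Unit)
  have hJ : Countable J := inferInstanceAs (Countable (List ℕ ⊕ (List ℕ ⊕ Unit)))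
  let A : J → Bool → AddSubgroup G := fun j b =>
    match j with
    | Sum.inl s => if b then ⊤ else (AddSubgroup.map (SigL E) (crd s).ker) ⊔ W (s.length + 1)
    | Sum.inr (Sum.inl s) => (AddSubgroup.map (SigL E) (ell s).ker) ⊔ W (s.length + 2)
    | Sum.inr (Sum.inr _) => (AddSubgroup.map (SigL E) (crd []).ker) ⊔ W 1
  let a : J → Bool → G := fun j _ =>
    match j with
    | Sum.inl _ => 0
    | Sum.inr (Sum.inl _) => 0
    | Sum.inr (Sum.inr _) => E []
  have hA : ∀ j b, IsOpen (A j b : Set G) := by
    rintro (s | s | u) b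
    · cases b
      · exact AddSubgroup.isOpen_mono (le_sup_right) (hopen (s.length + 1))
      · simp [A]
    · exact AddSubgroup.isOpen_mono (le_sup_right) (hopen (s.length + 2))
    · exact AddSubgroup.isOpen_mono (le_sup_right) (hopen 1)
  have hm := borel_of_tame hG A hA a
  let ψ : (List ℕ → Bool) → (J → Bool) := fun T => Sum.elim T (fun _ => true)
  have hψ : Measurable ψ := by
    rw [measurable_pi_iff]
    rintro (s | x)
    · exact measurable_pi_apply (X := fun _ : List ℕ => Bool) s
    · exact measurable_const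
  apply not_measurable_IllF
  convert hψ hm using 1
  ext T
  simp only [Set.mem_ofPred_eq, Set.mem_preimage]
  constructor
  · rintro ⟨β, hβ⟩
    obtain ⟨g, hg⟩ := exists_limit W hopen hanti hbase (fun n => SigL E (vbr β n)) (by
      intro n
      rw [← map_sub, vbr, vbr, Finset.sum_range_succ, add_sub_cancel_left, SigL_single, one_smul]
      have := hE1 (seg β n)
      rwa [seg_length] at this)
    refine ⟨g, ?_⟩
    rintro (s | s | u)
    · show g - 0 ∈ A (Sum.inl s) (T s)
      rw [sub_zero]
      rcases hT : T s with _ | _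
      · show g ∈ (AddSubgroup.map (SigL E) (crd s).ker) ⊔ W (s.length + 1)
        rw [AddSubgroup.mem_sup]
        refine ⟨SigL E (vbr β (s.length + 1)), ⟨vbr β (s.length + 1), ?_, rfl⟩,
          g - SigL E (vbr β (s.length + 1)), hg _, by abel⟩
        show vbr β (s.length + 1) s = 0
        apply vbr_apply_zero
        intro he
        have := hβ s.length
        rw [← he, hT] at this
        exact Bool.noConfusion this
      · exact AddSubgroup.mem_top g
    · show g - 0 ∈ (AddSubgroup.map (SigL E) (ell s).ker) ⊔ W (s.length + 2)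
      rw [sub_zero, AddSubgroup.mem_sup]
      exact ⟨SigL E (vbr β (s.length + 2)), ⟨vbr β (s.length + 2), ell_vbr β s, rfl⟩,
          g - SigL E (vbr β (s.length + 2)), hg _, by abel⟩
    · show g - E [] ∈ (AddSubgroup.map (SigL E) (crd []).ker) ⊔ W 1
      apply AddSubgroup.mem_sup_right
      have := hg 1
      have h6 : vbr β 1 = Finsupp.single [] 1 := by simp [vbr, seg_zero]
      rw [h6, SigL_single, one_smul] at this
      exact this
  · rintro ⟨g, hg⟩
    have hD : ∀ s, T s = false → F s g = 0 := by
      intro s hs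
      have h6 : g - 0 ∈ A (Sum.inl s) (T s) := hg (Sum.inl s)
      rw [sub_zero, hs] at h6
      have h7 : g ∈ (AddSubgroup.map (SigL E) (crd s).ker) ⊔ W (s.length + 1) := h6
      rw [AddSubgroup.mem_sup] at h7
      obtain ⟨_, ⟨v, hv, rfl⟩, w, hw, rfl⟩ := h7
      have hv' : v s = 0 := hv
      rw [map_add, hF1 s w hw, hFS, hv']
      simp
    have hC : ∀ s, F s g ≠ 0 → ∃ j, F (s ++ [j]) g ≠ 0 := by
      intro s hs
      have h6 : g - 0 ∈ (AddSubgroup.map (SigL E) (ell s).ker) ⊔ W (s.length + 2) :=
        hg (Sum.inr (Sum.inl s))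
      rw [sub_zero, AddSubgroup.mem_sup] at h6
      obtain ⟨_, ⟨v, hv, rfl⟩, w, hw, rfl⟩ := h6
      have hv' : ell s v = 0 := hv
      rw [map_add, hF1 s w (hanti (by omega) hw), hFS, add_zero, Ne, hFord] at hs
      obtain ⟨j, hj⟩ := ell_child p s v hv' hs
      refine ⟨j, ?_⟩
      rw [map_add, hF1 (s ++ [j]) w (by simpa using hw), hFS, add_zero, Ne, hFord]
      exact hj
    have hR : F [] g ≠ 0 := by
      have h6 : g - E [] ∈ (AddSubgroup.map (SigL E) (crd []).ker) ⊔ W 1 :=
        hg (Sum.inr (Sum.inr ()))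
      rw [AddSubgroup.mem_sup] at h6
      obtain ⟨_, ⟨v, hv, rfl⟩, w, hw, hvw⟩ := h6
      have hv' : v [] = 0 := hv
      have h7 : g = E [] + (SigL E v + w) := by rw [hvw]; abel
      rw [h7, map_add, map_add, hFS, hv', hF1 [] w hw]
      simpa using hF2 []
    have hch : ∀ s : List ℕ, ∃ j : ℕ, F s g ≠ 0 → F (s ++ [j]) g ≠ 0 := by
      intro s
      by_cases hs : F s g ≠ 0
      · obtain ⟨x, hx⟩ := hC s hs
        exact ⟨x, fun _ => hx⟩
      · exact ⟨0, fun h => absurd h hs⟩
    choose nxt hnxt using hch
    let σ : ℕ → List ℕ := fun n => Nat.rec [] (fun _ s => s ++ [nxt s]) n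
    have hσ : ∀ n, σ (n + 1) = σ n ++ [nxt (σ n)] := fun n => rfl
    have hσ1 : ∀ n, F (σ n) g ≠ 0 := by
      intro n
      induction n with
      | zero => exact hR
      | succ n ih => rw [hσ]; exact hnxt _ ih
    refine ⟨fun n => nxt (σ n), fun n => ?_⟩
    have hseg : ∀ n, seg (fun n => nxt (σ n)) n = σ n := by
      intro n
      induction n with
      | zero => rfl
      | succ n ih => rw [seg_succ, ih, hσ]
    rw [hseg]
    by_contra hcon
    exact hσ1 n (hD _ (by simpa using hcon))

end Pool.Agent.H72
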