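import Mathlib
import Pool.Agent.H72.IllFounded

set_option autoImplicit false

namespace Pool.Agent.H72

/-- variables of the integer coding -/
abbrev VV : Type := List (ℕ × Bool) × ℕ × Bool

/-- multipliers -/
def mm (b : Bool) : ℤ := if b then 3 else 2

/-- node values -/
def cc (z : VV → ℤ) (s : List (ℕ × Bool)) : ℤ := z (s, 0, false) + z (s, 0, true)

/-- The integer system attached to `T`. -/
def ZSol (T : List ℕ → Bool) (z : VV → ℤ) : Prop :=
  (∀ s j b, z (s, j, b) = mm b * z (s, j + 1, b) + cc z (s ++ [(j, b)])) ∧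
  (∀ s : List (ℕ × Bool), T (s.map Prod.fst) = false → cc z s = 0) ∧ cc z [] = 1

theorem exists_child (z : VV → ℤ)
    (h : ∀ s j b, z (s, j, b) = mm b * z (s, j + 1, b) + cc z (s ++ [(j, b)]))
    (s : List (ℕ × Bool)) (hs : cc z s ≠ 0) : ∃ x : ℕ × Bool, cc z (s ++ [x]) ≠ 0 := by
  by_contra hcon
  push Not at hcon
  have h1 : ∀ j b, z (s, 0, b) = mm b ^ j * z (s, j, b) := by
    intro j b
    induction j with
    | zero => simp
    | succ j ih => rw [ih, h s j b, hcon (j, b)]; ring
  have h2 : ∀ b, z (s, 0, b) = 0 := by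
    intro b
    by_contra hne
    have hm : 2 ≤ (mm b).natAbs := by cases b <;> simp [mm]
    have hdvd : ∀ j : ℕ, 2 ^ j ≤ (z (s, 0, b)).natAbs := by
      intro j
      have hd : (mm b) ^ j ∣ z (s, 0, b) := ⟨_, h1 j b⟩
      have hd' : ((mm b) ^ j).natAbs ∣ (z (s, 0, b)).natAbs := Int.natAbs_dvd_natAbs.2 hd
      have := Nat.le_of_dvd (Int.natAbs_pos.2 hne) hd'
      rw [Int.natAbs_pow] at this
      exact (Nat.pow_le_pow_left hm j).trans this
    have := hdvd (z (s, 0, b)).natAbs
    exact absurd (Nat.lt_two_pow_self (n := (z (s, 0, b)).natAbs)) (not_lt.2 this)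
  exact hs (by rw [cc, h2, h2, add_zero])

theorem illF_of_ZSol (T : List ℕ → Bool) (z : VV → ℤ) (hz : ZSol T z) : T ∈ IllF := by
  obtain ⟨h1, h2, h3⟩ := hz
  have hch : ∀ s : List (ℕ × Bool), ∃ x : ℕ × Bool, cc z s ≠ 0 → cc z (s ++ [x]) ≠ 0 := by
    intro s
    by_cases hs : cc z s ≠ 0
    · obtain ⟨x, hx⟩ := exists_child z h1 s hs
      exact ⟨x, fun _ => hx⟩
    · exact ⟨(0, false), fun h => absurd h hs⟩
  choose nxt hnxt using hch
  let σ : ℕ → List (ℕ × Bool) := fun n => Nat.rec [] (fun _ s => s ++ [nxt s]) n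
  have hσ : ∀ n, σ (n + 1) = σ n ++ [nxt (σ n)] := fun n => rfl
  have hσ1 : ∀ n, cc z (σ n) ≠ 0 := by
    intro n
    induction n with
    | zero => show cc z [] ≠ 0; rw [h3]; exact one_ne_zero
    | succ n ih => rw [hσ]; exact hnxt _ ih
  refine ⟨fun n => (nxt (σ n)).1, fun n => ?_⟩
  have hseg : ∀ n, seg (fun n => (nxt (σ n)).1) n = (σ n).map Prod.fst := by
    intro n
    induction n with
    | zero => rfl
    | succ n ih => rw [seg_succ, ih, hσ, List.map_append]; rfl
  rw [hseg]
  by_contra hcon
  exact hσ1 n (h2 _ (by simpa using hcon))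

/-- Bezout weights -/
theorem exists_weights : ∃ w : ℕ → Bool → ℤ, ∀ j, 2 ^ j * w j false + 3 ^ j * w j true = 1 := by
  have h : ∀ j : ℕ, ∃ u v : ℤ, 2 ^ j * u + 3 ^ j * v = 1 := by
    intro j
    have hc : IsCoprime (2 : ℤ) 3 := ⟨-1, 1, by norm_num⟩
    obtain ⟨u, v, huv⟩ := hc.pow (m := j) (n := j)
    exact ⟨u, v, by linarith⟩
  choose u v huv using h
  exact ⟨fun j b => if b then v j else u j, fun j => by simpa using huv j⟩

theorem exists_ZSol (T : List ℕ → Bool) (hT : T ∈ IllF) : ∃ z, ZSol T z := by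
  obtain ⟨β, hβ⟩ := hT
  obtain ⟨w, hw⟩ := exists_weights
  let f : ℕ → ℕ × Bool → ℤ := fun i x => if x.1 = β i then w x.1 x.2 else 0
  let c : List (ℕ × Bool) → ℤ := fun s => (s.mapIdx f).prod
  have hc : ∀ s x, c (s ++ [x]) = c s * f s.length x := by
    intro s x
    simp [c, List.mapIdx_append]
  let z : VV → ℤ := fun y => c y.1 *
    (if y.2.1 ≤ β y.1.length then (mm y.2.2) ^ (β y.1.length - y.2.1) * w (β y.1.length) y.2.2 else 0)
  have hcc : ∀ s, cc z s = c s := by
    intro s
    have := hw (β s.length)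
    simp only [cc, z, Nat.zero_le, if_true, Nat.sub_zero, mm]
    simp only [Bool.false_eq_true, if_false, if_true]
    rw [← mul_add, this, mul_one]
  refine ⟨z, ?_, ?_, ?_⟩
  · intro s j b
    rw [hcc, hc]
    simp only [z, f]
    rcases lt_trichotomy j (β s.length) with h | h | h
    · rw [if_pos h.le, if_pos (by omega : j + 1 ≤ β s.length), if_neg h.ne]
      have : β s.length - j = (β s.length - (j + 1)) + 1 := by omega
      rw [this, pow_succ]
      ring
    · rw [if_pos h.le, if_neg (by omega), if_pos h, h]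
      simp
    · rw [if_neg (by omega), if_neg (by omega), if_neg h.ne']
      simp
  · intro s hs
    rw [hcc]
    by_contra hne
    have key : ∀ s : List (ℕ × Bool), c s ≠ 0 → s.map Prod.fst = seg β s.length := by
      intro s
      induction s using List.reverseRecOn with
      | nil => intro _; rfl
      | append_singleton s x ih =>
        intro h
        rw [hc] at h
        have h1 := left_ne_zero_of_mul h
        have h2 := right_ne_zero_of_mul h
        have h3 : x.1 = β s.length := by
          by_contra hx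
          exact h2 (by simp [f, hx])
        rw [List.map_append, ih h1, List.length_append]
        simp only [List.map_cons, List.map_nil, List.length_cons, List.length_nil, zero_add]
        rw [seg_succ, h3]
    rw [key s hne, hβ] at hs
    exact Bool.noConfusion hs
  · rw [hcc]
    simp [c]

end Pool.Agent.H72
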