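import Mathlib
import Pool.Agent.H72.NB
import Pool.Agent.H72.ZComb

set_option autoImplicit false

namespace Pool.Agent.H72

open Topology Filter

section sig

variable {G : Type} [AddCommGroup G] {V : Type} [Encodable V]

/-- Finite integer combinations of the `e i`, indexed by `V`. -/
noncomputable def Sig (e : ℕ → G) : (V →₀ ℤ) →+ G :=
  Finsupp.liftAddHom (fun x : V => (zmultiplesHom G (e (Encodable.encode x))))

theorem Sig_apply (e : ℕ → G) (v : V →₀ ℤ) :
    Sig e v = v.sum (fun x c => c • e (Encodable.encode x)) := by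
  rw [Sig, Finsupp.liftAddHom_apply]
  rfl

theorem Sig_single (e : ℕ → G) (x : V) (c : ℤ) :
    Sig e (Finsupp.single x c) = c • e (Encodable.encode x) := by
  rw [Sig_apply, Finsupp.sum_single_index (by simp)]

theorem Sig_mem (e : ℕ → G) (W : ℕ → AddSubgroup G) (hanti : Antitone W) (he : ∀ i, e i ∈ W i)
    (m : ℕ) (v : V →₀ ℤ) (hv : ∀ x, Encodable.encode x < m → v x = 0) : Sig e v ∈ W m := by
  rw [Sig_apply]
  apply AddSubgroup.sum_mem
  intro x hx
  apply (W m).zsmul_mem
  have : m ≤ Encodable.encode x := by
    by_contra h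
    push Not at h
    exact (Finsupp.mem_support_iff.1 hx) (hv x h)
  exact hanti this (he _)

theorem Sig_coord (e : ℕ → G) (W : ℕ → AddSubgroup G) (hanti : Antitone W) (he : ∀ i, e i ∈ W i)
    (he' : ∀ i, ∀ n : ℕ, 0 < n → n • e i ∉ W (i + 1)) (K : ℕ) (v : V →₀ ℤ) (hv : Sig e v ∈ W K) :
    ∀ i, ∀ x, Encodable.encode x = i → i < K → v x = 0 := by
  classical
  intro i
  induction i using Nat.strong_induction_on with
  | _ i ih =>
    intro x hx hi
    by_contra hne
    have h1 : Sig e (v - Finsupp.single x (v x)) ∈ W (i + 1) := by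
      apply Sig_mem e W hanti he
      intro y hy
      rw [Finsupp.sub_apply]
      by_cases hxy : y = x
      · rw [hxy]; simp
      · have h2 : Encodable.encode y ≠ Encodable.encode x := fun h => hxy (Encodable.encode_injective h)
        rw [ih (Encodable.encode y) (by omega) y rfl (by omega),
          Finsupp.single_eq_of_ne hxy]
        simp
    rw [map_sub, Sig_single, hx] at h1
    have h2 : v x • e i ∈ W (i + 1) := by
      have : v x • e i = Sig e v - (Sig e v - v x • e i) := by abel
      rw [this]
      exact (W (i + 1)).sub_mem (hanti (by omega) hv) h1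
    apply he' i (v x).natAbs (Int.natAbs_pos.2 hne)
    rcases Int.natAbs_eq (v x) with h | h
    · rw [h, natCast_zsmul] at h2
      exact h2
    · rw [h, neg_smul, natCast_zsmul] at h2
      exact (AddSubgroup.neg_mem_iff _).1 h2

end sig

/-- evaluation of a coefficient vector -/
noncomputable def ev {V : Type} (c : V →₀ ℤ) (z : V → ℤ) : ℤ := Finsupp.linearCombination ℤ z c

theorem ev_eq {V : Type} (c : V →₀ ℤ) (z : V → ℤ) : ev c z = ∑ x ∈ c.support, c x * z x := by
  simp [ev, Finsupp.linearCombination_apply, Finsupp.sum]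

theorem ev_congr {V : Type} (c : V →₀ ℤ) (z z' : V → ℤ) (h : ∀ x ∈ c.support, z x = z' x) :
    ev c z = ev c z' := by
  rw [ev_eq, ev_eq]
  exact Finset.sum_congr rfl fun x hx => by rw [h x hx]

/-- the functional attached to a coefficient vector -/
noncomputable def evHom {V : Type} (c : V →₀ ℤ) : (V →₀ ℤ) →+ ℤ where
  toFun v := ev c v
  map_zero' := by rw [ev_eq]; simp
  map_add' u v := by
    rw [ev_eq, ev_eq, ev_eq, ← Finset.sum_add_distrib]
    exact Finset.sum_congr rfl fun x _ => by rw [Finsupp.add_apply, mul_add]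

/-- truncation -/
noncomputable def trunc {V : Type} [Encodable V] (z : V → ℤ) (n : ℕ) : V →₀ ℤ :=
  Finsupp.onFinset ((Set.Finite.preimage (Encodable.encode_injective.injOn)
    (Set.finite_Iio n)).toFinset) (fun x => if Encodable.encode x < n then z x else 0) (by
      intro x hx
      simp only [ne_eq, ite_eq_right_iff, Classical.not_imp] at hx
      simpa using hx.1)

theorem trunc_apply {V : Type} [Encodable V] (z : V → ℤ) (n : ℕ) (x : V) :
    trunc z n x = if Encodable.encode x < n then z x else 0 := rfl

/-- **Solvability of countable integer systems is Borel** if a tame group has elements of infinite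
order in arbitrarily small successive quotients. -/
theorem ZSys {G : Type} [AddCommGroup G] [TopologicalSpace G] [IsTopologicalAddGroup G]
    [PolishSpace G] (hG : Tame G) (W : ℕ → AddSubgroup G) (hopen : ∀ n, IsOpen (W n : Set G))
    (hanti : Antitone W) (hbase : ∀ U ∈ 𝓝 (0 : G), ∃ n, (W n : Set G) ⊆ U)
    (e : ℕ → G) (he : ∀ i, e i ∈ W i) (he' : ∀ i, ∀ n : ℕ, 0 < n → n • e i ∉ W (i + 1))
    {V : Type} [Encodable V] {J : Type} [Countable J] (c : J → V →₀ ℤ) (v0 : J → V →₀ ℤ) :
    MeasurableSet {T : J → Bool | ∃ z : V → ℤ, ∀ j, T j = true → ev (c j) z = ev (c j) (v0 j)} := by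
  classical
  have hlim := fun g hg => exists_limit W hopen hanti hbase g hg
  -- bounds
  have hK : ∀ j, ∃ K : ℕ, ∀ x ∈ (c j).support, Encodable.encode x < K := by
    intro j
    refine ⟨(c j).support.sup Encodable.encode + 1, fun x hx => ?_⟩
    exact Nat.lt_succ_of_le (Finset.le_sup (f := Encodable.encode) hx)
  choose K hK using hK
  let A : (J ⊕ ℕ) → Bool → AddSubgroup G := fun i b =>
    match i with
    | Sum.inl j => if b then (AddSubgroup.map (Sig e) (evHom (c j)).ker) ⊔ W (K j) else ⊤
    | Sum.inr k => (Sig (V := V) e).range ⊔ W k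
  let a : (J ⊕ ℕ) → Bool → G := fun i b =>
    match i with
    | Sum.inl j => if b then Sig e (v0 j) else 0
    | Sum.inr _ => 0
  have hA : ∀ i b, IsOpen (A i b : Set G) := by
    intro i b
    rcases i with j | k
    · cases b
      · simp only [A]
        simp
      · simp only [A, if_true]
        exact AddSubgroup.isOpen_mono (le_sup_right) (hopen (K j))
    · simp only [A]
      exact AddSubgroup.isOpen_mono (le_sup_right) (hopen k)
  have hm := borel_of_tame hG A hA a
  let ψ : (J → Bool) → (J ⊕ ℕ → Bool) := fun T => Sum.elim T (fun _ => true)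
  have hψ : Measurable ψ := by
    rw [measurable_pi_iff]
    rintro (j | k)
    · exact measurable_pi_apply (X := fun _ : J => Bool) j
    · exact measurable_const
  convert hψ hm using 1
  ext T
  simp only [Set.mem_ofPred_eq, Set.mem_preimage]
  constructor
  · rintro ⟨z, hz⟩
    obtain ⟨g, hg⟩ := hlim (fun n => Sig e (trunc z n)) (by
      intro n
      rw [← map_sub]
      apply Sig_mem e W hanti he
      intro x hx
      rw [Finsupp.sub_apply, trunc_apply, trunc_apply, if_pos hx, if_pos (by omega), sub_self])
    refine ⟨g, ?_⟩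
    rintro (j | k)
    · by_cases hj : T j = true
      · show g - a (Sum.inl j) (T j) ∈ A (Sum.inl j) (T j)
        rw [hj]
        simp only [a, A, if_true]
        rw [AddSubgroup.mem_sup]
        refine ⟨Sig e (trunc z (K j) - v0 j), ⟨trunc z (K j) - v0 j, ?_, rfl⟩,
          g - Sig e (trunc z (K j)), hg (K j), ?_⟩
        · show (evHom (c j)) (trunc z (K j) - v0 j) = 0
          rw [map_sub, sub_eq_zero]
          show ev (c j) (trunc z (K j)) = ev (c j) (v0 j)
          rw [← hz j hj]
          apply ev_congr
          intro x hx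
          rw [trunc_apply, if_pos (hK j x hx)]
        · rw [map_sub]
          abel
      · show g - a (Sum.inl j) (T j) ∈ A (Sum.inl j) (T j)
        have hj' : T j = false := by simpa using hj
        rw [hj']
        simp [a, A]
    · show g - a (Sum.inr k) true ∈ A (Sum.inr k) true
      simp only [a, A, sub_zero]
      rw [AddSubgroup.mem_sup]
      exact ⟨Sig e (trunc z k), ⟨_, rfl⟩, g - Sig e (trunc z k), hg k, by abel⟩
  · rintro ⟨g, hg⟩
    have hrep : ∀ k : ℕ, ∃ v : V →₀ ℤ, g - Sig e v ∈ W k := by
      intro k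
      have h1 : g - a (Sum.inr k) true ∈ A (Sum.inr k) true := hg (Sum.inr k)
      simp only [a, A, sub_zero] at h1
      rw [AddSubgroup.mem_sup] at h1
      obtain ⟨_, ⟨v, rfl⟩, w, hw, hvw⟩ := h1
      refine ⟨v, ?_⟩
      rw [← hvw]
      simpa using hw
    choose vk hvk using hrep
    refine ⟨fun x => vk (Encodable.encode x + 1) x, fun j hj => ?_⟩
    have h1 : g - a (Sum.inl j) (T j) ∈ A (Sum.inl j) (T j) := hg (Sum.inl j)
    rw [hj] at h1
    simp only [a, A, if_true] at h1
    rw [AddSubgroup.mem_sup] at h1
    obtain ⟨_, ⟨u, hu, rfl⟩, w, hw, huw⟩ := h1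
    have hrep2 : g - Sig e (v0 j + u) ∈ W (K j) := by
      rw [map_add]
      have : g - (Sig e (v0 j) + Sig e u) = w := by
        rw [← sub_sub, ← huw]; abel
      rw [this]
      exact hw
    have hcoord : ∀ x ∈ (c j).support, vk (Encodable.encode x + 1) x = (v0 j + u) x := by
      intro x hx
      have hlt := hK j x hx
      have h2 : Sig e (vk (Encodable.encode x + 1) - (v0 j + u)) ∈ W (Encodable.encode x + 1) := by
        have h3 := hanti (show Encodable.encode x + 1 ≤ K j by omega) hrep2
        have h4 := (W _).sub_mem h3 (hvk (Encodable.encode x + 1))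
        rw [map_sub]
        have : g - Sig e (v0 j + u) - (g - Sig e (vk (Encodable.encode x + 1))) =
          Sig e (vk (Encodable.encode x + 1)) - Sig e (v0 j + u) := by abel
        rwa [this] at h4
      have h5 := Sig_coord e W hanti he he' _ _ h2 (Encodable.encode x) x rfl (Nat.lt_succ_self _)
      rw [Finsupp.sub_apply, sub_eq_zero] at h5
      exact h5
    rw [ev_congr (c j) _ _ hcoord]
    have h6 : ev (c j) ((v0 j + u : V →₀ ℤ)) = ev (c j) (v0 j) + ev (c j) u :=
      (evHom (c j)).map_add (v0 j) u
    have h7 : ev (c j) u = 0 := hu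
    rw [h6, h7, add_zero]

/-- **Torsion**: a tame group cannot have elements of infinite order in arbitrarily small successive
quotients. -/
theorem Zcase {G : Type} [AddCommGroup G] [TopologicalSpace G] [IsTopologicalAddGroup G]
    [PolishSpace G] (hG : Tame G) (W : ℕ → AddSubgroup G) (hopen : ∀ n, IsOpen (W n : Set G))
    (hanti : Antitone W) (hbase : ∀ U ∈ 𝓝 (0 : G), ∃ n, (W n : Set G) ⊆ U)
    (e : ℕ → G) (he : ∀ i, e i ∈ W i) (he' : ∀ i, ∀ n : ℕ, 0 < n → n • e i ∉ W (i + 1)) :
    False := by
  classical
  let J : Type := VV ⊕ (List (ℕ × Bool) ⊕ Unit)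
  have hJ : Countable J := inferInstanceAs (Countable (VV ⊕ (List (ℕ × Bool) ⊕ Unit)))
  let c : J → VV →₀ ℤ := fun j =>
    match j with
    | Sum.inl x => Finsupp.single x 1 - Finsupp.single (x.1, x.2.1 + 1, x.2.2) (mm x.2.2)
        - Finsupp.single (x.1 ++ [(x.2.1, x.2.2)], 0, false) 1
        - Finsupp.single (x.1 ++ [(x.2.1, x.2.2)], 0, true) 1
    | Sum.inr (Sum.inl s) => Finsupp.single (s, 0, false) 1 + Finsupp.single (s, 0, true) 1
    | Sum.inr (Sum.inr _) => Finsupp.single ([], 0, false) 1 + Finsupp.single ([], 0, true) 1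
  let v0 : J → VV →₀ ℤ := fun j =>
    match j with
    | Sum.inl _ => 0
    | Sum.inr (Sum.inl _) => 0
    | Sum.inr (Sum.inr _) => Finsupp.single ([], 0, false) 1
  have hm := ZSys hG W hopen hanti hbase e he he' c v0
  let ψ : (List ℕ → Bool) → (J → Bool) := fun T j =>
    match j with
    | Sum.inl _ => true
    | Sum.inr (Sum.inl s) => !(T (s.map Prod.fst))
    | Sum.inr (Sum.inr _) => true
  have hψ : Measurable ψ := by
    rw [measurable_pi_iff]
    rintro (x | s | u)
    · exact measurable_const
    · have h1 : Measurable (fun b : Bool => !b) := measurable_from_top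
      exact h1.comp (measurable_pi_apply (X := fun _ : List ℕ => Bool) (s.map Prod.fst))
    · exact measurable_const
  apply not_measurable_IllF
  convert hψ hm using 1
  ext T
  have hz0 : ∀ c : VV →₀ ℤ, ev c ((0 : VV →₀ ℤ)) = 0 := by
    intro c; rw [ev_eq]; simp
  have key : ∀ z : VV → ℤ, ZSol T z ↔ ∀ j, ψ T j = true → ev (c j) z = ev (c j) (v0 j) := by
    intro z
    constructor
    · rintro ⟨h1, h2, h3⟩ (x | s | u) hj
      · show ev (c (Sum.inl x)) z = ev (c (Sum.inl x)) ((0 : VV →₀ ℤ))
        rw [hz0]
        have h4 := h1 x.1 x.2.1 x.2.2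
        simp only [cc] at h4
        simp only [ev, c, map_sub, Finsupp.linearCombination_single, smul_eq_mul, one_mul]
        have h5 : z x = z (x.1, x.2.1, x.2.2) := rfl
        rw [h5]
        linarith
      · show ev (c (Sum.inr (Sum.inl s))) z = ev (c (Sum.inr (Sum.inl s))) ((0 : VV →₀ ℤ))
        rw [hz0]
        have h4 : T (s.map Prod.fst) = false := by simpa [ψ] using hj
        have h5 := h2 s h4
        simp only [ev, c, map_add, Finsupp.linearCombination_single, smul_eq_mul, one_mul]
        exact h5
      · show ev (c (Sum.inr (Sum.inr u))) z =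
          ev (c (Sum.inr (Sum.inr u))) ((Finsupp.single ([], 0, false) 1 : VV →₀ ℤ))
        simp only [ev, c, map_add, Finsupp.linearCombination_single, smul_eq_mul, one_mul]
        simp only [cc] at h3
        rw [h3]
        simp [Finsupp.single_apply]
    · intro h
      refine ⟨?_, ?_, ?_⟩
      · intro s j b
        have h1 : ev (c (Sum.inl (s, j, b))) z = ev (c (Sum.inl (s, j, b))) ((0 : VV →₀ ℤ)) :=
          h (Sum.inl (s, j, b)) rfl
        rw [hz0] at h1
        simp only [ev, c, map_sub, Finsupp.linearCombination_single, smul_eq_mul, one_mul] at h1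
        simp only [cc]
        linarith
      · intro s hs
        have h1 : ev (c (Sum.inr (Sum.inl s))) z = ev (c (Sum.inr (Sum.inl s))) ((0 : VV →₀ ℤ)) :=
          h (Sum.inr (Sum.inl s)) (by simp [ψ, hs])
        rw [hz0] at h1
        simp only [ev, c, map_add, Finsupp.linearCombination_single, smul_eq_mul, one_mul] at h1
        exact h1
      · have h1 : ev (c (Sum.inr (Sum.inr ()))) z =
          ev (c (Sum.inr (Sum.inr ()))) ((Finsupp.single ([], 0, false) 1 : VV →₀ ℤ)) :=
          h (Sum.inr (Sum.inr ())) rfl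
        simp only [ev, c, map_add, Finsupp.linearCombination_single, smul_eq_mul, one_mul] at h1
        simp only [cc]
        rw [h1]
        simp [Finsupp.single_apply]
  simp only [Set.mem_ofPred_eq, Set.mem_preimage]
  constructor
  · intro hT
    obtain ⟨z, hz⟩ := exists_ZSol T hT
    exact ⟨z, (key z).1 hz⟩
  · rintro ⟨z, hz⟩
    exact illF_of_ZSol T z ((key z).2 hz)

end Pool.Agent.H72
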