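import Mathlib
import Pool.Agent.H72.ZCase
import Pool.Agent.H72.PCase

set_option autoImplicit false

namespace Pool.Agent.H72

open Topology Filter

/-- A decreasing neighbourhood base of open subgroups. -/
theorem exists_base (G : Type) [AddCommGroup G] [TopologicalSpace G] [PolishSpace G]
    [NonarchimedeanAddGroup G] :
    ∃ U : ℕ → AddSubgroup G, (∀ n, IsOpen (U n : Set G)) ∧ Antitone U ∧
      ∀ S ∈ 𝓝 (0 : G), ∃ n, (U n : Set G) ⊆ S := by
  obtain ⟨x, hx⟩ := (𝓝 (0 : G)).exists_antitone_basis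
  have hV : ∀ n, ∃ V : OpenAddSubgroup G, (V : Set G) ⊆ x n := fun n =>
    NonarchimedeanAddGroup.is_nonarchimedean _ (hx.1.mem_of_mem trivial)
  choose V hV using hV
  let U : ℕ → AddSubgroup G := fun n =>
    Nat.rec (V 0).toAddSubgroup (fun k s => s ⊓ (V (k + 1)).toAddSubgroup) n
  have hU0 : U 0 = (V 0).toAddSubgroup := rfl
  have hU : ∀ n, U (n + 1) = U n ⊓ (V (n + 1)).toAddSubgroup := fun n => rfl
  refine ⟨U, ?_, ?_, ?_⟩
  · intro n
    induction n with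
    | zero => rw [hU0]; exact (V 0).isOpen
    | succ n ih =>
      rw [hU, AddSubgroup.coe_inf]
      exact ih.inter (V (n + 1)).isOpen
  · apply antitone_nat_of_succ_le
    intro n
    rw [hU]
    exact inf_le_left
  · intro S hS
    obtain ⟨n, -, hn⟩ := hx.1.mem_iff.1 hS
    refine ⟨n, Set.Subset.trans ?_ ((hV n).trans hn)⟩
    cases n with
    | zero => exact Set.Subset.refl _
    | succ n =>
      rw [hU, AddSubgroup.coe_inf]
      exact Set.inter_subset_right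

/-- Thinning out. -/
theorem exists_thin (nx : ℕ → ℕ) (hnx : ∀ m, m < nx m) :
    ∃ r : ℕ → ℕ, StrictMono r ∧ ∀ i, r (i + 1) = nx (r i) := by
  refine ⟨fun i => Nat.rec 0 (fun _ m => nx m) i, ?_, fun i => rfl⟩
  apply strictMono_nat_of_lt_succ
  intro i
  exact hnx _

variable {G : Type} [AddCommGroup G] [TopologicalSpace G] [IsTopologicalAddGroup G] [PolishSpace G]

theorem torsion_of_tame (hG : Tame G) (U : ℕ → AddSubgroup G) (hopen : ∀ n, IsOpen (U n : Set G))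
    (hanti : Antitone U) (hbase : ∀ S ∈ 𝓝 (0 : G), ∃ n, (U n : Set G) ⊆ S) :
    ∃ N, ∀ g ∈ U N, ∀ k, ∃ n : ℕ, 0 < n ∧ n • g ∈ U k := by
  by_contra hcon
  push Not at hcon
  choose g hg k hk using hcon
  obtain ⟨r, hr, hr'⟩ := exists_thin (fun m => max (k m) (m + 1)) (fun m => by simp)
  refine Zcase hG (fun i => U (r i)) (fun i => hopen _) (fun i j hij => hanti (hr.monotone hij)) ?_
    (fun i => g (r i)) (fun i => hg _) ?_
  · intro S hS
    obtain ⟨n, hn⟩ := hbase S hS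
    exact ⟨n, Set.Subset.trans (hanti (hr.id_le n)) hn⟩
  · intro i n hn hmem
    refine hk (r i) n hn (hanti ?_ hmem)
    rw [hr']
    exact le_max_left _ _

theorem finite_of_tame (hG : Tame G) (U : ℕ → AddSubgroup G) (hopen : ∀ n, IsOpen (U n : Set G))
    (hanti : Antitone U) (hbase : ∀ S ∈ 𝓝 (0 : G), ∃ n, (U n : Set G) ⊆ S)
    (htors : ∀ g ∈ U 0, ∀ k, ∃ n : ℕ, 0 < n ∧ n • g ∈ U k) (p : ℕ) (hp : p.Prime) :
    ∃ m, ∀ k, FinMod {u : G | u ∈ U m ∧ p • u ∈ U k} (U k) := by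
  by_contra hcon
  push Not at hcon
  choose k hk using hcon
  have hlt : ∀ m, m < k m := by
    intro m
    by_contra h
    push Not at h
    apply hk m
    apply (Set.finite_singleton (0 : G ⧸ U (k m))).subset
    rintro _ ⟨u, hu, rfl⟩
    exact (QuotientAddGroup.eq_zero_iff u).2 (hanti h hu.1)
  obtain ⟨r, hr, hr'⟩ := exists_thin k hlt
  refine Pcase hG (fun i => U (r i)) (fun i => hopen _) (fun i j hij => hanti (hr.monotone hij)) ?_
    ?_ p hp ?_
  · intro S hS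
    obtain ⟨n, hn⟩ := hbase S hS
    exact ⟨n, Set.Subset.trans (hanti (hr.id_le n)) hn⟩
  · intro g hg i
    exact htors g (hanti (Nat.zero_le _) hg) (r i)
  · intro i
    show ¬ FinMod {u : G | u ∈ U (r i) ∧ p • u ∈ U (r (i + 1))} (U (r (i + 1)))
    rw [hr']
    exact hk (r i)

/-- **Structure of tame groups.** -/
theorem structure_of_tame (G : Type) [AddCommGroup G] [TopologicalSpace G] [PolishSpace G]
    [NonarchimedeanAddGroup G] (hG : Tame G) :
    ∃ W : ℕ → AddSubgroup G, (∀ n, IsOpen (W n : Set G)) ∧ Antitone W ∧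
      (∀ S ∈ 𝓝 (0 : G), ∃ n, (W n : Set G) ⊆ S) ∧
      (∀ g ∈ W 0, ∀ k, ∃ n : ℕ, 0 < n ∧ n • g ∈ W k) ∧
      (∀ p : ℕ, p.Prime → ∃ m, ∀ k, FinMod {u : G | u ∈ W m ∧ p • u ∈ W k} (W k)) := by
  obtain ⟨U, h1, h2, h3⟩ := exists_base G
  obtain ⟨N, hN⟩ := torsion_of_tame hG U h1 h2 h3
  have a1 : ∀ n, IsOpen (U (N + n) : Set G) := fun n => h1 _
  have a2 : Antitone (fun n => U (N + n)) := fun i j hij => h2 (by omega)
  have a3 : ∀ S ∈ 𝓝 (0 : G), ∃ n, (U (N + n) : Set G) ⊆ S := by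
    intro S hS
    obtain ⟨n, hn⟩ := h3 S hS
    exact ⟨n, Set.Subset.trans (h2 (by omega)) hn⟩
  have a4 : ∀ g ∈ U (N + 0), ∀ k, ∃ n : ℕ, 0 < n ∧ n • g ∈ U (N + k) := fun g hg k => hN g hg _
  exact ⟨fun n => U (N + n), a1, a2, a3, a4, fun p hp => finite_of_tame hG _ a1 a2 a3 a4 p hp⟩

end Pool.Agent.H72
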