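import Mathlib
import Pool.Agent.H72.Base

set_option autoImplicit false

namespace Pool.Agent.H72

open Topology Filter

/-- criterion for finiteness modulo a subgroup -/
theorem finMod_of {G : Type*} [AddCommGroup G] (X : Set G) (W : AddSubgroup G) {Z : Type*}
    (φ : G → Z) (hφ : ∀ x ∈ X, ∀ y ∈ X, φ x = φ y → -x + y ∈ W) (hfin : (φ '' X).Finite) :
    FinMod X W := by
  classical
  show ((QuotientAddGroup.mk : G → G ⧸ W) '' X).Finite
  have hch : ∀ z : Z, ∃ g : G, z ∈ φ '' X → g ∈ X ∧ φ g = z := by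
    intro z
    by_cases hz : z ∈ φ '' X
    · obtain ⟨g, hg, rfl⟩ := hz
      exact ⟨g, fun _ => ⟨hg, rfl⟩⟩
    · exact ⟨0, fun h => absurd h hz⟩
  choose c hc using hch
  apply (hfin.image (fun z => (QuotientAddGroup.mk (c z) : G ⧸ W))).subset
  rintro _ ⟨x, hx, rfl⟩
  refine ⟨φ x, ⟨x, hx, rfl⟩, ?_⟩
  obtain ⟨h1, h2⟩ := hc (φ x) ⟨x, hx, rfl⟩
  exact QuotientAddGroup.eq.2 (hφ _ h1 _ hx h2)

/-- A maximal subgroup meeting `V` in `W`. -/
theorem exists_maxsub {G : Type*} [AddCommGroup G] (V W : AddSubgroup G) :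
    ∃ K : AddSubgroup G, W ≤ K ∧ K ⊓ V ≤ W ∧
      ∀ g, g ∉ K → ∃ n : ℤ, ∃ k ∈ K, k + n • g ∈ V ∧ k + n • g ∉ W := by
  obtain ⟨K, hWK, hK, hmax⟩ := zorn_le_nonempty₀ {K : AddSubgroup G | W ≤ K ∧ K ⊓ V ≤ W} (by
    intro c hc hchain y hy
    refine ⟨sSup c, ⟨(hc hy).1.trans (le_sSup hy), ?_⟩, fun z hz => le_sSup hz⟩
    rintro x ⟨hx0, hxV⟩
    have hx : x ∈ sSup c := hx0
    rw [AddSubgroup.mem_sSup_of_directedOn ⟨y, hy⟩ hchain.directedOn] at hx
    obtain ⟨K, hK, hxK⟩ := hx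
    exact (hc hK).2 ⟨hxK, hxV⟩) W ⟨le_rfl, inf_le_left⟩
  refine ⟨K, hK.1, hK.2, fun g hg => ?_⟩
  by_contra hcon
  push Not at hcon
  apply hg
  have h1 : K ⊔ AddSubgroup.zmultiples g ∈ {K : AddSubgroup G | W ≤ K ∧ K ⊓ V ≤ W} := by
    refine ⟨hK.1.trans le_sup_left, ?_⟩
    rintro x ⟨hx0, hxV⟩
    have hx : x ∈ K ⊔ AddSubgroup.zmultiples g := hx0
    rw [AddSubgroup.mem_sup] at hx
    obtain ⟨k, hk, z, hz, rfl⟩ := hx
    obtain ⟨n, rfl⟩ := AddSubgroup.mem_zmultiples_iff.1 hz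
    exact hcon n k hk hxV
  exact hmax h1 le_sup_left (AddSubgroup.mem_sup_right (AddSubgroup.mem_zmultiples g))

theorem quot_torsion {G : Type*} [AddCommGroup G] (V W K : AddSubgroup G) (hWK : W ≤ K)
    (hKV : K ⊓ V ≤ W)
    (hmax : ∀ g, g ∉ K → ∃ n : ℤ, ∃ k ∈ K, k + n • g ∈ V ∧ k + n • g ∉ W)
    (htors : ∀ v ∈ V, ∃ n : ℕ, 0 < n ∧ n • v ∈ W) (g : G) : ∃ n : ℕ, 0 < n ∧ n • g ∈ K := by
  by_cases hg : g ∈ K
  · exact ⟨1, one_pos, by rwa [one_smul]⟩
  obtain ⟨n, k, hk, hV, hW⟩ := hmax g hg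
  have hn : n ≠ 0 := by
    rintro rfl
    rw [zero_smul, add_zero] at hV hW
    exact hW (hKV ⟨hk, hV⟩)
  obtain ⟨n', hn', hmem⟩ := htors _ hV
  have h1 : ((n' : ℤ) * n) • g ∈ K := by
    have h2 : ((n' : ℤ) * n) • g = n' • (k + n • g) - n' • k := by
      rw [nsmul_add, add_sub_cancel_left, mul_smul, natCast_zsmul]
    rw [h2]
    exact K.sub_mem (hWK hmem) (K.nsmul_mem hk _)
  refine ⟨((n' : ℤ) * n).natAbs, Int.natAbs_pos.2 (mul_ne_zero (by exact_mod_cast hn'.ne') hn), ?_⟩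
  rcases Int.natAbs_eq ((n' : ℤ) * n) with h | h
  · rw [h, natCast_zsmul] at h1
    exact h1
  · rw [h, neg_smul, natCast_zsmul] at h1
    exact (AddSubgroup.neg_mem_iff _).1 h1

theorem quot_ptors {G : Type*} [AddCommGroup G] (V W K : AddSubgroup G)
    (hKV : K ⊓ V ≤ W)
    (hmax : ∀ g, g ∉ K → ∃ n : ℤ, ∃ k ∈ K, k + n • g ∈ V ∧ k + n • g ∉ W)
    (p : ℕ) (hp : p.Prime) (g : G) (hg : p • g ∈ K) : ∃ u ∈ V, p • u ∈ W ∧ -u + g ∈ K := by
  by_cases hgK : g ∈ K
  · exact ⟨0, V.zero_mem, by rw [nsmul_zero]; exact W.zero_mem, by simpa using hgK⟩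
  obtain ⟨n, k, hk, hV, hW⟩ := hmax g hgK
  have hpn : ¬ (p : ℤ) ∣ n := by
    rintro ⟨c, rfl⟩
    apply hW
    apply hKV
    refine ⟨K.add_mem hk ?_, hV⟩
    rw [mul_comm, mul_smul, natCast_zsmul]
    exact K.zsmul_mem hg c
  have hcop : IsCoprime n (p : ℤ) := by
    rw [Int.isCoprime_iff_gcd_eq_one, Int.gcd_comm]
    have h1 : IsCoprime (p : ℤ) n := by
      rw [(Nat.prime_iff_prime_int.1 hp).coprime_iff_not_dvd]
      exact hpn
    exact Int.isCoprime_iff_gcd_eq_one.1 h1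
  obtain ⟨a, b, hab⟩ := hcop
  refine ⟨a • (k + n • g), V.zsmul_mem hV a, ?_, ?_⟩
  · rw [smul_comm p a]
    apply W.zsmul_mem
    apply hKV
    refine ⟨?_, V.nsmul_mem hV p⟩
    show p • (k + n • g) ∈ K
    rw [nsmul_add]
    apply K.add_mem (K.nsmul_mem hk p)
    rw [smul_comm p n]
    exact K.zsmul_mem hg n
  · have h1 : -(a • (k + n • g)) + g = -(a • k) + b • ((p : ℤ) • g) := by
      have h2 : g = (a * n + b * p) • g := by rw [hab, one_smul]
      nth_rw 2 [h2]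
      rw [smul_add, add_smul, mul_smul, mul_smul]
      abel
    rw [h1, natCast_zsmul]
    exact K.add_mem (K.neg_mem (K.zsmul_mem hk a)) (K.zsmul_mem hg b)

/-- subgroups of a product given by the vanishing of the first coordinates -/
def WP (H : ℕ → Type) [∀ n, AddCommGroup (H n)] (k : ℕ) : AddSubgroup ((n : ℕ) → H n) where
  carrier := {x | ∀ i ≤ k, x i = 0}
  zero_mem' := fun _ _ => rfl
  add_mem' := by
    intro a b ha hb i hi
    rw [Pi.add_apply, ha i hi, hb i hi, add_zero]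
  neg_mem' := by
    intro a ha i hi
    rw [Pi.neg_apply, ha i hi, neg_zero]

theorem isOpen_agree (H : ℕ → Type) [∀ n, TopologicalSpace (H n)] [∀ n, DiscreteTopology (H n)]
    (x : (n : ℕ) → H n) (k : ℕ) : IsOpen {y : (n : ℕ) → H n | ∀ i ≤ k, y i = x i} := by
  have : {y : (n : ℕ) → H n | ∀ i ≤ k, y i = x i} = (Set.Iic k).pi (fun i => {x i}) := by
    ext y
    simp [Set.mem_pi]
  rw [this]
  exact isOpen_set_pi (Set.finite_Iic k) (fun i _ => isOpen_discrete _)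

theorem tame_prod (H : ℕ → Type) [∀ n, AddCommGroup (H n)] [∀ n, TopologicalSpace (H n)]
    [∀ n, DiscreteTopology (H n)] [∀ n, Countable (H n)]
    (ht : ∀ n, ∀ x : H (n + 1), ∃ k : ℕ, 0 < k ∧ k • x = 0)
    (hf : ∀ p : ℕ, p.Prime → ∃ m, ∀ n, m ≤ n → {x : H (n + 1) | p • x = 0}.Finite) :
    Tame ((n : ℕ) → H n) := by
  have hP : PolishSpace ((n : ℕ) → H n) := by
    have h1 : SecondCountableTopology ((n : ℕ) → H n) := inferInstance
    have h2 : TopologicalSpace.IsCompletelyMetrizableSpace ((n : ℕ) → H n) := inferInstance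
    exact { h1, h2 with }
  have hanti : Antitone (WP H) := fun i j hij x hx l hl => hx l (hl.trans hij)
  apply tame_of (WP H) (fun k => isOpen_agree H 0 k) hanti
  · intro S hS
    rw [nhds_pi, Filter.mem_pi] at hS
    obtain ⟨I, hI, t, ht, hIt⟩ := hS
    obtain ⟨k, hk⟩ := hI.bddAbove
    refine ⟨k, Set.Subset.trans ?_ hIt⟩
    intro x hx i hi
    have : x i = 0 := hx i (hk hi)
    rw [this]
    exact mem_of_mem_nhds (ht i)
  · intro x hx k
    choose n hn hnx using fun i => ht i (x (i + 1))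
    refine ⟨∏ i ∈ Finset.range k, n i, Finset.prod_pos fun i _ => hn i, ?_⟩
    intro i hi
    rw [Pi.smul_apply]
    cases i with
    | zero =>
      have : x 0 = 0 := hx 0 le_rfl
      rw [this, nsmul_zero]
    | succ i =>
      rw [← Finset.prod_erase_mul _ _ (Finset.mem_range.2 hi), mul_nsmul', hnx, nsmul_zero]
  · intro p hp
    obtain ⟨m, hm⟩ := hf p hp
    refine ⟨m, fun k => ?_⟩
    apply finMod_of _ _ (fun x => fun i : Fin (k + 1) => x i)
    · intro x _ y _ hxy i hi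
      have : x i = y i := congrFun hxy ⟨i, by omega⟩
      rw [Pi.add_apply, Pi.neg_apply, this, neg_add_cancel]
    · have h1 : {z : (i : Fin (k + 1)) → H i | ∀ i : Fin (k + 1), z i ∈
          {u : H i | ((i : ℕ) ≤ m → u = 0) ∧ p • u = 0}}.Finite := by
        apply Set.Finite.pi'
        intro i
        by_cases him : (i : ℕ) ≤ m
        · apply (Set.finite_singleton (0 : H i)).subset
          intro u hu
          exact hu.1 him
        · obtain ⟨n, hn⟩ : ∃ n, (i : ℕ) = n + 1 := ⟨(i : ℕ) - 1, by omega⟩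
          rw [hn]
          exact (hm n (by omega)).subset (fun u hu => hu.2)
      apply h1.subset
      rintro _ ⟨x, hx, rfl⟩ i
      refine ⟨fun h => hx.1 i h, ?_⟩
      have := hx.2 i (by omega)
      exact this

theorem exists_embedding (G : Type) [AddCommGroup G] [TopologicalSpace G] [IsTopologicalAddGroup G]
    [PolishSpace G] (W : ℕ → AddSubgroup G)
    (hopen : ∀ n, IsOpen (W n : Set G)) (hanti : Antitone W)
    (hbase : ∀ U ∈ 𝓝 (0 : G), ∃ n, (W n : Set G) ⊆ U)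
    (htors : ∀ g ∈ W 0, ∀ k, ∃ n : ℕ, 0 < n ∧ n • g ∈ W k)
    (hfin : ∀ p : ℕ, p.Prime → ∃ m, ∀ k, FinMod {u : G | u ∈ W m ∧ p • u ∈ W k} (W k)) :
    ∃ (H : ℕ → Type) (_ : ∀ n, AddCommGroup (H n)) (_ : ∀ n, TopologicalSpace (H n)),
      (∀ n, DiscreteTopology (H n)) ∧ (∀ n, Countable (H n)) ∧ Tame ((n : ℕ) → H n) ∧
      ∃ f : G →+ ((n : ℕ) → H n), Topology.IsClosedEmbedding f := by
  obtain ⟨K, hK0, hK1, hK2, hK3⟩ : ∃ K : ℕ → AddSubgroup G, K 0 = W 0 ∧
      (∀ m, W (m + 1) ≤ K (m + 1)) ∧ (∀ m, K (m + 1) ⊓ W m ≤ W (m + 1)) ∧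
      (∀ m, ∀ g, g ∉ K (m + 1) → ∃ n : ℤ, ∃ k ∈ K (m + 1), k + n • g ∈ W m ∧ k + n • g ∉ W (m + 1)) := by
    choose Kf hK1 hK2 hK3 using fun m => exists_maxsub (W m) (W (m + 1))
    exact ⟨fun n => Nat.casesOn n (W 0) Kf, rfl, hK1, hK2, hK3⟩
  have hWK : ∀ n, W n ≤ K n := by
    intro n
    cases n with
    | zero => exact hK0.ge
    | succ n => exact hK1 n
  have hKW : ∀ k g, (∀ i ≤ k, g ∈ K i) → g ∈ W k := by
    intro k
    induction k with
    | zero => intro g hg; rw [← hK0]; exact hg 0 le_rfl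
    | succ k ih =>
      intro g hg
      exact hK2 k ⟨hg (k + 1) le_rfl, ih g (fun i hi => hg i (by omega))⟩
  have hKopen : ∀ n : ℕ, IsOpen ((K n : AddSubgroup G) : Set G) := by
    intro n
    exact AddSubgroup.isOpen_mono (hWK n) (hopen n)
  have hdisc : ∀ n, DiscreteTopology (G ⧸ K n) := fun n => QuotientAddGroup.discreteTopology (hKopen n)
  have hcount : ∀ n, Countable (G ⧸ K n) := fun n => countable_quotient _ (hKopen n)
  refine ⟨fun n => G ⧸ K n, fun n => inferInstance, fun n => inferInstance, hdisc, hcount, ?_, ?_⟩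
  · apply tame_prod (fun n => G ⧸ K n)
    · intro n x
      obtain ⟨g, rfl⟩ := QuotientAddGroup.mk_surjective x
      obtain ⟨k, hk, hmem⟩ := quot_torsion (W n) (W (n + 1)) (K (n + 1)) (hK1 n) (hK2 n) (hK3 n)
        (fun v hv => htors v (hanti (Nat.zero_le _) hv) _) g
      refine ⟨k, hk, ?_⟩
      rw [← QuotientAddGroup.mk_nsmul]
      exact (QuotientAddGroup.eq_zero_iff _).2 hmem
    · intro p hp
      obtain ⟨m, hm⟩ := hfin p hp
      refine ⟨m, fun n hn => ?_⟩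
      have h1 := hm (n + 1)
      -- the map `G ⧸ W (n+1) → G ⧸ K (n+1)`
      let θ : G ⧸ W (n + 1) →+ G ⧸ K (n + 1) :=
        QuotientAddGroup.lift (W (n + 1)) (QuotientAddGroup.mk' (K (n + 1))) (by
          intro w hw
          exact (QuotientAddGroup.eq_zero_iff w).2 (hWK (n + 1) hw))
      have hθ : ∀ g : G, θ (QuotientAddGroup.mk g) = QuotientAddGroup.mk g := fun g => rfl
      apply (h1.image θ).subset
      intro x hx
      obtain ⟨g, rfl⟩ := QuotientAddGroup.mk_surjective x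
      have hx' : p • (QuotientAddGroup.mk g : G ⧸ K (n + 1)) = 0 := hx
      rw [← QuotientAddGroup.mk_nsmul, QuotientAddGroup.eq_zero_iff] at hx'
      obtain ⟨u, hu, hpu, hug⟩ := quot_ptors (W n) (W (n + 1)) (K (n + 1)) (hK2 n) (hK3 n) p hp g hx'
      exact ⟨QuotientAddGroup.mk u, ⟨u, ⟨hanti hn hu, hpu⟩, rfl⟩, QuotientAddGroup.eq.2 hug⟩
  · let f : G →+ ((n : ℕ) → G ⧸ K n) :=
      AddMonoidHom.mk' (fun g n => (QuotientAddGroup.mk g : G ⧸ K n)) (fun a b => rfl)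
    have hf : ∀ g n, f g n = QuotientAddGroup.mk g := fun g n => rfl
    have hcont : Continuous f := continuous_pi fun n => QuotientAddGroup.continuous_mk
    have hind : IsInducing f := by
      rw [IsTopologicalAddGroup.isInducing_iff_nhds_zero]
      apply le_antisymm
      · have := hcont.tendsto 0
        rw [map_zero] at this
        exact this.le_comap
      · intro S hS
        obtain ⟨n, hn⟩ := hbase S hS
        refine ⟨{y | ∀ i ≤ n, y i = (0 : (n : ℕ) → G ⧸ K n) i},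
          (isOpen_agree (fun n => G ⧸ K n) 0 n).mem_nhds (fun i _ => rfl), ?_⟩
        intro g hg
        apply hn
        apply hKW
        intro i hi
        exact (QuotientAddGroup.eq_zero_iff g).1 (hg i hi)
    refine ⟨f, ⟨⟨hind, hind.injective⟩, ?_⟩⟩
    apply isClosed_of_closure_subset
    intro x hx
    rw [mem_closure_iff] at hx
    have h1 : ∀ k, ∃ g : G, ∀ i ≤ k, (QuotientAddGroup.mk g : G ⧸ K i) = x i := by
      intro k
      obtain ⟨_, hy, g, rfl⟩ := hx _ (isOpen_agree (fun n => G ⧸ K n) x k) (fun i _ => rfl)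
      exact ⟨g, hy⟩
    choose g hg using h1
    obtain ⟨a, ha⟩ := exists_limit W hopen hanti hbase g (by
      intro k
      apply hKW
      intro i hi
      have h2 : (QuotientAddGroup.mk (g k) : G ⧸ K i) = QuotientAddGroup.mk (g (k + 1)) := by
        rw [hg k i hi, hg (k + 1) i (by omega)]
      have h3 := QuotientAddGroup.eq.1 h2
      have h4 : g (k + 1) - g k = -g k + g (k + 1) := by abel
      rw [h4]
      exact h3)
    refine ⟨a, ?_⟩
    funext i
    rw [hf, ← hg i i le_rfl]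
    symm
    rw [QuotientAddGroup.eq]
    have h4 : -g i + a = a - g i := by abel
    rw [h4]
    exact hWK i (ha i)

end Pool.Agent.H72
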