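import Mathlib

/-! Uniform measure on `ℕ → Bool`, flips, and translation continuity. -/

set_option autoImplicit false

open MeasureTheory Filter Topology Set
open scoped ENNReal

namespace Pool.H72.NoRed

/-- Fair coin. -/
noncomputable def coin : Measure Bool :=
  (2⁻¹ : ℝ≥0∞) • (Measure.dirac true + Measure.dirac false)

instance : IsProbabilityMeasure coin := by
  constructor
  simp [coin, ENNReal.inv_two_add_inv_two]

lemma coin_map_xor (b : Bool) : coin.map (xor b) = coin := by
  unfold coin
  rw [Measure.map_smul, Measure.map_add _ _ (measurable_of_countable _),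
    Measure.map_dirac' (measurable_of_countable _), Measure.map_dirac' (measurable_of_countable _)]
  cases b
  · simp
  · simp [add_comm]

/-- The uniform measure on Cantor space. -/
noncomputable def mu : Measure (ℕ → Bool) := Measure.infinitePi (fun _ => coin)

instance : IsProbabilityMeasure mu := by unfold mu; infer_instance

/-- Coordinatewise sum. -/
def xr (b x : ℕ → Bool) : ℕ → Bool := fun i => xor (b i) (x i)

/-- Unit vector. -/
def e (n : ℕ) : ℕ → Bool := fun i => decide (i = n)

lemma measurable_xr (b : ℕ → Bool) : Measurable (xr b) := by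
  unfold xr
  refine measurable_pi_lambda _ fun i => ?_
  exact (measurable_of_countable (xor (b i))).comp (measurable_pi_apply i)

lemma mp_xr (b : ℕ → Bool) : MeasurePreserving (xr b) mu mu := by
  refine ⟨measurable_xr b, ?_⟩
  have := Measure.infinitePi_map_pi (μ := fun _ : ℕ => coin) (Y := fun _ => Bool)
    (f := fun i => xor (b i)) (fun i => measurable_of_countable _)
  unfold mu xr
  rw [this]
  simp only [coin_map_xor]

lemma continuous_xr2 : Continuous (fun p : (ℕ → Bool) × (ℕ → Bool) => xr p.1 p.2) := by
  unfold xr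
  refine continuous_pi fun i => ?_
  have h1 : Continuous (fun p : (ℕ → Bool) × (ℕ → Bool) => (p.1 i, p.2 i)) := by fun_prop
  exact (continuous_of_discreteTopology (f := fun q : Bool × Bool => xor q.1 q.2)).comp h1

/-- Translation as a continuous family. -/
noncomputable def F : C(ℕ → Bool, C(ℕ → Bool, ℕ → Bool)) :=
  ContinuousMap.curry ⟨fun p : (ℕ → Bool) × (ℕ → Bool) => xr p.1 p.2, continuous_xr2⟩

lemma F_apply (b x : ℕ → Bool) : F b x = xr b x := rfl

lemma tendsto_e : Tendsto e atTop (𝓝 (fun _ => false)) := by
  rw [tendsto_pi_nhds]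
  intro i
  refine tendsto_const_nhds.congr' ?_
  filter_upwards [eventually_gt_atTop i] with n hn
  have : ¬ (i = n) := by omega
  simp [e, this]

lemma xr_zero (x : ℕ → Bool) : xr (fun _ => false) x = x := by
  funext i; simp [xr]

lemma tendsto_symmDiff (A : Set (ℕ → Bool)) (hA : MeasurableSet A) :
    Tendsto (fun k => mu (symmDiff (xr (e k) ⁻¹' A) A)) atTop (𝓝 0) := by
  have h := tendsto_measure_symmDiff_preimage_nhds_zero (μ := mu) (ν := mu) (s := A)
    (l := atTop) (f := fun k => F (e k)) (g := F (fun _ => false))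
    ((F.continuous.tendsto _).comp tendsto_e)
    (Eventually.of_forall fun k => mp_xr (e k)) (mp_xr _) hA.nullMeasurableSet
    (measure_ne_top _ _)
  have h2 : ((F (fun _ => false) : C(ℕ → Bool, ℕ → Bool)) ⁻¹' A) = A := by
    ext x
    simp only [mem_preimage, F_apply, xr_zero]
  rw [h2] at h
  exact h

/-- A measurable function with countable range is almost invariant under far flips. -/
lemma tendsto_ne {Y : Type*} [MeasurableSpace Y] [MeasurableSingletonClass Y]
    (φ : (ℕ → Bool) → Y) (hφ : Measurable φ) (hc : (range φ).Countable) :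
    Tendsto (fun k => mu {c | φ c ≠ φ (xr (e k) c)}) atTop (𝓝 0) := by
  classical
  have : Countable (range φ) := hc.to_subtype
  -- real-valued version
  set A : range φ → Set (ℕ → Bool) := fun y => φ ⁻¹' {(y : Y)} with hA
  have hAm : ∀ y, MeasurableSet (A y) := fun y => hφ (measurableSet_singleton _)
  have hdisj : Pairwise (Function.onFun Disjoint A) := by
    intro y z hyz
    rw [Function.onFun, Set.disjoint_left]
    intro x hx hx'
    apply hyz
    apply Subtype.ext
    simp only [hA, mem_preimage, mem_singleton_iff] at hx hx'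
    rw [← hx, ← hx']
  have hsum : ∑' y, mu (A y) ≠ ∞ := by
    rw [← measure_iUnion hdisj hAm]
    exact measure_ne_top _ _
  have hsummable : Summable (fun y => (mu (A y)).toReal) := ENNReal.summable_toReal hsum
  have hlim : Tendsto (fun k => ∑' y, (mu (symmDiff (xr (e k) ⁻¹' (A y)) (A y) ∩ A y)).toReal)
      atTop (𝓝 (∑' _ : range φ, (0 : ℝ))) := by
    refine tendsto_tsum_of_dominated_convergence (bound := fun y => (mu (A y)).toReal)
      hsummable ?_ ?_
    · intro y
      have h1 : Tendsto (fun k => mu (symmDiff (xr (e k) ⁻¹' (A y)) (A y) ∩ A y)) atTop (𝓝 0) :=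
        tendsto_of_tendsto_of_tendsto_of_le_of_le tendsto_const_nhds
          (tendsto_symmDiff (A y) (hAm y)) (fun _ => zero_le)
          (fun k => measure_mono inter_subset_left)
      have h2 := (ENNReal.tendsto_toReal (ENNReal.zero_ne_top)).comp h1
      rw [ENNReal.toReal_zero] at h2
      exact h2
    · refine Eventually.of_forall fun k y => ?_
      rw [Real.norm_of_nonneg ENNReal.toReal_nonneg]
      exact ENNReal.toReal_mono (measure_ne_top _ _) (measure_mono inter_subset_right)
  rw [tsum_zero] at hlim
  have hle : ∀ k, (mu {c | φ c ≠ φ (xr (e k) c)}).toReal ≤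
      ∑' y, (mu (symmDiff (xr (e k) ⁻¹' (A y)) (A y) ∩ A y)).toReal := by
    intro k
    have hs : {c | φ c ≠ φ (xr (e k) c)} ⊆
        ⋃ y, (symmDiff (xr (e k) ⁻¹' (A y)) (A y) ∩ A y) := by
      intro c hc
      rw [mem_iUnion]
      refine ⟨⟨φ c, mem_range_self c⟩, ?_, ?_⟩
      · right
        refine ⟨by simp [hA], ?_⟩
        simp only [hA, mem_preimage, mem_singleton_iff]
        exact fun h => hc h.symm
      · simp [hA]
    have h3 : ∑' y, mu (symmDiff (xr (e k) ⁻¹' (A y)) (A y) ∩ A y) ≠ ∞ :=
      ne_top_of_le_ne_top hsum (ENNReal.tsum_le_tsum fun y => measure_mono inter_subset_right)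
    rw [← ENNReal.tsum_toReal_eq (fun y => measure_ne_top _ _)]
    refine ENNReal.toReal_mono h3 ?_
    exact (measure_mono hs).trans (measure_iUnion_le _)
  have h4 : Tendsto (fun k => (mu {c | φ c ≠ φ (xr (e k) c)}).toReal) atTop (𝓝 0) :=
    squeeze_zero (fun _ => ENNReal.toReal_nonneg) hle hlim
  have h5 := ENNReal.tendsto_ofReal h4
  simp only [ENNReal.ofReal_zero] at h5
  refine h5.congr fun k => ?_
  exact ENNReal.ofReal_toReal (measure_ne_top _ _)

end Pool.H72.NoRed
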