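import Mathlib
import Pool.Agent.H72.NoRedA

/-! `E₂` is not Borel reducible to a relation with countable classes. -/

set_option autoImplicit false

open MeasureTheory Filter Topology Set
open scoped ENNReal

namespace Pool.H72.NoRed

/-- `E₂` -/
def E2 (a b : ℕ → Bool) : Prop :=
  Summable (fun n : ℕ => if a n = b n then (0 : ℝ) else 1 / ((n : ℝ) + 1))

open Classical in
/-- Spread `c` along `j`. -/
noncomputable def spread (j : ℕ → ℕ) (c : ℕ → Bool) : ℕ → Bool :=
  fun i => if h : ∃ k, j k = i then c h.choose else false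

lemma spread_apply {j : ℕ → ℕ} (hj : Function.Injective j) (c : ℕ → Bool) (k : ℕ) :
    spread j c (j k) = c k := by
  have h : ∃ k', j k' = j k := ⟨k, rfl⟩
  unfold spread
  rw [dif_pos h, hj h.choose_spec]

lemma spread_not {j : ℕ → ℕ} (c : ℕ → Bool) {i : ℕ} (h : ∀ k, j k ≠ i) :
    spread j c i = false := by
  unfold spread
  rw [dif_neg]
  rintro ⟨k, hk⟩
  exact h k hk

lemma measurable_spread (j : ℕ → ℕ) : Measurable (spread j) := by
  refine measurable_pi_lambda _ fun i => ?_
  by_cases h : ∃ k, j k = i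
  · simp only [spread, dif_pos h]
    exact measurable_pi_apply _
  · simp only [spread, dif_neg h]
    exact measurable_const

lemma E2_spread {j : ℕ → ℕ} (hj : Function.Injective j)
    (hs : Summable (fun k => 1 / ((j k : ℝ) + 1))) (c x : ℕ → Bool) :
    E2 x (xr (spread j c) x) := by
  unfold E2
  classical
  have h0 : Summable (fun n : ℕ => if n ∈ range j then 1 / ((n : ℝ) + 1) else (0 : ℝ)) := by
    rw [← hj.summable_iff]
    · refine hs.congr fun k => ?_
      simp
    · intro n hn
      simp only [hn, if_false]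
  refine Summable.of_nonneg_of_le (fun n => ?_) (fun n => ?_) h0
  · split_ifs
    · exact le_refl _
    · positivity
  · by_cases hn : n ∈ range j
    · simp only [hn, if_true]
      split_ifs
      · positivity
      · exact le_refl _
    · have : spread j c n = false := spread_not c (fun k hk => hn ⟨k, hk⟩)
      simp only [hn, if_false, xr, this, Bool.false_xor, if_true]
      exact le_refl _

lemma xr_spread_flip {j : ℕ → ℕ} (hj : Function.Injective j) (c x : ℕ → Bool) (k : ℕ) :
    xr (spread j (xr (e k) c)) x = xr (e (j k)) (xr (spread j c) x) := by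
  funext i
  unfold xr
  by_cases h : ∃ l, j l = i
  · obtain ⟨l, rfl⟩ := h
    rw [spread_apply hj, spread_apply hj]
    have : e k l = e (j k) (j l) := by
      unfold e
      by_cases hlk : l = k
      · simp [hlk]
      · have : j l ≠ j k := fun h => hlk (hj h)
        simp [hlk, this]
    rw [this, Bool.xor_assoc]
  · have h' : ∀ k, j k ≠ i := fun k hk => h ⟨k, hk⟩
    rw [spread_not _ h', spread_not _ h']
    have : e (j k) i = false := by
      unfold e
      have := h' k
      simp only [decide_eq_false_iff_not]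
      exact fun h => this h.symm
    rw [this]
    simp

lemma xr_comm (a b : ℕ → Bool) : xr a b = xr b a := by
  funext i; simp [xr, Bool.xor_comm]

section main

variable {Y : Type*} [TopologicalSpace Y] [PolishSpace Y] [MeasurableSpace Y] [BorelSpace Y]

/-- probability that flipping `n` changes `g` -/
noncomputable def q (g : (ℕ → Bool) → Y) (n : ℕ) : ℝ≥0∞ := mu {x | g x ≠ g (xr (e n) x)}

lemma measurableSet_ne {α : Type*} [MeasurableSpace α] {u v : α → Y} (hu : Measurable u)
    (hv : Measurable v) : MeasurableSet {x | u x ≠ v x} :=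
  (measurableSet_eq_fun hu hv).compl

lemma measurable_xr2 : Measurable (fun p : (ℕ → Bool) × (ℕ → Bool) => xr p.1 p.2) :=
  continuous_xr2.measurable

/-- Lemma C. -/
lemma q_along {g : (ℕ → Bool) → Y} (hg : Measurable g) {E : Y → Y → Prop}
    (hE : ∀ y, {z | E y z}.Countable) (hgE : ∀ a b, E2 a b → E (g a) (g b))
    {j : ℕ → ℕ} (hj : Function.Injective j)
    (hs : Summable (fun k => 1 / ((j k : ℝ) + 1))) :
    Tendsto (fun k => q g (j k)) atTop (𝓝 0) := by
  -- the integrand
  set f : ℕ → (ℕ → Bool) → ℝ≥0∞ := fun k x =>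
    mu {c | g (xr (spread j c) x) ≠ g (xr (spread j (xr (e k) c)) x)} with hf
  have hm1 : Measurable (fun p : (ℕ → Bool) × (ℕ → Bool) => g (xr (spread j p.2) p.1)) :=
    hg.comp (measurable_xr2.comp (((measurable_spread j).comp measurable_snd).prodMk measurable_fst))
  have hm2 : ∀ k, Measurable (fun p : (ℕ → Bool) × (ℕ → Bool) =>
      g (xr (spread j (xr (e k) p.2)) p.1)) := fun k =>
    hg.comp (measurable_xr2.comp
      (((measurable_spread j).comp ((measurable_xr (e k)).comp measurable_snd)).prodMk
        measurable_fst))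
  have hset : ∀ k, MeasurableSet {p : (ℕ → Bool) × (ℕ → Bool) |
      g (xr (spread j p.2) p.1) ≠ g (xr (spread j (xr (e k) p.2)) p.1)} := fun k =>
    measurableSet_ne hm1 (hm2 k)
  have hq : ∀ k, q g (j k) = ∫⁻ x, f k x ∂mu := by
    intro k
    have h1 : (mu.prod mu) {p : (ℕ → Bool) × (ℕ → Bool) |
        g (xr (spread j p.2) p.1) ≠ g (xr (spread j (xr (e k) p.2)) p.1)} = ∫⁻ x, f k x ∂mu := by
      rw [Measure.prod_apply (hset k)]
      rfl
    have h2 : (mu.prod mu) {p : (ℕ → Bool) × (ℕ → Bool) |
        g (xr (spread j p.2) p.1) ≠ g (xr (spread j (xr (e k) p.2)) p.1)} =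
        ∫⁻ c, q g (j k) ∂mu := by
      rw [Measure.prod_apply_symm (hset k)]
      refine lintegral_congr fun c => ?_
      have h3 : (fun x => (x, c)) ⁻¹' {p : (ℕ → Bool) × (ℕ → Bool) |
        g (xr (spread j p.2) p.1) ≠ g (xr (spread j (xr (e k) p.2)) p.1)} =
        xr (spread j c) ⁻¹' {x | g x ≠ g (xr (e (j k)) x)} := by
        ext x
        simp only [mem_preimage, mem_ofPred_eq, xr_spread_flip hj]
      have h4 : MeasurableSet {x | g x ≠ g (xr (e (j k)) x)} :=
        measurableSet_ne hg (hg.comp (measurable_xr _))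
      rw [h3, (mp_xr (spread j c)).measure_preimage h4.nullMeasurableSet]
      rfl
    rw [h1] at h2
    rw [h2]
    simp
  have hlim : Tendsto (fun k => ∫⁻ x, f k x ∂mu) atTop (𝓝 (∫⁻ _ : ℕ → Bool, 0 ∂mu)) := by
    refine tendsto_lintegral_of_dominated_convergence (fun _ => 1) (fun k => ?_) (fun k => ?_)
      (by simp) ?_
    · exact measurable_measure_prodMk_left (hset k)
    · exact Eventually.of_forall fun x => prob_le_one
    · refine Eventually.of_forall fun x => ?_
      have hmx : Measurable (fun c => g (xr (spread j c) x)) :=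
        hm1.comp (measurable_const.prodMk measurable_id)
      refine tendsto_ne (fun c => g (xr (spread j c) x)) hmx ?_
      refine (hE (g x)).mono ?_
      rintro _ ⟨c, rfl⟩
      exact hgE _ _ (E2_spread hj hs c x)
  simp only [lintegral_zero] at hlim
  exact hlim.congr fun k => (hq k).symm

lemma q_tendsto {g : (ℕ → Bool) → Y} (hg : Measurable g) {E : Y → Y → Prop}
    (hE : ∀ y, {z | E y z}.Countable) (hgE : ∀ a b, E2 a b → E (g a) (g b)) :
    Tendsto (q g) atTop (𝓝 0) := by
  by_contra hcon
  rw [ENNReal.tendsto_atTop_zero] at hcon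
  push Not at hcon
  obtain ⟨ε, hε, h⟩ := hcon
  have hfreq : ∀ n : ℕ, ∃ᶠ k in atTop, 2 ^ n ≤ k ∧ ε < q g k := by
    intro n
    rw [frequently_atTop]
    intro a
    obtain ⟨k, hk, hk'⟩ := h (max a (2 ^ n))
    exact ⟨k, le_trans (le_max_left _ _) hk, le_trans (le_max_right _ _) hk, hk'⟩
  obtain ⟨j, hjm, hj⟩ := extraction_forall_of_frequently hfreq
  have hs : Summable (fun k => 1 / ((j k : ℝ) + 1)) := by
    refine Summable.of_nonneg_of_le (fun k => by positivity) (fun k => ?_)
      (summable_geometric_of_lt_one (r := (1 / 2 : ℝ)) (by norm_num) (by norm_num))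
    have h2 : ((2 : ℝ) ^ k) ≤ (j k : ℝ) := by exact_mod_cast (hj k).1
    rw [one_div_pow]
    exact one_div_le_one_div_of_le (by positivity) (by linarith)
  have := q_along hg hE hgE hjm.injective hs
  rw [ENNReal.tendsto_atTop_zero] at this
  obtain ⟨N, hN⟩ := this ε hε
  exact absurd (hN N le_rfl) (not_le.mpr (hj N).2)

/-- Weights. -/
noncomputable def w (n : ℕ) : ℝ≥0∞ := ENNReal.ofReal (1 / ((n : ℝ) + 1))

lemma window_le (N : ℕ) : ∑ n ∈ Finset.Ico N (2 * N), w n ≤ 1 := by
  unfold w
  rw [← ENNReal.ofReal_sum_of_nonneg (fun n _ => by positivity)]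
  rw [← ENNReal.ofReal_one]
  refine ENNReal.ofReal_le_ofReal ?_
  calc ∑ n ∈ Finset.Ico N (2 * N), 1 / ((n : ℝ) + 1)
      ≤ ∑ n ∈ Finset.Ico N (2 * N), 1 / ((N : ℝ) + 1) := by
        refine Finset.sum_le_sum fun n hn => ?_
        rw [Finset.mem_Ico] at hn
        have : (N : ℝ) ≤ n := by exact_mod_cast hn.1
        exact one_div_le_one_div_of_le (by positivity) (by linarith)
    _ ≤ 1 := by
        rw [Finset.sum_const, Nat.card_Ico, nsmul_eq_mul]
        have : 2 * N - N = N := by omega
        rw [this, mul_one_div, div_le_one (by positivity)]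
        linarith

lemma window_ge (N : ℕ) (hN : 1 ≤ N) : ENNReal.ofReal (1 / 2) ≤ ∑ n ∈ Finset.Ico N (2 * N), w n := by
  unfold w
  rw [← ENNReal.ofReal_sum_of_nonneg (fun n _ => by positivity)]
  refine ENNReal.ofReal_le_ofReal ?_
  calc (1 / 2 : ℝ) ≤ ∑ n ∈ Finset.Ico N (2 * N), 1 / (2 * (N : ℝ)) := by
        rw [Finset.sum_const, Nat.card_Ico, nsmul_eq_mul]
        have : 2 * N - N = N := by omega
        have hN0 : (N : ℝ) ≠ 0 := by positivity
        rw [this]
        field_simp
        exact le_refl _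
    _ ≤ ∑ n ∈ Finset.Ico N (2 * N), 1 / ((n : ℝ) + 1) := by
        refine Finset.sum_le_sum fun n hn => ?_
        rw [Finset.mem_Ico] at hn
        have : (n : ℝ) + 1 ≤ 2 * N := by exact_mod_cast hn.2
        exact one_div_le_one_div_of_le (by positivity) this

/-- tail windows of a summable family tend to `0` -/
lemma window_tendsto {a b : ℕ → Bool} (h : E2 a b) :
    Tendsto (fun N => ∑ n ∈ Finset.Ico N (2 * N), if a n = b n then 0 else w n) atTop (𝓝 0) := by
  have h1 : Tendsto (fun N => ∑ n ∈ Finset.Ico N (2 * N),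
      if a n = b n then (0 : ℝ) else 1 / ((n : ℝ) + 1)) atTop (𝓝 0) := by
    have h2 := h.hasSum.tendsto_sum_nat
    have h3 : Tendsto (fun N : ℕ => 2 * N) atTop atTop :=
      tendsto_atTop_mono (fun n => by simp only [id]; omega) tendsto_id
    have h4 := (h2.comp h3).sub h2
    rw [sub_self] at h4
    refine h4.congr fun N => ?_
    simp only [Function.comp]
    rw [Finset.sum_Ico_eq_sub _ (by omega)]
  have h5 := ENNReal.tendsto_ofReal h1
  rw [ENNReal.ofReal_zero] at h5
  refine h5.congr fun N => ?_
  rw [ENNReal.ofReal_sum_of_nonneg]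
  · refine Finset.sum_congr rfl fun n _ => ?_
    split_ifs
    · simp
    · rfl
  · intro n _
    split_ifs
    · exact le_refl _
    · positivity

/-- Some-point dominated claim: on a fibre the windows of the minority mass tend to `0`. -/
lemma fibre_tendsto {g : (ℕ → Bool) → Y} (hgi : ∀ a b, g a = g b → E2 a b)
    (κ : Measure (ℕ → Bool)) [IsProbabilityMeasure κ] (y : Y)
    (hy : κ {x | g x ≠ y} = 0) :
    Tendsto (fun N => ∑ n ∈ Finset.Ico N (2 * N),
      w n * min (κ {x | x n = true}) (κ {x | x n = false})) atTop (𝓝 0) := by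
  have hne : ∃ x', g x' = y := by
    by_contra hcon
    push Not at hcon
    have : {x | g x ≠ y} = univ := by
      ext x; simp [hcon x]
    rw [this, measure_univ] at hy
    exact one_ne_zero hy
  obtain ⟨x', hx'⟩ := hne
  have hmeas : ∀ n (b : Bool), MeasurableSet {x : ℕ → Bool | x n = b} := fun n b =>
    measurableSet_eq_fun (measurable_pi_apply n) measurable_const
  have hSm : ∀ n, Measurable (fun x : ℕ → Bool => if x' n = x n then 0 else w n) := by
    intro n
    refine Measurable.ite ?_ measurable_const measurable_const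
    have := hmeas n (x' n)
    convert this using 1
    ext x
    simp [eq_comm]
  have hlim : Tendsto (fun N => ∫⁻ x, ∑ n ∈ Finset.Ico N (2 * N),
      (if x' n = x n then 0 else w n) ∂κ) atTop (𝓝 (∫⁻ _ : ℕ → Bool, 0 ∂κ)) := by
    refine tendsto_lintegral_of_dominated_convergence (fun _ => 1) (fun N => ?_) (fun N => ?_)
      (by simp) ?_
    · exact Finset.measurable_fun_sum _ (fun n _ => hSm n)
    · refine Eventually.of_forall fun x => ?_
      refine (Finset.sum_le_sum fun n _ => ?_).trans (window_le N)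
      split_ifs
      · exact zero_le
      · exact le_refl _
    · have : ∀ᵐ x ∂κ, g x = y := by
        rw [ae_iff]; exact hy
      filter_upwards [this] with x hx
      exact window_tendsto (hgi x' x (by rw [hx, hx']))
  rw [lintegral_zero] at hlim
  refine tendsto_of_tendsto_of_tendsto_of_le_of_le tendsto_const_nhds hlim (fun _ => zero_le)
    (fun N => ?_)
  show ∑ n ∈ Finset.Ico N (2 * N), w n * min (κ {x | x n = true}) (κ {x | x n = false}) ≤
    ∫⁻ x, ∑ n ∈ Finset.Ico N (2 * N), (if x' n = x n then 0 else w n) ∂κ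
  rw [lintegral_finsetSum _ (fun n _ => hSm n)]
  refine Finset.sum_le_sum fun n _ => ?_
  have h1 : ∫⁻ x, (if x' n = x n then 0 else w n) ∂κ = w n * κ {x | x n = !(x' n)} := by
    have : (fun x : ℕ → Bool => if x' n = x n then 0 else w n) =
        indicator {x | x n = !(x' n)} (fun _ => w n) := by
      funext x
      by_cases h : x' n = x n
      · rw [if_pos h, indicator_of_notMem]
        simp only [mem_ofPred_eq, h]
        cases x n <;> simp
      · rw [if_neg h, indicator_of_mem]
        simp only [mem_ofPred_eq]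
        revert h
        cases x n <;> cases x' n <;> simp
    rw [this, lintegral_indicator (hmeas n _)]
    simp
  rw [h1]
  gcongr
  cases x' n
  · exact min_le_left _ _
  · exact min_le_right _ _

theorem no_red' {E : Y → Y → Prop} (hE : ∀ y, {z | E y z}.Countable)
    {g : (ℕ → Bool) → Y} (hg : Measurable g) (hgE : ∀ a b, E2 a b ↔ E (g a) (g b)) : False := by
  have hgi : ∀ a b, g a = g b → E2 a b := by
    intro a b hab
    rw [hgE, ← hab, ← hgE]
    unfold E2
    simp only [if_true]
    exact summable_zero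
  have hq := q_tendsto hg hE (fun a b => (hgE a b).1)
  set κ := ProbabilityTheory.condDistrib (id : (ℕ → Bool) → (ℕ → Bool)) g mu with hκ
  have hmeas : ∀ n (b : Bool), MeasurableSet {x : ℕ → Bool | x n = b} := fun n b =>
    measurableSet_eq_fun (measurable_pi_apply n) measurable_const
  have hκm : ∀ n (b : Bool), Measurable (fun y => κ y {x | x n = b}) := fun n b =>
    ProbabilityTheory.Kernel.measurable_coe _ (hmeas n b)
  set r : ℕ → Y → ℝ≥0∞ := fun n y => min (κ y {x | x n = true}) (κ y {x | x n = false}) with hr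
  have hrm : ∀ n, Measurable (r n) := fun n => (hκm n true).min (hκm n false)
  have hrg : ∀ n, Measurable (fun x => r n (g x)) := fun n => (hrm n).comp hg
  set A : ℕ → Set Y := fun n => {y | κ y {x | x n = false} ≤ κ y {x | x n = true}} with hA
  have hAm : ∀ n, MeasurableSet (A n) := fun n => measurableSet_le (hκm n false) (hκm n true)
  set B1 : ℕ → Set (ℕ → Bool) := fun n => g ⁻¹' (A n) ∩ id ⁻¹' {x | x n = false} with hB1
  set B2 : ℕ → Set (ℕ → Bool) := fun n => g ⁻¹' (A n)ᶜ ∩ id ⁻¹' {x | x n = true} with hB2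
  have hB1m : ∀ n, MeasurableSet (B1 n) := fun n => (hg (hAm n)).inter (hmeas n false)
  have hB2m : ∀ n, MeasurableSet (B2 n) := fun n => (hg (hAm n).compl).inter (hmeas n true)
  -- Claim 1
  have claim1 : ∀ n, ∫⁻ x, r n (g x) ∂mu = mu (B1 n) + mu (B2 n) := by
    intro n
    rw [← lintegral_add_compl _ (hg (hAm n))]
    have h1 : ∫⁻ x in g ⁻¹' (A n), r n (g x) ∂mu = mu (B1 n) := by
      rw [hB1, ← ProbabilityTheory.setLIntegral_preimage_condDistrib hg measurable_id.aemeasurable
        (hmeas n false) (hAm n)]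
      refine setLIntegral_congr_fun (hg (hAm n)) fun x hx => ?_
      exact min_eq_right hx
    have h2 : ∫⁻ x in (g ⁻¹' (A n))ᶜ, r n (g x) ∂mu = mu (B2 n) := by
      rw [hB2, ← ProbabilityTheory.setLIntegral_preimage_condDistrib hg measurable_id.aemeasurable
        (hmeas n true) (hAm n).compl]
      refine setLIntegral_congr_fun (hg (hAm n)).compl fun x hx => ?_
      refine min_eq_left (le_of_lt ?_)
      exact not_le.mp hx
    rw [h1, h2]
  have claim1' : ∀ n, 1 ≤ q g n + 2 * ∫⁻ x, r n (g x) ∂mu := by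
    intro n
    rw [claim1 n]
    have hcov : (univ : Set (ℕ → Bool)) ⊆ {x | g x ≠ g (xr (e n) x)} ∪
        ((B1 n ∪ B2 n) ∪ xr (e n) ⁻¹' (B1 n ∪ B2 n)) := by
      intro x _
      by_cases h1 : g x = g (xr (e n) x)
      · right
        have h2 : xr (e n) x n = !(x n) := by simp [xr, e]
        by_cases h3 : g x ∈ A n
        · cases h4 : x n
          · left; left; exact ⟨h3, h4⟩
          · right; left
            refine ⟨?_, ?_⟩
            · rw [mem_preimage, ← h1]; exact h3
            · show xr (e n) x n = false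
              rw [h2, h4]; rfl
        · cases h4 : x n
          · right; right
            refine ⟨?_, ?_⟩
            · rw [mem_preimage, ← h1]; exact h3
            · show xr (e n) x n = true
              rw [h2, h4]; rfl
          · left; right; exact ⟨h3, h4⟩
      · left; exact h1
    have h5 : mu (B1 n ∪ B2 n) ≤ mu (B1 n) + mu (B2 n) := measure_union_le _ _
    have h6 : mu (xr (e n) ⁻¹' (B1 n ∪ B2 n)) ≤ mu (B1 n) + mu (B2 n) := by
      rw [(mp_xr (e n)).measure_preimage ((hB1m n).union (hB2m n)).nullMeasurableSet]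
      exact h5
    calc (1 : ℝ≥0∞) = mu univ := measure_univ.symm
      _ ≤ mu ({x | g x ≠ g (xr (e n) x)} ∪
        ((B1 n ∪ B2 n) ∪ xr (e n) ⁻¹' (B1 n ∪ B2 n))) := measure_mono hcov
      _ ≤ q g n + (mu (B1 n ∪ B2 n) + mu (xr (e n) ⁻¹' (B1 n ∪ B2 n))) :=
        (measure_union_le _ _).trans (add_le_add le_rfl (measure_union_le _ _))
      _ ≤ q g n + 2 * (mu (B1 n) + mu (B2 n)) := by
        rw [two_mul]
        gcongr
  -- Claim 2
  have claim2 : ∀ᵐ x ∂mu, Tendsto (fun N => ∑ n ∈ Finset.Ico N (2 * N), w n * r n (g x))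
      atTop (𝓝 0) := by
    have h1 : ∀ᵐ y ∂(mu.map g), κ y {x | g x ≠ y} = 0 := by
      have h2 : MeasurableSet {p : Y × (ℕ → Bool) | g p.2 ≠ p.1} :=
        measurableSet_ne (hg.comp measurable_snd) measurable_fst
      have h3 : (Measure.compProd (mu.map g) κ) {p : Y × (ℕ → Bool) | g p.2 ≠ p.1} = 0 := by
        rw [hκ, ProbabilityTheory.compProd_map_condDistrib measurable_id.aemeasurable,
          Measure.map_apply (hg.prodMk measurable_id) h2]
        simp
      rw [Measure.compProd_apply h2, lintegral_eq_zero_iff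
        (ProbabilityTheory.Kernel.measurable_kernel_prodMk_left h2)] at h3
      exact h3
    have h4 := ae_of_ae_map hg.aemeasurable h1
    filter_upwards [h4] with x hx
    exact fibre_tendsto hgi (κ (g x)) (g x) hx
  -- Claim 3
  have claim3 : Tendsto (fun N => ∫⁻ x, ∑ n ∈ Finset.Ico N (2 * N), w n * r n (g x) ∂mu) atTop
      (𝓝 (∫⁻ _ : ℕ → Bool, 0 ∂mu)) := by
    refine tendsto_lintegral_of_dominated_convergence (fun _ => 1) (fun N => ?_) (fun N => ?_)
      (by simp) claim2
    · exact Finset.measurable_fun_sum _ (fun n _ => ((hrm n).comp hg).const_mul _)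
    · refine Eventually.of_forall fun x => ?_
      refine (Finset.sum_le_sum fun n _ => ?_).trans (window_le N)
      calc w n * r n (g x) ≤ w n * 1 := by
            gcongr
            exact (min_le_left _ _).trans prob_le_one
        _ = w n := mul_one _
  rw [lintegral_zero, ENNReal.tendsto_atTop_zero] at claim3
  obtain ⟨N1, hN1⟩ := claim3 (ENNReal.ofReal (1 / 16)) (by simp)
  rw [ENNReal.tendsto_atTop_zero] at hq
  obtain ⟨N2, hN2⟩ := hq (ENNReal.ofReal (1 / 2)) (by simp)
  set N := max (max N1 N2) 1 with hN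
  have hb := hN1 N ((le_max_left _ _).trans (le_max_left _ _))
  rw [lintegral_finsetSum _ (fun n _ => (hrg n).const_mul _)] at hb
  have hlow : ∀ n ∈ Finset.Ico N (2 * N), w n * ENNReal.ofReal (1 / 4) ≤
      ∫⁻ x, w n * r n (g x) ∂mu := by
    intro n hn
    rw [lintegral_const_mul _ (hrg n)]
    gcongr
    have hn1 : N2 ≤ n := by
      rw [Finset.mem_Ico] at hn
      exact ((le_max_right _ _).trans (le_max_left _ _)).trans hn.1
    have h1 := claim1' n
    have h2 := hN2 n hn1
    set I := ∫⁻ x, r n (g x) ∂mu with hI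
    have hIfin : I ≠ ∞ := by
      rw [hI, claim1 n]
      exact ENNReal.add_ne_top.mpr ⟨measure_ne_top _ _, measure_ne_top _ _⟩
    have h3 : (1 : ℝ≥0∞) ≤ ENNReal.ofReal (1 / 2) + 2 * I := h1.trans (by gcongr)
    rw [ENNReal.ofReal_le_iff_le_toReal hIfin]
    have h4 := ENNReal.toReal_mono (by finiteness) h3
    rw [ENNReal.toReal_add (by finiteness) (by finiteness), ENNReal.toReal_mul,
      ENNReal.toReal_ofReal (by norm_num)] at h4
    norm_num at h4
    linarith
  have hfin : ENNReal.ofReal (1 / 2) * ENNReal.ofReal (1 / 4) ≤ ENNReal.ofReal (1 / 16) := by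
    calc ENNReal.ofReal (1 / 2) * ENNReal.ofReal (1 / 4)
        ≤ (∑ n ∈ Finset.Ico N (2 * N), w n) * ENNReal.ofReal (1 / 4) := by
          gcongr
          exact window_ge N (le_max_right _ _)
      _ = ∑ n ∈ Finset.Ico N (2 * N), w n * ENNReal.ofReal (1 / 4) := Finset.sum_mul _ _ _
      _ ≤ _ := Finset.sum_le_sum hlow
      _ ≤ _ := hb
  rw [← ENNReal.ofReal_mul (by norm_num), ENNReal.ofReal_le_ofReal_iff (by norm_num)] at hfin
  norm_num at hfin

end main

/-- `E₂` is not Borel reducible to a relation with countable classes. -/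
theorem no_red : ∀ (Y : Type*) [TopologicalSpace Y] [PolishSpace Y] [MeasurableSpace Y]
    [BorelSpace Y] (E : Y → Y → Prop), (∀ y, {z | E y z}.Countable) →
    ¬ ∃ g : (ℕ → Bool) → Y, Measurable g ∧ ∀ a b : ℕ → Bool,
      Summable (fun n : ℕ => if a n = b n then (0 : ℝ) else 1 / ((n : ℝ) + 1)) ↔
        E (g a) (g b) := by
  rintro Y _ _ _ _ E hE ⟨g, hg, hgE⟩
  exact no_red' hE hg hgE

end Pool.H72.NoRed
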