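import Mathlib
import Pool.Agent.H73.HypE2.Graph

/-! A free pmp action of `ℤ/2 * ℤ/2 * ℤ/2` is not reducible to `E₀`. -/

set_option autoImplicit false

open MeasureTheory Filter Topology Set
open scoped ENNReal
open Pool.Agent.H73.HypE2

namespace Pool.H72.NotE0

section words

variable {X : Type*} {sig : Fin 3 → X → X}

/-- pairs `(x, y)` such that the path from `x` to `y` starts with `s` -/
def T (sig : Fin 3 → X → X) (s : Fin 3) : Set (X × X) :=
  {p | ∃ w : List (Fin 3), Red (s :: w) ∧ act sig (s :: w) p.1 = p.2}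

lemma T_disj (hinv : ∀ s x, sig s (sig s x) = x)
    (hfree : ∀ w, Red w → w ≠ [] → ∀ x, act sig w x ≠ x) {s t : Fin 3} (hst : s ≠ t)
    (x y : X) (h1 : (x, y) ∈ T sig s) (h2 : (x, y) ∈ T sig t) : False := by
  obtain ⟨w, hw, hwy⟩ := h1
  obtain ⟨w', hw', hwy'⟩ := h2
  have := uniq (τ := sig) hinv (g := (s :: w).length + (t :: w').length + 1)
    (fun w hw hne _ a => hfree w hw hne a) (s :: w) (t :: w') x hw hw'
    (by rw [hwy, hwy']) (by omega)
  exact hst (List.cons.inj this).1

lemma T_cover (hinv : ∀ s x, sig s (sig s x) = x) (s : Fin 3) (x y : X)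
    (h : ∃ w, act sig w x = y) : (x, y) ∈ T sig s ∨ (sig s x, y) ∈ T sig s := by
  classical
  obtain ⟨w, hw⟩ := h
  obtain ⟨w', hred, -, hw'⟩ := reduce (τ := sig) hinv w
  have h1 : act sig w' x = y := by rw [(hw' x).1, hw]
  cases w' with
  | nil =>
    right
    refine ⟨[], .singleton s, ?_⟩
    show act sig [] (sig s (sig s x)) = y
    rw [hinv]; exact h1
  | cons t w' =>
    by_cases hst : s = t
    · subst hst
      left
      exact ⟨w', hred, h1⟩
    · right
      refine ⟨t :: w', List.isChain_cons_cons.2 ⟨hst, hred⟩, ?_⟩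
      show act sig (t :: w') (sig s (sig s x)) = y
      rw [hinv]; exact h1

lemma measurable_act [MeasurableSpace X] (hm : ∀ s, Measurable (sig s)) (w : List (Fin 3)) :
    Measurable (act sig w) := by
  induction w with
  | nil => exact measurable_id
  | cons s w ih => exact ih.comp (hm s)

end words

variable {X : Type*} [TopologicalSpace X] [PolishSpace X] [MeasurableSpace X] [BorelSpace X]

lemma measurable_T {sig : Fin 3 → X → X} (hm : ∀ s, Measurable (sig s)) (s : Fin 3) :
    MeasurableSet (T sig s) := by
  have : T sig s = ⋃ w : List (Fin 3), {p : X × X | Red (s :: w) ∧ act sig (s :: w) p.1 = p.2} := by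
    ext p
    simp only [T, mem_ofPred_eq, mem_iUnion]
  rw [this]
  refine MeasurableSet.iUnion fun w => ?_
  by_cases hr : Red (s :: w)
  · simp only [hr, true_and]
    exact measurableSet_eq_fun ((measurable_act hm _).comp measurable_fst) measurable_snd
  · simp only [hr, false_and]
    exact MeasurableSet.empty

theorem not_E0 (mu : Measure X) [IsProbabilityMeasure mu] (sig : Fin 3 → X → X)
    (hm : ∀ s, MeasurePreserving (sig s) mu mu) (hinv : ∀ s x, sig s (sig s x) = x)
    (hfree : ∀ w, Red w → w ≠ [] → ∀ x, act sig w x ≠ x)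
    (f : X → (ℕ → Bool)) (hf : Measurable f)
    (h : ∀ x y, (∃ w, act sig w x = y) ↔ ∃ N, ∀ n, N ≤ n → f x n = f y n) : False := by
  have hne : Nonempty X := nonempty_of_isProbabilityMeasure mu
  set psi : ℕ → X → (ℕ → Bool) := fun n x i => f x (n + i) with hpsi
  have hpsim : ∀ n, Measurable (psi n) := fun n =>
    measurable_pi_lambda _ fun i => (measurable_pi_apply (n + i)).comp hf
  set G : Fin 3 → ℕ → Set X := fun s n => {x | psi n (sig s x) = psi n x} with hG
  have hGm : ∀ s n, MeasurableSet (G s n) := fun s n =>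
    measurableSet_eq_fun ((hpsim n).comp (hm s).measurable) (hpsim n)
  have hTm : ∀ s, MeasurableSet (T sig s) := measurable_T fun s => (hm s).measurable
  have key : ∀ n, ∑ s, mu (G s n) ≤ 2 := by
    intro n
    set κ := ProbabilityTheory.condDistrib (id : X → X) (psi n) mu with hκ
    have hae : ∀ᵐ x ∂mu, κ (psi n x) {y | psi n y ≠ psi n x} = 0 := by
      have h1 : ∀ᵐ t ∂(mu.map (psi n)), κ t {y | psi n y ≠ t} = 0 := by
        have h2 : MeasurableSet {p : (ℕ → Bool) × X | psi n p.2 ≠ p.1} :=
          (measurableSet_eq_fun ((hpsim n).comp measurable_snd) measurable_fst).compl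
        have h3 : (Measure.compProd (mu.map (psi n)) κ)
            {p : (ℕ → Bool) × X | psi n p.2 ≠ p.1} = 0 := by
          rw [hκ, ProbabilityTheory.compProd_map_condDistrib measurable_id.aemeasurable,
            Measure.map_apply ((hpsim n).prodMk measurable_id) h2]
          simp
        rw [Measure.compProd_apply h2, lintegral_eq_zero_iff
          (ProbabilityTheory.Kernel.measurable_kernel_prodMk_left h2)] at h3
        exact h3
      exact ae_of_ae_map (hpsim n).aemeasurable h1
    set F : Fin 3 → X → ℝ≥0∞ := fun s x => κ (psi n x) {y | (x, y) ∈ T sig s} with hF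
    have hFm : ∀ s, Measurable (F s) := by
      intro s
      have h1 : MeasurableSet {p : X × X | p ∈ T sig s} := hTm s
      exact ProbabilityTheory.Kernel.measurable_kernel_prodMk_left
        (κ := κ.comap (psi n) (hpsim n)) h1
    have hsum : ∀ x, ∑ s, F s x ≤ 1 := by
      intro x
      have h1 : ∑ s, F s x = κ (psi n x) (⋃ s, {y | (x, y) ∈ T sig s}) := by
        rw [measure_iUnion, tsum_fintype]
        · intro s t hst
          rw [Function.onFun, Set.disjoint_left]
          intro y hy hy'
          exact T_disj hinv hfree hst x y hy hy'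
        · intro s
          exact measurable_prodMk_left (hTm s)
      rw [h1]
      exact prob_le_one
    have hcov : ∀ s, ∀ᵐ x ∂mu, x ∈ G s n → 1 ≤ F s x + F s (sig s x) := by
      intro s
      filter_upwards [hae] with x hx hxG
      have h1 : psi n (sig s x) = psi n x := hxG
      have h2 : κ (psi n x) {y | psi n y ≠ psi n x}ᶜ = 1 := by
        have hms : MeasurableSet {y | psi n y ≠ psi n x} :=
          (measurableSet_eq_fun (hpsim n) measurable_const).compl
        rw [prob_compl_eq_one_iff hms]
        exact hx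
      have h3 : {y | psi n y ≠ psi n x}ᶜ ⊆ {y | (x, y) ∈ T sig s} ∪ {y | (sig s x, y) ∈ T sig s} := by
        intro y hy
        have hy' : psi n y = psi n x := by
          by_contra hcon
          exact hy hcon
        have hE : ∃ w, act sig w x = y := by
          rw [h]
          refine ⟨n, fun m hm => ?_⟩
          have := congrFun hy' (m - n)
          simp only [hpsi] at this
          rw [Nat.add_sub_cancel' hm] at this
          exact this.symm
        exact T_cover hinv s x y hE
      calc (1 : ℝ≥0∞) = κ (psi n x) {y | psi n y ≠ psi n x}ᶜ := h2.symm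
        _ ≤ κ (psi n x) ({y | (x, y) ∈ T sig s} ∪ {y | (sig s x, y) ∈ T sig s}) := measure_mono h3
        _ ≤ κ (psi n x) {y | (x, y) ∈ T sig s} + κ (psi n x) {y | (sig s x, y) ∈ T sig s} :=
          measure_union_le _ _
        _ = F s x + F s (sig s x) := by simp only [hF, h1]
    have hle : ∀ s, mu (G s n) ≤ 2 * ∫⁻ x, F s x ∂mu := by
      intro s
      calc mu (G s n) = ∫⁻ x in G s n, 1 ∂mu := by simp
        _ ≤ ∫⁻ x in G s n, (F s x + F s (sig s x)) ∂mu := by
          refine setLIntegral_mono_ae' (hGm s n) ?_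
          exact hcov s
        _ ≤ ∫⁻ x, (F s x + F s (sig s x)) ∂mu := setLIntegral_le_lintegral _ _
        _ = ∫⁻ x, F s x ∂mu + ∫⁻ x, F s (sig s x) ∂mu := lintegral_add_left (hFm s) _
        _ = 2 * ∫⁻ x, F s x ∂mu := by
          rw [(hm s).lintegral_comp (hFm s), two_mul]
    calc ∑ s, mu (G s n) ≤ ∑ s, 2 * ∫⁻ x, F s x ∂mu := Finset.sum_le_sum fun s _ => hle s
      _ = 2 * ∫⁻ x, ∑ s, F s x ∂mu := by
        rw [lintegral_finsetSum _ (fun s _ => hFm s), Finset.mul_sum]
      _ ≤ 2 * ∫⁻ _, 1 ∂mu := by
        gcongr with x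
        exact hsum x
      _ = 2 := by simp
  have hlim : ∀ s, Tendsto (fun n => mu (G s n)) atTop (𝓝 1) := by
    intro s
    have hmono : Monotone (G s) := by
      intro m n hmn x hx
      have hx' : psi m (sig s x) = psi m x := hx
      show psi n (sig s x) = psi n x
      funext i
      have := congrFun hx' (n - m + i)
      simp only [hpsi] at this ⊢
      rw [show m + (n - m + i) = n + i by omega] at this
      exact this
    have hun : ⋃ n, G s n = univ := by
      rw [eq_univ_iff_forall]
      intro x
      rw [mem_iUnion]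
      obtain ⟨N, hN⟩ := (h x (sig s x)).1 ⟨[s], rfl⟩
      refine ⟨N, ?_⟩
      show psi N (sig s x) = psi N x
      funext i
      exact (hN (N + i) (by omega)).symm
    have := tendsto_measure_iUnion_atTop (μ := mu) hmono
    rw [hun, measure_univ] at this
    exact this
  have hlim3 : Tendsto (fun n => ∑ s, mu (G s n)) atTop (𝓝 (∑ _ : Fin 3, (1 : ℝ≥0∞))) :=
    tendsto_finsetSum _ fun s _ => hlim s
  have h3 : (∑ _ : Fin 3, (1 : ℝ≥0∞)) ≤ 2 := le_of_tendsto' hlim3 key
  simp at h3
  norm_num at h3

end Pool.H72.NotE0
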